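import Pool.Agent.Lib.MP_f80667_ag.To.Pa

/-!
The points of bounded degree have finitely many classes modulo a number.

* `fp_card`: a point over `M` has at most `[M : K]` conjugates.
* `fin_cls`: the points with at most `D` conjugates are near finitely many points.
* `pigeon`, `pigeon₂`: in a sequence of effective cycles of bounded degree over `K` there are two whose difference is `0` modulo `t`; for two sequences at once.
-/

open ZC BE PE CV IntermediateField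

namespace GX

section

variable {F : Type} [Field F] {K Ω : Type} [Field K] [CharZero K] [Field Ω] [Algebra K Ω]
  [Algebra F K] [Algebra F Ω] [IsScalarTower F K Ω] [IsAlgClosure K Ω]

/-- A point over `M` has at most `[M : K]` conjugates. -/
theorem fp_card {V : Vr F} [Hf V] {M : IntermediateField K Ω} [FiniteDimensional K M]
    {P : V.pt Ω} (hP : Fp V M P) : ∃ S : Finset (V.pt Ω), S.card ≤ Module.finrank K M ∧
      ∀ γ : Ω ≃ₐ[K] Ω, V.act γ P ∈ S := by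
  classical
  obtain ⟨s, hs, -, h2, -⟩ := nm_rep (K := K) (Ω := Ω) (bot_le : (⊥ : IntermediateField K Ω) ≤ M)
  have h1 : s.card = Module.finrank K M := by
    rw [hs, Tow_div bot_le inferInstance, IntermediateField.finrank_bot, Nat.div_one]
  refine ⟨s.image fun γ => V.act γ P, Finset.card_image_le.trans h1.le, fun γ => ?_⟩
  obtain ⟨δ, ⟨hδ, hγ⟩, -⟩ := h2 γ (by
    rw [IntermediateField.fixingSubgroup_bot]
    exact Subgroup.mem_top γ)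
  refine Finset.mem_image.2 ⟨δ, hδ, ?_⟩
  have h3 : δ * (δ⁻¹ * γ) = γ := mul_inv_cancel_left δ γ
  rw [← h3, act_mul Hf.out, hP _ hγ]

/-- The support of an effective cycle over `K`. -/
theorem eff_supp {V : Vr F} [Hf V] {z : V.pt Ω →₀ ℤ} (hz : z ∈ V.cyc K Ω) (h0 : ∀ P, 0 ≤ z P) :
    (z.support.card : ℤ) ≤ V.deg Ω z ∧
      ∀ P ∈ z.support, ∀ γ : Ω ≃ₐ[K] Ω, V.act γ P ∈ z.support := by
  classical
  constructor
  · have h1 : V.deg Ω z = ∑ P ∈ z.support, z P := by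
      rw [Vr.deg, Finsupp.liftAddHom_apply, Finsupp.sum]
      rfl
    rw [h1, Finset.card_eq_sum_ones, Nat.cast_sum]
    refine Finset.sum_le_sum fun P hP => ?_
    have h2 : z P ≠ 0 := Finsupp.mem_support_iff.1 hP
    have h3 := h0 P
    rw [Nat.cast_one]
    omega
  · intro P hP γ
    have h1 : γ • z = z := hz γ
    rw [Finsupp.mem_support_iff] at hP ⊢
    intro h2
    apply hP
    have hinj : Function.Injective (V.act γ) := by
      intro Q Q' h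
      have h3 : ∀ R : V.pt Ω, V.act γ⁻¹ (V.act γ R) = R := fun R => by
        rw [← act_mul Hf.out, inv_mul_cancel, act_one Hf.out]
      rw [← h3 Q, h, h3]
    have h3 : (γ • z) (V.act γ P) = z P := Finsupp.mapDomain_apply hinj z P
    rw [← h3, h1]
    exact h2

end

variable {F : Type} [Field F] {N : ℕ} {ι : Type} {f : ι → MvPolynomial (Fin N) F}
  {K Ω : Type} [Field K] [CharZero K] [Field Ω] [Algebra K Ω] [Algebra F K] [Algebra F Ω]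
  [IsScalarTower F K Ω] [IsAlgClosure K Ω] (L : Ld K Ω)

/-- **Finitely many classes.** -/
theorem fin_cls (hf : Hm f) {t : ℝ} (ht : 0 < t) (D : ℕ) :
    ∃ E : Finset ((Xf f).pt Ω), ∀ (P : (Xf f).pt Ω) (S : Finset ((Xf f).pt Ω)), S.card ≤ D →
      (∀ γ : Ω ≃ₐ[K] Ω, (Xf f).act γ P ∈ S) → ∃ Q ∈ E, Nrh f L t P Q := by
  classical
  obtain ⟨R, hR⟩ := ld_deg L D ht
  obtain ⟨G, hG⟩ : ∃ G : Set (Fin N → R), G = {ρ | ∃ (Q : (Xf f).pt Ω) (x : Fin N → Ω), Co Q x ∧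
    (∀ i, L.nm (x i) ≤ 1) ∧ (∃ i, L.nm (x i) = 1) ∧ ∀ i, L.nm (x i - ρ i) ≤ t} := ⟨_, rfl⟩
  have hGm : ∀ ρ : G, ∃ (Q : (Xf f).pt Ω) (x : Fin N → Ω), Co Q x ∧
      (∀ i, L.nm (x i) ≤ 1) ∧ (∃ i, L.nm (x i) = 1) ∧ ∀ i, L.nm (x i - (ρ : Fin N → R) i) ≤ t := by
    have h1 : ∀ ρ : Fin N → R, ρ ∈ G → ∃ (Q : (Xf f).pt Ω) (x : Fin N → Ω), Co Q x ∧
        (∀ i, L.nm (x i) ≤ 1) ∧ (∃ i, L.nm (x i) = 1) ∧ ∀ i, L.nm (x i - ρ i) ≤ t := by
      intro ρ hρ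
      rw [hG] at hρ
      exact hρ
    exact fun ρ => h1 ρ ρ.2
  choose q y hy using hGm
  have hfin : Finite G := Subtype.finite
  refine ⟨(Set.finite_range q).toFinset, fun P S hSD hS => ?_⟩
  obtain ⟨x, k, hx, hxk, hx1⟩ := exists_nco (L := L) hf P
  -- the degrees of the coordinates
  have hdeg : ∀ i, (minpoly K (x i)).natDegree ≤ D := by
    intro i
    obtain ⟨c, hc⟩ : ∃ c : (Xf f).pt Ω → Ω, ∀ (Q : (Xf f).pt Ω) (y : Fin N → Ω), Co Q y →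
        y k = 1 → y i = c Q := by
      refine ⟨fun Q => if h : ∃ y : Fin N → Ω, Co Q y ∧ y k = 1 then h.choose i else 0,
        fun Q y hQ hk => ?_⟩
      have h : ∃ y : Fin N → Ω, Co Q y ∧ y k = 1 := ⟨y, hQ, hk⟩
      change y i = if h : ∃ y : Fin N → Ω, Co Q y ∧ y k = 1 then h.choose i else 0
      rw [dif_pos h, co_one hQ h.choose_spec.1 hk h.choose_spec.2]
    refine (card_deg (S := S.image c) fun γ => ?_).trans (Finset.card_image_le.trans hSD)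
    refine Finset.mem_image.2 ⟨(Xf f).act γ P, hS γ, ?_⟩
    exact (hc _ _ (co_act γ hx) (by rw [hxk, map_one])).symm
  have h1 : ∀ i, ∃ r : R, L.nm (x i - r) ≤ t := by
    intro i
    obtain ⟨r, hr, h2⟩ := hR (x i) (hx1 i) (hdeg i)
    exact ⟨⟨r, hr⟩, h2⟩
  choose ρ hρ using h1
  have hone : ∃ i, L.nm (x i) = 1 := ⟨k, by rw [hxk, L.one]⟩
  have hρG : ρ ∈ G := by
    rw [hG]
    exact ⟨P, x, hx, hx1, hone, hρ⟩
  obtain ⟨g1, g2, g3, g4⟩ := hy ⟨ρ, hρG⟩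
  refine ⟨q ⟨ρ, hρG⟩, (Set.Finite.mem_toFinset _).2 ⟨_, rfl⟩,
    ⟨x, y ⟨ρ, hρG⟩, hx, g1, hx1, g2, hone, g3, fun i => ?_⟩⟩
  have e1 : x i - y ⟨ρ, hρG⟩ i = (x i - ρ i) - (y ⟨ρ, hρG⟩ i - ρ i) := by ring
  rw [e1]
  exact (L.sub _ _).trans (max_le (hρ i) (g4 i))

/-- **Finitely many classes**, for points over extensions of bounded degree. -/
theorem fin_cls' (hf : Hm f) {t : ℝ} (ht : 0 < t) (D : ℕ) :
    ∃ E : Finset ((Xf f).pt Ω), ∀ (M : IntermediateField K Ω) (P : (Xf f).pt Ω),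
      FiniteDimensional K M → Module.finrank K M ≤ D → Fp (Xf f) M P → ∃ Q ∈ E, Nrh f L t P Q := by
  obtain ⟨E, hE⟩ := fin_cls L hf ht D
  refine ⟨E, fun M P hM hD hP => ?_⟩
  obtain ⟨S, hS, hS'⟩ := fp_card hP
  exact hE P S (hS.trans hD) hS'

open Classical in
/-- The masses of the balls, for cycles of bounded degree. -/
private theorem pb_key (hf : Hm f) {t : ℝ} (ht : 0 < t) (ht1 : t < 1) (D : ℕ) :
    ∃ (E : Type) (_ : Finite E) (φ : ((Xf f).pt Ω →₀ ℤ) → E), ∀ z z' : (Xf f).pt Ω →₀ ℤ,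
      z ∈ (Xf f).cyc K Ω → z' ∈ (Xf f).cyc K Ω → (∀ P, 0 ≤ z P) → (∀ P, 0 ≤ z' P) →
        (Xf f).deg Ω z ≤ D → (Xf f).deg Ω z' ≤ D → φ z = φ z' → Zrt f L t (z' - z) := by
  obtain ⟨E, hE⟩ := fin_cls L hf ht D
  obtain ⟨hrf, hsy, htr, -⟩ := nrh_eqv (L := L) hf ht.le ht1
  -- the masses of the balls
  obtain ⟨μ, hμ⟩ : ∃ μ : ((Xf f).pt Ω →₀ ℤ) → (Xf f).pt Ω → ℤ, μ = fun z Q =>
    ∑ P ∈ z.support.filter (fun P => Nrh f L t P Q), z P := ⟨_, rfl⟩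
  have hμD : ∀ z : (Xf f).pt Ω →₀ ℤ, (∀ P, 0 ≤ z P) → (Xf f).deg Ω z ≤ D → ∀ Q,
      0 ≤ μ z Q ∧ μ z Q ≤ D := by
    intro z h0 hD Q
    rw [hμ]
    refine ⟨Finset.sum_nonneg fun P _ => h0 P, le_trans ?_ hD⟩
    have h1 : (Xf f).deg Ω z = ∑ P ∈ z.support, z P := by
      rw [Vr.deg, Finsupp.liftAddHom_apply, Finsupp.sum]
      rfl
    rw [h1]
    exact Finset.sum_le_sum_of_subset_of_nonneg (Finset.filter_subset _ _) fun P _ _ => h0 P
  refine ⟨E → Fin (D + 1), inferInstance, fun z Q => ⟨min (μ z Q).toNat D, by omega⟩, ?_⟩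
  intro z z' hz hz' h0 h0' hD hD' he
  have he' : ∀ Q ∈ E, μ z Q = μ z' Q := by
    intro Q hQ
    have h1 := congrArg Fin.val (congrFun he ⟨Q, hQ⟩)
    change min (μ z Q).toNat D = min (μ z' Q).toNat D at h1
    have h2 := hμD z h0 hD Q
    have h3 := hμD z' h0' hD' Q
    omega
  have hsub : ∀ Q, μ (z' - z) Q = μ z' Q - μ z Q := by
    intro Q
    have h1 : ∀ w : (Xf f).pt Ω →₀ ℤ, μ w Q =
        w.sum fun P c => if Nrh f L t P Q then c else 0 := by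
      intro w
      rw [hμ, Finsupp.sum]
      exact Finset.sum_filter _ _
    rw [h1, h1, h1, Finsupp.sum_sub_index]
    intro P c c'
    split_ifs
    · rfl
    · rw [sub_zero]
  intro Q
  have h2 : (∑ P ∈ (z' - z).support.filter (fun P => Nrh f L t P Q), (z' - z) P) =
      μ (z' - z) Q := by rw [hμ]
  rw [h2]
  by_cases hQ : ∃ Q' ∈ E, Nrh f L t Q Q'
  · obtain ⟨Q', hQ', hQQ⟩ := hQ
    have h3 : ∀ w, μ w Q = μ w Q' := by
      intro w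
      rw [hμ]
      refine Finset.sum_congr (Finset.filter_congr fun P _ => ?_) fun _ _ => rfl
      exact ⟨fun h => htr _ _ _ h hQQ, fun h => htr _ _ _ h (hsy _ _ hQQ)⟩
    rw [hsub, h3, h3, he' Q' hQ', sub_self]
  · have h3 : ∀ w : (Xf f).pt Ω →₀ ℤ, w ∈ (Xf f).cyc K Ω → (∀ P, 0 ≤ w P) →
        (Xf f).deg Ω w ≤ D → μ w Q = 0 := by
      intro w hw hw0 hwD
      rw [hμ]
      refine Finset.sum_eq_zero fun P hP => ?_
      obtain ⟨hP1, hP2⟩ := Finset.mem_filter.1 hP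
      exfalso
      obtain ⟨g1, g2⟩ := eff_supp hw hw0
      obtain ⟨Q', hQ', hPQ⟩ := hE P w.support (by
        have h4 := g1.trans hwD
        exact_mod_cast h4) (g2 P hP1)
      exact hQ ⟨Q', hQ', htr _ _ _ (hsy _ _ hP2) hPQ⟩
    rw [hsub, h3 z hz h0 hD, h3 z' hz' h0' hD', sub_zero]

/-- **Pigeonhole**, for two sequences. -/
theorem pigeon₂ (hf : Hm f) {t : ℝ} (ht : 0 < t) (ht1 : t < 1) (D : ℕ)
    (z z' : ℕ → (Xf f).pt Ω →₀ ℤ) (hz : ∀ n, z n ∈ (Xf f).cyc K Ω)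
    (hz' : ∀ n, z' n ∈ (Xf f).cyc K Ω) (h0 : ∀ n P, 0 ≤ z n P) (h0' : ∀ n P, 0 ≤ z' n P)
    (hD : ∀ n, (Xf f).deg Ω (z n) ≤ D) (hD' : ∀ n, (Xf f).deg Ω (z' n) ≤ D) :
    ∃ n n' : ℕ, n < n' ∧ Zrt f L t (z n' - z n) ∧ Zrt f L t (z' n' - z' n) := by
  obtain ⟨E, hE, φ, hφ⟩ := pb_key L hf ht ht1 D
  obtain ⟨n, n', hne, he⟩ := Finite.exists_ne_map_eq_of_infinite fun n => (φ (z n), φ (z' n))
  rw [Prod.mk.injEq] at he
  have key : ∀ a b : ℕ, φ (z a) = φ (z b) → φ (z' a) = φ (z' b) →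
      Zrt f L t (z b - z a) ∧ Zrt f L t (z' b - z' a) := fun a b h1 h2 =>
    ⟨hφ _ _ (hz a) (hz b) (h0 a) (h0 b) (hD a) (hD b) h1,
      hφ _ _ (hz' a) (hz' b) (h0' a) (h0' b) (hD' a) (hD' b) h2⟩
  rcases Nat.lt_or_gt_of_ne hne with h | h
  · exact ⟨n, n', h, key n n' he.1 he.2⟩
  · exact ⟨n', n, h, key n' n he.1.symm he.2.symm⟩

/-- **Pigeonhole.** -/
theorem pigeon (hf : Hm f) {t : ℝ} (ht : 0 < t) (ht1 : t < 1) (D : ℕ)
    (z : ℕ → (Xf f).pt Ω →₀ ℤ) (hz : ∀ n, z n ∈ (Xf f).cyc K Ω) (h0 : ∀ n P, 0 ≤ z n P)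
    (hD : ∀ n, (Xf f).deg Ω (z n) ≤ D) : ∃ n n' : ℕ, n < n' ∧ Zrt f L t (z n' - z n) := by
  obtain ⟨n, n', h1, h2, -⟩ := pigeon₂ L hf ht ht1 D z z hz hz h0 h0 hD hD
  exact ⟨n, n', h1, h2⟩

end GX
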