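import Pool.Agent.Lib.MP_f80667_ag.To.A
import Pool.Agent.Lib.MP_f80667_ag.Ng.W

/-!
Descent of `Tor`; near points.

* `Tor.down`: from a finite extension. * `tor_near`: near points.
-/

open ZC BE PE CV IntermediateField

namespace GX

variable {F : Type} [Field F] {N : ℕ} {ι : Type} {f : ι → MvPolynomial (Fin N) F}
  {K Ω : Type} [Field K] [Field Ω] [Algebra K Ω] [Algebra F K] [Algebra F Ω]
  [IsScalarTower F K Ω] {L : Ld K Ω} {t : ℝ} {z z' : (Xf f).pt Ω →₀ ℤ} {E : IntermediateField K Ω}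

open Classical in
/-- The sum over a ball. -/
private noncomputable def dq (f : ι → MvPolynomial (Fin N) F) (L : Ld K Ω) (t : ℝ)
    (Q : (Xf f).pt Ω) : ((Xf f).pt Ω →₀ ℤ) →+ ℤ :=
  Finsupp.liftAddHom fun P => if Nrh f L t P Q then AddMonoidHom.id ℤ else 0

private theorem dq_single (Q P : (Xf f).pt Ω) (n : ℤ) [Decidable (Nrh f L t P Q)] :
    dq f L t Q (Finsupp.single P n) = if Nrh f L t P Q then n else 0 := by
  classical
  rw [dq, Finsupp.liftAddHom_apply_single]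
  by_cases h : Nrh f L t P Q
  · rw [if_pos h, if_pos h]
    rfl
  · rw [if_neg h, if_neg h]
    rfl

private theorem zrt_dq : Zrt f L t z ↔ ∀ Q, dq f L t Q z = 0 := by
  classical
  unfold Zrt
  refine forall_congr' fun Q => ?_
  have h : dq f L t Q z = ∑ P ∈ z.support.filter (fun P => Nrh f L t P Q), z P := by
    unfold dq
    rw [Finsupp.liftAddHom_apply, Finsupp.sum, Finset.sum_filter]
    refine Finset.sum_congr rfl fun P _ => ?_
    by_cases h : Nrh f L t P Q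
    · rw [if_pos h, if_pos h]
      rfl
    · rw [if_neg h, if_neg h]
      rfl
  rw [h]

/-- Near points. -/
theorem zrt_pair (hf : Hm f) (h0 : 0 ≤ t) (h1 : t < 1) {P P' : (Xf f).pt Ω}
    (h : Nrh f L t P P') :
    Zrt f L t (Finsupp.single P' 1 - Finsupp.single P 1 : (Xf f).pt Ω →₀ ℤ) := by
  classical
  obtain ⟨-, hs, ht, -⟩ := nrh_eqv (L := L) hf h0 h1
  rw [zrt_dq]
  intro Q
  have e : Nrh f L t P' Q ↔ Nrh f L t P Q :=
    ⟨fun h' => ht _ _ _ h h', fun h' => ht _ _ _ (hs _ _ h) h'⟩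
  rw [map_sub, dq_single, dq_single]
  by_cases hQ : Nrh f L t P Q
  · rw [if_pos (e.2 hQ), if_pos hQ, sub_self]
  · rw [if_neg fun h' => hQ (e.1 h'), if_neg hQ, sub_self]

/-- The conjugates. -/
theorem Zrt.gal (hf : Hm f) (h0 : 0 ≤ t) (h1 : t < 1) (h : Zrt f L t z) (γ : Ω ≃ₐ[K] Ω) :
    Zrt f L t (γ • z) := by
  classical
  obtain ⟨-, -, -, ha⟩ := nrh_eqv (L := L) hf h0 h1
  rw [zrt_dq] at h ⊢
  intro Q
  have hinv : ∀ (δ : Ω ≃ₐ[K] Ω) (R : (Xf f).pt Ω), (Xf f).act δ⁻¹ ((Xf f).act δ R) = R :=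
    fun δ R => by rw [← act_mul Hf.out, inv_mul_cancel, act_one Hf.out]
  have key : (dq f L t Q).comp (DistribMulAction.toAddMonoidHom _ γ) =
      dq f L t ((Xf f).act γ⁻¹ Q) := by
    refine Finsupp.addHom_ext fun P n => ?_
    rw [AddMonoidHom.comp_apply, DistribMulAction.toAddMonoidHom_apply, CV.smul_single, dq_single,
      dq_single]
    have e : Nrh f L t ((Xf f).act γ P) Q ↔ Nrh f L t P ((Xf f).act γ⁻¹ Q) := by
      constructor
      · intro h2
        have h3 := ha γ⁻¹ _ _ h2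
        rwa [hinv] at h3
      · intro h2
        have h3 := ha γ _ _ h2
        have h4 := hinv γ⁻¹ Q
        rw [inv_inv] at h4
        rwa [h4] at h3
    by_cases h2 : Nrh f L t P ((Xf f).act γ⁻¹ Q)
    · rw [if_pos (e.2 h2), if_pos h2]
    · rw [if_neg fun h3 => h2 (e.1 h3), if_neg h2]
  have h2 := DFunLike.congr_fun key z
  rw [AddMonoidHom.comp_apply, DistribMulAction.toAddMonoidHom_apply, h] at h2
  exact h2

theorem zrt_sum {α : Type} (s : Finset α) {z : α → (Xf f).pt Ω →₀ ℤ}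
    (h : ∀ i ∈ s, Zrt f L t (z i)) : Zrt f L t (∑ i ∈ s, z i) := by
  classical
  rw [zrt_dq]
  intro Q
  rw [map_sum]
  exact Finset.sum_eq_zero fun i hi => zrt_dq.1 (h i hi) Q

/-- Over an extension. -/
theorem zrt_xt [FiniteDimensional K E] : Zrt f (xt L E) t z ↔ Zrt f L t z := Iff.rfl

/-- The cycles over `E`. -/
theorem fx_cyc' : Fx E z ↔ z ∈ (Xf f).cyc E Ω := by
  constructor
  · intro h σ
    have hγ : σ.restrictScalars K ∈ E.fixingSubgroup := by
      rw [IntermediateField.mem_fixingSubgroup_iff]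
      intro x hx
      exact σ.commutes ⟨x, hx⟩
    exact h (σ.restrictScalars K) hγ
  · intro h γ hγ
    exact h (IntermediateField.fixingSubgroupEquiv E ⟨γ, hγ⟩)

theorem cyc_up (hz : z ∈ (Xf f).cyc K Ω) : z ∈ (Xf f).cyc E Ω :=
  fx_cyc'.1 fun γ _ => hz γ

variable [CharZero K] [IsAlgClosure K Ω]

/-- The trace. -/
theorem Zrt.nm (hf : Hm f) (h0 : 0 ≤ t) (h1 : t < 1) [FiniteDimensional K E]
    (h : Zrt f L t z) : Zrt f L t (Nm (⊥ : IntermediateField K Ω) E z) := by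
  obtain ⟨s, -, -, -, h3⟩ := nm_rep (K := K) (Ω := Ω) (bot_le : (⊥ : IntermediateField K Ω) ≤ E)
  rw [h3]
  exact zrt_sum s fun γ _ => h.gal hf h0 h1 γ

/-- **From a finite extension.** -/
theorem Tor.down (hf : Hm f) (E : IntermediateField K Ω) [FiniteDimensional K E]
    (hz : z ∈ (Xf f).cyc K Ω) (h0 : 0 ≤ t) (h1 : t < 1) (h : Tor f (xt L E) t z) :
    Tor f L t z := by
  obtain ⟨n, hn, u, hu, hu', hr⟩ := h
  have hE : Module.finrank K E ≠ 0 := Module.finrank_pos.ne'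
  have hFu : Fx E u := fx_cyc'.2 hu
  have hFz : Fx E z := fun γ _ => hz γ
  refine ⟨n * Module.finrank K E, mul_ne_zero hn hE, Nm (⊥ : IntermediateField K Ω) E u,
    GM.cyc_iff.2 (nm_fx bot_le hFu), (zrt_xt.1 hu').nm hf h0 h1, ?_⟩
  have e1 : GM.nmh (Xf f) E z = Module.finrank K E • z := by
    rw [GM.nmh_apply, nm_const bot_le (GM.cyc_iff.1 hz)]
    congr 1
    have h := relIndex_fix (K := K) (Ω := Ω) (M := ⊥) (N := E) bot_le
    rwa [IntermediateField.finrank_bot, mul_one] at h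
  have e2 : GM.nmh (Xf f) E (n • z - u) =
      (n * Module.finrank K E) • z - Nm (⊥ : IntermediateField K Ω) E u := by
    rw [map_sub, map_nsmul, e1, smul_smul, GM.nmh_apply]
  rw [← e2, GM.nmh_apply]
  exact nm_ratEq hr ((fx_cyc'.1 hFz |> fun h2 => fx_cyc'.2 (sub_mem (nsmul_mem h2 n) hu)))

/-- **Near points.** -/
theorem tor_near (hf : Hm f) (h0 : 0 ≤ t) (h1 : t < 1) {P P' : (Xf f).pt Ω}
    (h : Nrh f L t P P') (hP : Fp (Xf f) (⊥ : IntermediateField K Ω) P)
    (hP' : Fp (Xf f) (⊥ : IntermediateField K Ω) P') :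
    Tor f L t (Finsupp.single P' 1 - Finsupp.single P 1) :=
  ⟨1, one_ne_zero, Finsupp.single P' 1 - Finsupp.single P 1,
    GM.cyc_iff.2 ((fx_single hP' 1).sub (fx_single hP 1)), zrt_pair hf h0 h1 h, by
      rw [one_smul, sub_self]
      exact zero_mem _⟩

end GX
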