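import Pool.Agent.Lib.MP_f80667_ag.Ep.Ax4
import Pool.Agent.Lib.MP_f80667_ag.Ep.Yd1
import Pool.Agent.Lib.MP_f80667_ag.Lc.D

/-!
Zero-cycles of degree `0` and cycles which are `0` modulo a number.

* `Irr f Ω`: the variety `f = 0` over `Ω` is irreducible.
* `Tor f L t z`: a multiple of `z` is, modulo rational equivalence, a cycle over `K` which is `0` modulo `t`.
* `Dgb f K c P`: the point `P` is defined over an extension of `K` of degree `≤ c`.
-/

open ZC BE PE CV IntermediateField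

namespace GX

section defs

variable {F : Type} [Field F] {N : ℕ} {ι : Type} (f : ι → MvPolynomial (Fin N) F)

/-- The variety over `Ω` is irreducible. -/
def Irr (Ω : Type) [Field Ω] [Algebra F Ω] : Prop :=
  ∀ a b : MvPolynomial (Fin N) Ω,
    (∀ x, Zp (fo f Ω) x → MvPolynomial.eval x a * MvPolynomial.eval x b = 0) →
      (∀ x, Zp (fo f Ω) x → MvPolynomial.eval x a = 0) ∨
        ∀ x, Zp (fo f Ω) x → MvPolynomial.eval x b = 0

variable {K Ω : Type} [Field K] [Field Ω] [Algebra K Ω] [Algebra F K] [Algebra F Ω]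
  [IsScalarTower F K Ω] (L : Ld K Ω)

/-- A multiple of the cycle is, modulo rational equivalence, a cycle over `K` which is `0` modulo `t`. -/
def Tor (t : ℝ) (z : (Xf f).pt Ω →₀ ℤ) : Prop :=
  ∃ n : ℕ, n ≠ 0 ∧ ∃ u ∈ (Xf f).cyc K Ω, Zrt f L t u ∧ n • z - u ∈ (Xf f).ratEq K Ω

variable (K) in
/-- The point is defined over an extension of degree `≤ c`. -/
def Dgb (c : ℕ) (P : (Xf f).pt Ω) : Prop :=
  ∃ M : IntermediateField K Ω, FiniteDimensional K M ∧ Module.finrank K M ≤ c ∧ Fp (Xf f) M P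

end defs

section tor

variable {F : Type} [Field F] {N : ℕ} {ι : Type} {f : ι → MvPolynomial (Fin N) F}
  {K Ω : Type} [Field K] [Field Ω] [Algebra K Ω] [Algebra F K] [Algebra F Ω]
  [IsScalarTower F K Ω] {L : Ld K Ω} {t : ℝ} {z z' : (Xf f).pt Ω →₀ ℤ}

theorem zrt_nil : Zrt f L t (0 : (Xf f).pt Ω →₀ ℤ) := by
  classical
  intro Q
  rw [Finsupp.support_zero, Finset.filter_empty, Finset.sum_empty]

theorem Tor.zero : Tor f L t (0 : (Xf f).pt Ω →₀ ℤ) :=
  ⟨1, one_ne_zero, 0, zero_mem _, zrt_nil, by rw [smul_zero, sub_zero]; exact zero_mem _⟩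

theorem Tor.add (h : Tor f L t z) (h' : Tor f L t z') : Tor f L t (z + z') := by
  obtain ⟨n, hn, u, hu, hu', hr⟩ := h
  obtain ⟨n', hn', v, hv, hv', hr'⟩ := h'
  refine ⟨n * n', mul_ne_zero hn hn', n' • u + n • v, add_mem (nsmul_mem hu _) (nsmul_mem hv _),
    ?_, ?_⟩
  · refine Zrt.add ?_ ?_
    · rw [← natCast_zsmul]
      exact hu'.zsmul _
    · rw [← natCast_zsmul]
      exact hv'.zsmul _
  · have e : (n * n') • (z + z') - (n' • u + n • v) = n' • (n • z - u) + n • (n' • z' - v) := by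
      rw [smul_sub, smul_sub, smul_add, smul_smul, smul_smul, mul_comm n' n]
      abel
    rw [e]
    exact add_mem (nsmul_mem hr _) (nsmul_mem hr' _)

theorem Tor.neg (h : Tor f L t z) : Tor f L t (-z) := by
  obtain ⟨n, hn, u, hu, hu', hr⟩ := h
  refine ⟨n, hn, -u, neg_mem hu, ?_, ?_⟩
  · rw [← neg_one_zsmul]
    exact hu'.zsmul _
  · have e : n • (-z) - -u = -(n • z - u) := by
      rw [smul_neg]
      abel
    rw [e]
    exact neg_mem hr

theorem Tor.zsmul (h : Tor f L t z) (m : ℤ) : Tor f L t (m • z) := by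
  obtain ⟨n, hn, u, hu, hu', hr⟩ := h
  refine ⟨n, hn, m • u, zsmul_mem hu _, hu'.zsmul _, ?_⟩
  have e : n • m • z - m • u = m • (n • z - u) := by
    rw [smul_sub, smul_comm]
  rw [e]
  exact zsmul_mem hr _

theorem Tor.sum {α : Type} (s : Finset α) {z : α → (Xf f).pt Ω →₀ ℤ}
    (h : ∀ i ∈ s, Tor f L t (z i)) : Tor f L t (∑ i ∈ s, z i) := by
  classical
  induction s using Finset.induction_on with
  | empty =>
    rw [Finset.sum_empty]
    exact Tor.zero
  | insert a s ha ih =>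
    rw [Finset.sum_insert ha]
    exact (h a (Finset.mem_insert_self a s)).add
      (ih fun i hi => h i (Finset.mem_insert_of_mem hi))

end tor

end GX
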