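import Pool.Agent.Lib.MP_f80667_ag.To.Eb

/-!
The final statement.

* `Tzc M K Ω`: the cycles over `K` of degree `0` with sum `0`. `Wzc V M K a`: the cycles over `K` which are `0` modulo `a`, with sum `0`.
* `Dvw V M K a`: for all `m ≠ 0` and all multiples `b ≠ 0` of `a` every element of `Wzc a` is rationally equivalent to `m` times an element of
  `Wzc b`.
* `Tdw V M K a`: every element of `Tzc` is, modulo rational equivalence, an element of `Wzc a` plus torsion. `Tbw V M K a D`: for the cycles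
  supported on points of degree `≤ D` the torsion can be taken in a finite set.
* `Stw V M K`: these statements and `Fnz` for all multiples `a ≠ 0` of some `a₀ ≠ 0`.
-/

open ZC BE PE CV IntermediateField IsDedekindDomain NumberField

namespace GX

section defs

variable {F : Type} [Field F] {N N' k k' : ℕ} {ι ι' : Type} {f : ι → MvPolynomial (Fin N) F}
  {A : Gv F N' k' ι'}

/-- The cycles over `K` of degree `0` with sum `0`. -/
def Tzc (M : Mf f A k) (K Ω : Type) [Field K] [Field Ω] [Algebra F K] [Algebra F Ω] [Algebra K Ω]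
    [IsScalarTower F K Ω] : Set ((Xf f).pt Ω →₀ ℤ) :=
  letI := A.G.grp Ω
  {z | z ∈ (Xf f).cyc K Ω ∧ (Xf f).deg Ω z = 0 ∧ M.S Ω z = 0}

variable {Ω : Type} [Field Ω] [Algebra F Ω] (V : ValuationSubring Ω) (M : Mf f A k)
  (K : Type) [Field K] [Algebra F K] [Algebra K Ω] [IsScalarTower F K Ω]

/-- The cycles over `K` which are `0` modulo `a`, with sum `0`. -/
def Wzc (a : Ω) : Set ((Xf f).pt Ω →₀ ℤ) :=
  letI := A.G.grp Ω
  {z | z ∈ (Xf f).cyc K Ω ∧ Zra f V a z ∧ M.S Ω z = 0}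

/-- Every element of `Wzc a` is `m` times an element of `Wzc b`. -/
def Dvw (a : Ω) : Prop :=
  ∀ b : Ω, b ≠ 0 → (∃ c ∈ V, b = a * c) → ∀ m : ℕ, m ≠ 0 → ∀ z ∈ Wzc V M K a,
    ∃ z' ∈ Wzc V M K b, z - m • z' ∈ (Xf f).ratEq K Ω

/-- The cycles of degree `0` with sum `0`: `Wzc a` plus torsion. -/
def Tdw (a : Ω) : Prop :=
  ∀ z ∈ Tzc M K Ω, ∃ u ∈ Wzc V M K a, ∃ n : ℕ, n ≠ 0 ∧ n • (z - u) ∈ (Xf f).ratEq K Ω

/-- The torsion is in a finite set for the cycles supported on points of degree `≤ D`. -/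
def Tbw (a : Ω) (D : ℕ) : Prop :=
  ∃ E : Finset ((Xf f).pt Ω →₀ ℤ),
    (∀ e ∈ E, e ∈ Tzc M K Ω ∧ ∃ n : ℕ, n ≠ 0 ∧ n • e ∈ (Xf f).ratEq K Ω) ∧
    ∀ z ∈ Tzc M K Ω, (∀ P ∈ z.support, Dgb f K D P) →
      ∃ e ∈ E, ∃ u ∈ Wzc V M K a, z - e - u ∈ (Xf f).ratEq K Ω

/-- The structure of the cycles over `K`. -/
def Stw : Prop :=
  ∃ a₀ : Ω, a₀ ≠ 0 ∧ ∀ a : Ω, a ≠ 0 → (∃ c ∈ V, a = a₀ * c) →
    Fnz f V K a ∧ Dvw V M K a ∧ Tdw V M K a ∧ ∀ D : ℕ, Tbw V M K a D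

end defs

/-- **Every finite place.** -/
theorem tor_stw {F : Type} [Field F] [NumberField F] {N N' k k' d : ℕ} {ι ι' : Type}
    {f : ι → MvPolynomial (Fin N) F} {A : Gv F N' k' ι'} {M : Mf f A k} (hf : Nsg f d)
    (hi : (Ideal.span (Set.range fun i =>
      MvPolynomial.map (algebraMap F (AlgebraicClosure F)) (f i))).radical.IsPrime)
    (hA : A.Ok) (hM : M.Ok) (hb : M.Alb (AlgebraicClosure F)) (v : HeightOneSpectrum (𝓞 F))
    (V : ValuationSubring (AlgebraicClosure (FK F v)))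
    (hV : V.comap (algebraMap (FK F v) _) = CV.Iv v) : Stw V M (FK F v) := by
  obtain ⟨a₀, h0, h⟩ := tor_glob hf hi hA hM v hb hV
  refine ⟨a₀, h0, fun a ha hc => ?_⟩
  obtain ⟨h1, h2, h3, h4⟩ := h a ha hc
  refine ⟨h1, fun b hb hbc m hm z hz => ?_, fun z hz => ?_, fun D => ?_⟩
  · obtain ⟨z', g1, g2, g3, g4⟩ := h2 b hb hbc m hm z hz.1 hz.2.1 hz.2.2
    exact ⟨z', ⟨g1, g2, g3⟩, g4⟩
  · obtain ⟨u, g1, g2, g3, g4⟩ := h3 z hz.1 hz.2.1 hz.2.2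
    exact ⟨u, ⟨g1, g2, g3⟩, g4⟩
  · obtain ⟨E, hE, hE'⟩ := h4 D
    refine ⟨E, fun e he => ?_, fun z hz hD => ?_⟩
    · obtain ⟨g1, g2, g3, g4⟩ := hE e he
      exact ⟨⟨g1, g2, g3⟩, g4⟩
    · obtain ⟨e, he, u, g1, g2, g3, g4⟩ := hE' z hz.1 hz.2.1 hz.2.2 hD
      exact ⟨e, he, u, ⟨g1, g2, g3⟩, g4⟩

end GX
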