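import Pool.Agent.Lib.MP_f80667_ag.To.A

/-! The residue field is finite over the base field. -/

open ZC IntermediateField Polynomial

open scoped IntermediateField.algebraAdjoinAdjoin

namespace TO

variable {k E Ω : Type} [Field k] [Field E] [Field Ω] [Algebra k E] [Algebra k Ω]

/-- The values of polynomials at `x` in the valuation ring. -/
private noncomputable def a1_ev (w : Place k E Ω) (x : w.V) : k[X] →+* w.V :=
  eval₂RingHom (Fa.kV w) x

private theorem a1_coe (w : Place k E Ω) (x : w.V) (q : k[X]) :
    ((a1_ev w x q : w.V) : E) = aeval (x : E) q := by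
  have h := hom_eval₂ q (Fa.kV w) w.V.subtype x
  rw [Fa.subtype_comp_kV] at h
  exact h

private theorem a1_res (w : Place k E Ω) {x : w.V} (hx : w.res x = 0) (q : k[X]) :
    w.res (a1_ev w x q) = algebraMap k Ω (q.coeff 0) := by
  have h := hom_eval₂ q (Fa.kV w) w.res x
  rw [Fa.res_comp_kV, hx, eval₂_at_zero] at h
  exact h

/-- A relation with coefficients in `k[x]` is trivial. -/
private theorem a1_desc {w : Place k E Ω} {x : w.V} (hx0 : (x : E) ≠ 0) (hx : w.res x = 0)
    {ι : Type} [Fintype ι] {y : ι → w.V} (hy : LinearIndependent k fun i => w.res (y i))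
    {q : ι → k[X]} (h : ∑ i, aeval (x : E) (q i) * (y i : E) = 0) (i : ι) : q i = 0 := by
  have key : ∀ n : ℕ, ∀ i, X ^ n ∣ q i := by
    intro n
    induction n with
    | zero => exact fun i => by rw [pow_zero]; exact one_dvd _
    | succ n ih =>
      choose r hr using ih
      have h1 : ∑ i, aeval (x : E) (r i) * (y i : E) = 0 := by
        have h2 : (x : E) ^ n * ∑ i, aeval (x : E) (r i) * (y i : E) = 0 := by
          rw [Finset.mul_sum, ← h]
          refine Finset.sum_congr rfl fun i _ => ?_
          rw [hr i, map_mul, map_pow, aeval_X, mul_assoc]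
        exact (mul_eq_zero.1 h2).resolve_left (pow_ne_zero n hx0)
      have h3 : ∑ i, a1_ev w x (r i) * y i = 0 := by
        refine Subtype.ext ?_
        have e : ((∑ i, a1_ev w x (r i) * y i : w.V) : E) =
            ∑ i, ((a1_ev w x (r i) : w.V) : E) * (y i : E) := by
          rw [← ValuationSubring.subtype_apply, map_sum]
          exact Finset.sum_congr rfl fun i _ => rfl
        rw [e]
        simp only [a1_coe]
        exact h1
      have h4 := congrArg w.res h3
      rw [map_sum, map_zero] at h4
      have h5 : ∑ i, (r i).coeff 0 • w.res (y i) = 0 := by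
        rw [← h4]
        refine Finset.sum_congr rfl fun i _ => ?_
        rw [map_mul, a1_res w hx, Algebra.smul_def]
      have h6 := Fintype.linearIndependent_iff.1 hy _ h5
      intro i
      obtain ⟨s, hs⟩ := X_dvd_iff.2 (h6 i)
      refine ⟨s, ?_⟩
      rw [hr i, hs, pow_succ, mul_assoc]
  by_contra hne
  have h1 := natDegree_le_of_dvd (key ((q i).natDegree + 1) i) hne
  rw [natDegree_pow, natDegree_X, mul_one] at h1
  omega

/-- Proof: `Qb.exists_unif`: a uniformizer `π` (it is transcendental over `k`: otherwise `π⁻¹` is in all valuation rings); `E` is finite over `k(π)` (`Dz.finite_adjoin`), say of degree `n`. Elements `x_0, .., x_n` of `w.V` whose residues are linearly independent over `k` would be linearly independent over `k(π)`: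
in a relation with coefficients in `k[π]`, not all divisible by `π`, take residues. (Or: `Fa`, `Dz/Plc.lean`.) -/
theorem rf_fin [CharZero k] [IsAlgClosed Ω] (hE : IsFunField k E) (w : Place k E Ω) :
    FiniteDimensional k (rf w) := by
  obtain ⟨z, hz⟩ : ∃ z, z ∉ w.V := by
    by_contra h
    push Not at h
    exact w.ne_top (by ext x; simp [h x])
  have hz0 : z ≠ 0 := by
    rintro rfl
    exact hz w.V.zero_mem
  have htz : Transcendental k z⁻¹ := by
    intro halg
    have halg' : IsAlgebraic k z := by simpa using halg.inv
    obtain ⟨p, hp, hpy⟩ := halg'.isIntegral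
    apply hz
    refine Fa.mem_of_monic (p := p.map (Fa.kV w)) (hp.map _) ?_
    rw [eval₂_map, Fa.subtype_comp_kV]
    exact hpy
  have hzV : z⁻¹ ∈ w.V := (w.V.mem_or_inv_mem z).resolve_left hz
  have hx0 : (z⁻¹ : E) ≠ 0 := inv_ne_zero hz0
  have hres : w.res ⟨z⁻¹, hzV⟩ = 0 := by
    refine w.res_zero _ fun hu => hz ?_
    obtain ⟨u, hu⟩ := hu.exists_right_inv
    have h1 := congrArg (Subtype.val) hu
    have h2 : z⁻¹ * (u : E) = 1 := h1
    have h3 : (u : E) = z := by
      rw [inv_mul_eq_iff_eq_mul₀ hz0, mul_one] at h2
      exact h2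
    rw [← h3]
    exact u.2
  have hfd := Dz.finite_adjoin hE htz
  have hrk : Module.rank k (rf w) ≤ (Module.finrank (IntermediateField.adjoin k {z⁻¹}) E : ℕ) := by
    refine rank_le fun s hs => ?_
    have hlift : ∀ a : s, ∃ y : w.V, w.res y = ((a : rf w) : Ω) := fun a =>
      mem_rf.1 (a : rf w).2
    choose y hy using hlift
    have hs' : LinearIndependent k fun a : s => w.res (y a) := by
      have e : (fun a : s => w.res (y a)) = fun a : s => (rf w).val.toLinearMap (a : rf w) :=
        funext hy
      rw [e]
      exact hs.map' (rf w).val.toLinearMap (LinearMap.ker_eq_bot.2 (rf w).val.injective)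
    have hli : LinearIndependent (IntermediateField.adjoin k {z⁻¹}) fun a : s => (y a : E) := by
      refine (LinearIndependent.iff_fractionRing (Algebra.adjoin k {z⁻¹})
        (IntermediateField.adjoin k {z⁻¹})).1 (Fintype.linearIndependent_iff.2 fun g hg a => ?_)
      have h1 : ∀ a : s, ∃ q : k[X], aeval z⁻¹ q = (g a : E) := by
        intro a
        have h2 : ∀ c : E, c ∈ Algebra.adjoin k {z⁻¹} → ∃ q : k[X], aeval z⁻¹ q = c := by
          intro c hc
          rw [Algebra.adjoin_singleton_eq_range_aeval] at hc
          exact hc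
        exact h2 _ (g a).2
      choose q hq using h1
      have h3 : ∑ a, aeval z⁻¹ (q a) * (y a : E) = 0 := by
        rw [← hg]
        refine Finset.sum_congr rfl fun a _ => ?_
        rw [hq a]
        rfl
      have h4 := a1_desc (w := w) (x := ⟨z⁻¹, hzV⟩) hx0 hres hs' h3 a
      refine Subtype.ext ?_
      rw [← hq a, h4, map_zero]
      rfl
    have h2 := hli.fintype_card_le_finrank
    rwa [Fintype.card_coe] at h2
  exact Module.rank_lt_aleph0_iff.1 (hrk.trans_lt (Cardinal.natCast_lt_aleph0))

end TO
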