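import Pool.Agent.Lib.MP_f80667_ag.Qb.Disc
import Pool.Agent.Lib.MP_f80667_ag.Fa.Inv

/-!
The order of a function at a place.

* `od w g`: the order (`0` if there is none).
* `Rpl w`: the place `w` is rational (all residues are in `K`).
-/

open ZC Fa Qb

namespace GX

variable {K E Ω : Type} [Field K] [Field E] [Field Ω] [Algebra K E] [Algebra K Ω]

open Classical in
/-- The order of a function at a place. -/
noncomputable def od (w : Place K E Ω) (g : E) : ℤ :=
  if h : ∃ m, w.IsOrd g m then h.choose else 0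

/-- The place is rational. -/
def Rpl (w : Place K E Ω) : Prop :=
  ∀ (a : E) (h : a ∈ w.V), ∃ c : K, w.res ⟨a, h⟩ = algebraMap K Ω c

variable {w : Place K E Ω} {g g' : E}

/-- Proof: `Fa.Place.IsOrd.unique`. -/
theorem od_eq {m : ℤ} (h : w.IsOrd g m) : od w g = m := by
  have hex : ∃ m, w.IsOrd g m := ⟨m, h⟩
  unfold od
  rw [dif_pos hex]
  exact hex.choose_spec.unique rfl h

/-- Proof: the valuation ring and the order are the same. -/
theorem od_gal (σ : Ω ≃ₐ[K] Ω) (w : Place K E Ω) (g : E) : od (w.gal σ) g = od w g := by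
  by_cases h : ∃ m, w.IsOrd g m
  · obtain ⟨m, hm⟩ := h
    have h' : (w.gal σ).IsOrd g m := hm
    rw [od_eq hm, od_eq h']
  · have h' : ¬ ∃ m, (w.gal σ).IsOrd g m := h
    unfold od
    rw [dif_neg h, dif_neg h']

/-- Proof: every residue is in `K`, so it is fixed (`Place.ext'` of `Fa/Inv`). -/
theorem Rpl.gal (h : Rpl w) (σ : Ω ≃ₐ[K] Ω) : w.gal σ = w := by
  refine Place.ext' rfl fun x h1 h2 => ?_
  obtain ⟨c, hc⟩ := h x h2
  change σ (w.res ⟨x, h2⟩) = w.res ⟨x, h2⟩
  rw [hc, σ.commutes]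

variable [CharZero K] [IsAlgClosed Ω]

/-- Proof: `Qb.exists_unif`, `Qb.Unif.isOrd`. -/
theorem od_spec (hE : IsFunField K E) (w : Place K E Ω) (hg : g ≠ 0) : w.IsOrd g (od w g) := by
  obtain ⟨π, hπ⟩ := exists_unif hE w
  obtain ⟨m, hm⟩ := hπ.isOrd hE hg
  rw [od_eq hm]
  exact hm

/-- Proof: `Qb.ord_mul`. -/
theorem od_mul (hE : IsFunField K E) (w : Place K E Ω) (hg : g ≠ 0) (hg' : g' ≠ 0) :
    od w (g * g') = od w g + od w g' := by
  exact od_eq (ord_mul (od_spec hE w hg) (od_spec hE w hg'))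

/-- Proof: `Dz.ord_inv`. -/
theorem od_inv (hE : IsFunField K E) (w : Place K E Ω) (hg : g ≠ 0) : od w g⁻¹ = -od w g := by
  exact od_eq (Dz.ord_inv (od_spec hE w hg))

theorem od_pow (hE : IsFunField K E) (w : Place K E Ω) (hg : g ≠ 0) (n : ℕ) :
    od w (g ^ n) = n * od w g := by
  have h1 := od_eq (ord_zpow (od_spec hE w hg) (n : ℤ))
  rwa [zpow_natCast] at h1

/-- Proof: `g = u π ^ m`. -/
theorem od_nonneg (hE : IsFunField K E) (hg : g ≠ 0) : 0 ≤ od w g ↔ g ∈ w.V := by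
  obtain ⟨π, h1, h2, -, h4⟩ := Place.ord_aux (od_spec hE w hg)
  rw [← w.V.valuation_le_one_iff, h4]
  exact (zpow_le_one_iff_right_of_lt_one₀ (zero_lt_iff.2 h2) h1).symm

/-- Proof: `od_nonneg` for `g⁻¹`. -/
theorem od_pos (hE : IsFunField K E) (hg : g ≠ 0) : 0 < od w g ↔ g ∈ w.V.nonunits := by
  obtain ⟨π, h1, h2, -, h4⟩ := Place.ord_aux (od_spec hE w hg)
  rw [ValuationSubring.mem_nonunits_iff, h4]
  exact (zpow_lt_one_iff_right_of_lt_one₀ (zero_lt_iff.2 h2) h1).symm

/-- Proof: `Qb.exists_supp`. -/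
theorem od_fin (hE : IsFunField K E) (hg : g ≠ 0) :
    ∃ S : Finset (Place K E Ω), ∀ w, w ∉ S → od w g = 0 := by
  obtain ⟨S, hS⟩ := exists_supp (Ω := Ω) hE hg
  exact ⟨S, fun w hw => (od_spec hE w hg).eq_zero (hS w hw).1 (hS w hw).2⟩

/-- Proof: `Dz.sum_ord` for the places of `S` and `od_fin` (`w ∉ S` implies `g ∈ w.V`, `g⁻¹ ∈ w.V` by `od_nonneg`). -/
theorem od_sum (hE : IsFunField K E) (hg : g ≠ 0) {S : Finset (Place K E Ω)}
    (hS : ∀ w, w ∉ S → od w g = 0) : ∑ w ∈ S, od w g = 0 := by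
  refine Dz.sum_ord hE hg S (fun w => od w g) (fun w hw => ⟨?_, ?_⟩)
    fun w _ => od_spec hE w hg
  · exact (od_nonneg hE hg).1 (hS w hw).ge
  · refine (od_nonneg hE (inv_ne_zero hg)).1 ?_
    rw [od_inv hE w hg, hS w hw, neg_zero]

/-- The number of poles. Proof: `Dz.sum_zeros` for `s⁻¹`; `adjoin K {s⁻¹} = adjoin K {s}` (`qe_adj'` or `Pe/BqA`). -/
theorem od_poles (hE : IsFunField K E) {s : E} (hs : Transcendental K s)
    {S : Finset (Place K E Ω)} (hS : ∀ w, w ∉ S → od w s = 0) :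
    ∑ w ∈ S, max 0 (-od w s) = (Module.finrank (IntermediateField.adjoin K {s}) E : ℤ) := by
  classical
  have hs0 : s ≠ 0 := by
    rintro rfl
    exact hs isAlgebraic_zero
  have hti : Transcendental K s⁻¹ := fun h => hs (by
    have h1 := h.inv
    rwa [inv_inv] at h1)
  have h1 : ∀ w : Place K E Ω, s⁻¹ ∈ w.V.nonunits ↔ 0 < -od w s := fun w => by
    rw [← od_pos hE (inv_ne_zero hs0), od_inv hE w hs0]
  have h2 := Dz.sum_zeros hE hti (S.filter fun w => s⁻¹ ∈ w.V.nonunits) (fun w => od w s⁻¹)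
    (fun w => by
      rw [Finset.mem_filter]
      refine ⟨fun h => h.2, fun h => ⟨?_, h⟩⟩
      by_contra hw
      have h3 := (h1 w).1 h
      rw [hS w hw, neg_zero] at h3
      exact lt_irrefl _ h3) fun w _ => od_spec hE w (inv_ne_zero hs0)
  have h3 : IntermediateField.adjoin K {s⁻¹} = IntermediateField.adjoin K {s} := by
    apply le_antisymm
    · rw [IntermediateField.adjoin_simple_le_iff]
      exact inv_mem (IntermediateField.mem_adjoin_simple_self K s)
    · rw [IntermediateField.adjoin_simple_le_iff]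
      have h1 := inv_mem (IntermediateField.mem_adjoin_simple_self K s⁻¹)
      rwa [inv_inv] at h1
  rw [h3] at h2
  rw [← h2, Finset.sum_filter]
  refine Finset.sum_congr rfl fun w _ => ?_
  split_ifs with h4
  · rw [od_inv hE w hs0]
    exact max_eq_right ((h1 w).1 h4).le
  · exact max_eq_left (not_lt.1 fun h5 => h4 ((h1 w).2 h5))

end GX
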