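import Pool.Agent.Lib.MP_f80667_ag.To.Ba
import Pool.Agent.Lib.MP_f80667_ag.To.A
import Pool.Agent.Lib.MP_f80667_ag.Rs.Vb

/-!
The values of a point over a function field at the places; the push-forward of divisors.

* `vpl hf P w`: the value. `pshw hf P D S`: the push-forward of the divisor `D` with support in `S`.
-/

open ZC BE PE CV IntermediateField

namespace GX

variable {F : Type} [Field F] {N : ℕ} {ι : Type} {f : ι → MvPolynomial (Fin N) F}
  {K E Ω : Type} [Field K] [Field E] [Field Ω] [Algebra K E] [Algebra K Ω] [Algebra F K]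
  [Algebra F E] [Algebra F Ω] [IsScalarTower F K E] [IsScalarTower F K Ω]

/-- The value of a point at a place. -/
noncomputable def vpl (hf : Hm f) (P : (Xf f).pt E) (w : Place K E Ω) : (Xf f).pt Ω :=
  (RS.exists_red hf w P).choose

theorem vpl_red (hf : Hm f) (P : (Xf f).pt E) (w : Place K E Ω) : (Xf f).red w P (vpl hf P w) :=
  (RS.exists_red hf w P).choose_spec

/-- Proof: `RS.red_uniq`. -/
theorem vpl_eq (hf : Hm f) {P : (Xf f).pt E} {w : Place K E Ω} {y : (Xf f).pt Ω}
    (h : (Xf f).red w P y) : vpl hf P w = y := by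
  exact RS.red_uniq (vpl_red hf P w) h

/-- Proof: `BE.exists_above` (`Be/PlX`), `RS.red_cm`. -/
theorem vpl_val [IsAlgClosed Ω] (hf : Hm f) (P : (Xf f).pt E) (w : Place K E Ω) :
    (Xf f).IsVal w ((Xf f).map (IsScalarTower.toAlgHom F E (AlgebraicClosure E)) P)
      (vpl hf P w) := by
  obtain ⟨W, hW⟩ := BE.exists_above w
  exact ⟨W, hW.1, hW.2, RS.red_cm (W := W) (IsScalarTower.toAlgHom F E (AlgebraicClosure E)) hW
    (vpl_red hf P w)⟩

/-- Proof: `vpl_eq`; `RS.red_iff`: apply `σ` to the residues of the coordinates. -/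
theorem vpl_gal (hf : Hm f) (P : (Xf f).pt E) (w : Place K E Ω) (σ : Ω ≃ₐ[K] Ω) :
    vpl hf P (w.gal σ) = (Xf f).act σ (vpl hf P w) := by
  obtain ⟨x, z, hx, hz, h⟩ := RS.red_iff.1 (vpl_red hf P w)
  refine vpl_eq hf (RS.red_iff.2 ⟨x, fun i => σ (z i), hx, co_act σ hz, fun i => ?_⟩)
  obtain ⟨h1, h2⟩ := h i
  exact ⟨h1, congrArg σ h2⟩

/-- The push-forward of a divisor. -/
noncomputable def pshw (hf : Hm f) (P : (Xf f).pt E) (D : Place K E Ω → ℤ)
    (S : Finset (Place K E Ω)) : (Xf f).pt Ω →₀ ℤ :=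
  ∑ w ∈ S, Finsupp.single (vpl hf P w) (D w)

variable {hf : Hm f} {P : (Xf f).pt E} {D D' : Place K E Ω → ℤ} {S : Finset (Place K E Ω)}

theorem pshw_add : pshw hf P (fun w => D w + D' w) S = pshw hf P D S + pshw hf P D' S := by
  rw [pshw, pshw, pshw, ← Finset.sum_add_distrib]
  exact Finset.sum_congr rfl fun w _ => Finsupp.single_add _ _ _

theorem pshw_neg : pshw hf P (fun w => -D w) S = -pshw hf P D S := by
  rw [pshw, pshw, ← Finset.sum_neg_distrib]
  exact Finset.sum_congr rfl fun w _ => Finsupp.single_neg _ _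

/-- The support does not matter. Proof: both are the sum over the union. -/
theorem pshw_eq {S' : Finset (Place K E Ω)} (hS : ∀ w, w ∉ S → D w = 0)
    (hS' : ∀ w, w ∉ S' → D w = 0) : pshw hf P D S = pshw hf P D S' := by
  classical
  rw [pshw, pshw, Finset.sum_subset (Finset.subset_union_left : S ⊆ S ∪ S') fun w _ h => by
    rw [hS w h, Finsupp.single_zero], Finset.sum_subset
    (Finset.subset_union_right : S' ⊆ S ∪ S') fun w _ h => by
    rw [hS' w h, Finsupp.single_zero]]

theorem pshw_nonneg (h : ∀ w ∈ S, 0 ≤ D w) (Q : (Xf f).pt Ω) : 0 ≤ pshw hf P D S Q := by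
  classical
  rw [pshw, Finsupp.finsetSum_apply]
  refine Finset.sum_nonneg fun w hw => ?_
  rw [Finsupp.single_apply]
  split_ifs
  · exact h w hw
  · exact le_rfl

theorem pshw_deg : (Xf f).deg Ω (pshw hf P D S) = ∑ w ∈ S, D w := by
  rw [pshw, map_sum]
  refine Finset.sum_congr rfl fun w _ => ?_
  rw [Vr.deg, Finsupp.liftAddHom_apply_single]
  rfl

/-- Proof: the generators of `ratEq` with `x = map P` (`Rat`: the coordinates are in `E`), `m = od`, `y = vpl` (`vpl_val`). -/
theorem pshw_rat [CharZero K] [IsAlgClosed Ω] (hE : IsFunField K E) {g : E} (hg : g ≠ 0)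
    (hS : ∀ w, w ∉ S → od w g = 0) : pshw hf P (fun w => od w g) S ∈ (Xf f).ratEq K Ω := by
  refine AddSubgroup.subset_closure ⟨E, inferInstance, inferInstance, inferInstance,
    inferInstance, hE, g, (Xf f).map (IsScalarTower.toAlgHom F E (AlgebraicClosure E)) P, hg,
    fun σ => ?_, S, fun w => od w g, vpl hf P, fun w hw => ⟨?_, ?_⟩,
    fun w _ => ⟨od_spec hE w hg, vpl_val hf P w⟩, rfl⟩
  · obtain ⟨x, hx⟩ := exists_co P
    have h1 : ∀ {L : Type} [Field L] [Algebra F L] (φ : E →ₐ[F] L),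
        Co ((Xf f).map φ P) fun i => φ (x i) := by
      intro L _ _ φ
      obtain ⟨Q, rfl, rfl⟩ := hx
      exact ⟨Q.mp φ, rfl, rfl⟩
    have h2 := h1 (IsScalarTower.toAlgHom F E (AlgebraicClosure E))
    have h3 := co_act σ h2
    have e : (fun i => σ ((IsScalarTower.toAlgHom F E (AlgebraicClosure E)) (x i))) =
        fun i => (IsScalarTower.toAlgHom F E (AlgebraicClosure E)) (x i) :=
      funext fun i => σ.commutes (x i)
    rw [e] at h3
    exact co_eq h3 h2
  · exact (od_nonneg hE hg).1 (hS w hw).ge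
  · refine (od_nonneg hE (inv_ne_zero hg)).1 ?_
    rw [od_inv hE w hg, hS w hw, neg_zero]

/-- Proof: replace `S` by `S ∪ galE σ '' S` (`pshw_eq`; `D = 0` outside `S`), then the sum over the places is permuted: `vpl_gal`, `hD`. -/
theorem pshw_cyc (hD : ∀ (σ : Ω ≃ₐ[K] Ω) (w : Place K E Ω), D (w.gal σ) = D w)
    (hS : ∀ w, w ∉ S → D w = 0) : pshw hf P D S ∈ (Xf f).cyc K Ω := by
  classical
  intro σ
  have h1 : Finsupp.mapDomain ((Xf f).act σ) (pshw hf P D S) =
      pshw hf P D (S.map (ZC.Place.galE σ).toEmbedding) := by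
    rw [pshw, pshw, Finset.sum_map]
    refine (map_sum (Finsupp.mapDomain.addMonoidHom ((Xf f).act σ)) _ _).trans
      (Finset.sum_congr rfl fun w _ => ?_)
    change Finsupp.mapDomain ((Xf f).act σ) (Finsupp.single (vpl hf P w) (D w)) =
      Finsupp.single (vpl hf P (w.gal σ)) (D (w.gal σ))
    rw [Finsupp.mapDomain_single, vpl_gal hf P w σ, hD σ w]
  rw [h1]
  refine pshw_eq (fun w hw => ?_) hS
  by_contra h2
  refine hw (Finset.mem_map.2 ⟨(ZC.Place.galE σ).symm w, ?_, ?_⟩)
  · by_contra h3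
    have h4 := hS _ h3
    have h5 := hD σ ((ZC.Place.galE σ).symm w)
    have h6 : ((ZC.Place.galE σ).symm w).gal σ = w := (ZC.Place.galE σ).apply_symm_apply w
    rw [h6, h4] at h5
    exact h2 h5
  · exact (ZC.Place.galE σ).apply_symm_apply w

end GX
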