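import Pool.Agent.Lib.MP_f80667_ag.To.Ba

/-!
The inequality of Riemann.

* `Rbs Ω s n s₀ e`: `e` is a basis of `E` over `K(s)`, the poles of `e i` are over the poles of `s`, of order at most `s₀` times the
  order of `s`.
-/

open ZC Fa Qb Polynomial

namespace GX

variable {K E Ω : Type} [Field K] [Field E] [Field Ω] [Algebra K E] [Algebra K Ω]

variable (Ω) in
/-- A basis with bounded poles. -/
structure Rbs (s : E) (n s₀ : ℕ) (e : Fin n → E) : Prop where
  tr : Transcendental K s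
  rk : Module.finrank (IntermediateField.adjoin K {s}) E = n
  ind : ∀ h : Fin n → K[X], ∑ i, aeval s (h i) * e i = 0 → h = 0
  fin : ∀ w : Place K E Ω, s ∈ w.V → ∀ i, e i ∈ w.V
  inf : ∀ w : Place K E Ω, s ∉ w.V → ∀ i, e i * s⁻¹ ^ s₀ ∈ w.V

variable [CharZero K] [IsAlgClosed Ω] {s : E} {n s₀ : ℕ} {e : Fin n → E}

omit [CharZero K] [IsAlgClosed Ω] in
/-- The functions of `W` which are `0` at the place. -/
private theorem bc_ker {w : Place K E Ω} (hw : Rpl w) (W : Submodule K E)
    (hfd : FiniteDimensional K W) (hW : ∀ h ∈ W, h ∈ w.V) :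
    ∃ W' : Submodule K E, W' ≤ W ∧ (∀ h ∈ W', h ∈ w.V.nonunits) ∧ FiniteDimensional K W' ∧
      Module.finrank K W ≤ Module.finrank K W' + 1 := by
  choose c hc using fun h : W => hw h.1 (hW h.1 h.2)
  have hinj : Function.Injective (algebraMap K Ω) := (algebraMap K Ω).injective
  let l : W →ₗ[K] K :=
    { toFun := c
      map_add' := fun a b => by
        apply hinj
        rw [map_add, ← hc, ← hc, ← hc, ← map_add]
        rfl
      map_smul' := fun r a => by
        apply hinj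
        rw [RingHom.id_apply, smul_eq_mul, map_mul, ← hc, ← hc, ← w.res_k, ← map_mul]
        congr 1
        apply Subtype.ext
        change r • a.1 = algebraMap K E r * a.1
        rw [Algebra.smul_def] }
  refine ⟨(LinearMap.ker l).map W.subtype, ?_, ?_, inferInstance, ?_⟩
  · rintro _ ⟨a, -, rfl⟩
    exact a.2
  · rintro _ ⟨a, ha, rfl⟩
    have h1 : c a = 0 := ha
    have h2 := hc a
    rw [h1, map_zero] at h2
    exact (res_eq_zero_iff w _).1 h2
  · have h1 := LinearMap.finrank_range_add_finrank_ker l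
    have h2 : Module.finrank K (LinearMap.range l) ≤ 1 := by
      have h3 := Submodule.finrank_le (LinearMap.range l)
      rw [Module.finrank_self] at h3
      exact h3
    have h3 : Module.finrank K ((LinearMap.ker l).map W.subtype) =
        Module.finrank K (LinearMap.ker l) :=
      LinearEquiv.finrank_eq (Submodule.equivMapOfInjective W.subtype
        W.injective_subtype (LinearMap.ker l)).symm
    omega

/-- **Zeros of high order.** Proof: induction on `M` for all `W`. Step: `λ : W → K` with `w.res h = algebraMap K Ω (λ h)` (`hw`) is `K`-linear (`w.res_k`); its kernel `W'` has dimension `≥ finrank W - 1 > M`; `π` a uniformizer (`Qb.exists_unif`), `W'' = π⁻¹ W'` (`Submodule.map` of the multiplication by `π⁻¹`, injective)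
is in `w.V` (`res = 0` iff in the maximal ideal, `Fa.res_eq_zero_iff`); the induction hypothesis for `W''`. -/
theorem exists_jet (hE : IsFunField K E) {w : Place K E Ω} (hw : Rpl w) (M : ℕ) :
    ∀ (W : Submodule K E), FiniteDimensional K W → (∀ h ∈ W, h ∈ w.V) →
      M < Module.finrank K W → ∃ h ∈ W, h ≠ 0 ∧ (M : ℤ) ≤ od w h := by
  obtain ⟨π, hπ⟩ := exists_unif hE w
  induction M with
  | zero =>
    intro W _ hW h0
    have hne : W ≠ ⊥ := by
      rintro rfl
      rw [finrank_bot] at h0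
      exact lt_irrefl _ h0
    obtain ⟨h, hh, hh0⟩ := Submodule.exists_mem_ne_zero_of_ne_bot hne
    exact ⟨h, hh, hh0, by rw [Nat.cast_zero]; exact (od_nonneg hE hh0).2 (hW h hh)⟩
  | succ M ih =>
    intro W hfd hW hM
    obtain ⟨W', h1, h2, h3, h4⟩ := bc_ker hw W hfd hW
    obtain ⟨x, hx, hx0, hxM⟩ := ih (W'.map (LinearMap.mulLeft K π⁻¹)) inferInstance
      (fun y hy => by
        obtain ⟨h, hh, rfl⟩ := Submodule.mem_map.1 hy
        rw [LinearMap.mulLeft_apply, mul_comm, ← div_eq_mul_inv]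
        exact (hπ.2 h).1 (h2 h hh))
      (by
        have h5 : Function.Injective (LinearMap.mulLeft K (π⁻¹ : E)) := fun a b hab =>
          mul_left_cancel₀ (inv_ne_zero hπ.1) hab
        have h6 : Module.finrank K (W'.map (LinearMap.mulLeft K (π⁻¹ : E))) =
            Module.finrank K W' :=
          LinearEquiv.finrank_eq (Submodule.equivMapOfInjective _ h5 W').symm
        omega)
    obtain ⟨h, hh, rfl⟩ := Submodule.mem_map.1 hx
    rw [LinearMap.mulLeft_apply] at hx0 hxM
    have hh0 : h ≠ 0 := fun h0 => hx0 (by rw [h0, mul_zero])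
    refine ⟨h, h1 hh, hh0, ?_⟩
    have h5 : h = π * (π⁻¹ * h) := by
      rw [← mul_assoc, mul_inv_cancel₀ hπ.1, one_mul]
    rw [h5, od_mul hE w hπ.1 hx0, od_eq (ord_unif hπ)]
    push_cast
    omega

/-- The functions `∑ h_i (s) e_i` with `deg h_i ≤ t`. -/
noncomputable def Lt' (s : E) (e : Fin n → E) (t : ℕ) : Submodule K E :=
  Submodule.span K (Set.range fun p : Fin n × Fin (t + 1) => s ^ (p.2 : ℕ) * e p.1)

/-- Proof: the generators are linearly independent (`ind`). -/
theorem Rbs.dim (h : Rbs (K := K) Ω s n s₀ e) (t : ℕ) :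
    FiniteDimensional K (Lt' (K := K) s e t) ∧
      Module.finrank K (Lt' (K := K) s e t) = n * (t + 1) := by
  refine ⟨FiniteDimensional.span_of_finite K (Set.finite_range _), ?_⟩
  have hli : LinearIndependent K (fun p : Fin n × Fin (t + 1) => s ^ (p.2 : ℕ) * e p.1) := by
    rw [Fintype.linearIndependent_iff]
    intro g hg p
    have h1 : (fun i => ∑ j : Fin (t + 1), C (g (i, j)) * X ^ (j : ℕ)) = (0 : Fin n → K[X]) := by
      refine h.ind _ ?_
      rw [← hg, Fintype.sum_prod_type]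
      refine Finset.sum_congr rfl fun i _ => ?_
      rw [map_sum, Finset.sum_mul]
      refine Finset.sum_congr rfl fun j _ => ?_
      rw [map_mul, map_pow, aeval_C, aeval_X, Algebra.smul_def]
      ring
    have h2 := congrArg (fun q : K[X] => q.coeff (p.2 : ℕ)) (congrFun h1 p.1)
    simp only [Pi.zero_apply, coeff_zero, finsetSum_coeff, coeff_C_mul_X_pow] at h2
    rw [Finset.sum_eq_single p.2] at h2
    · rw [if_pos rfl] at h2
      exact h2
    · intro j _ hj
      exact if_neg fun h3 => hj (Fin.ext h3.symm)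
    · intro h3
      exact absurd (Finset.mem_univ _) h3
  unfold Lt'
  rw [finrank_span_eq_card hli, Fintype.card_prod, Fintype.card_fin, Fintype.card_fin]

/-- Proof: `Submodule.span_induction`: at a place with `s ∈ w.V` all is in `w.V`; at the other places `s ^ j e_i = (s ^ (t + s₀)) * (unit or small)`: `e_i s⁻¹ ^ s₀ ∈ w.V` and `s⁻¹ ∈ w.V`, so `h * s⁻¹ ^ (t + s₀) ∈ w.V`; `od_nonneg`. -/
theorem Rbs.mem (hE : IsFunField K E) (h : Rbs (K := K) Ω s n s₀ e) {t : ℕ} {x : E}
    (hx : x ∈ Lt' (K := K) s e t) (hx0 : x ≠ 0) (w : Place K E Ω) :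
    (s ∈ w.V → x ∈ w.V) ∧ 0 ≤ od w x + (t + s₀ : ℕ) * max 0 (-od w s) := by
  have hs0 : s ≠ 0 := by
    rintro rfl
    exact h.tr isAlgebraic_zero
  have hsm : ∀ (a : K) {y : E}, y ∈ w.V → a • y ∈ w.V := by
    intro a y hy
    rw [Algebra.smul_def]
    exact w.V.mul_mem _ _ (w.mem a) hy
  have h1 : ∀ x ∈ Lt' (K := K) s e t, s ∈ w.V → x ∈ w.V := by
    intro x hx hs
    unfold Lt' at hx
    induction hx using Submodule.span_induction with
    | mem x hx =>
      obtain ⟨p, rfl⟩ := hx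
      exact w.V.mul_mem _ _ (w.V.toSubring.pow_mem hs _) (h.fin w hs p.1)
    | zero => exact w.V.zero_mem
    | add x y _ _ hx hy => exact w.V.add_mem _ _ hx hy
    | smul a x _ hx => exact hsm a hx
  have h2 : ∀ x ∈ Lt' (K := K) s e t, s ∉ w.V → x * s⁻¹ ^ (t + s₀) ∈ w.V := by
    intro x hx hs
    have hs' : s⁻¹ ∈ w.V := (w.V.mem_or_inv_mem s).resolve_left hs
    unfold Lt' at hx
    induction hx using Submodule.span_induction with
    | mem x hx =>
      obtain ⟨p, rfl⟩ := hx
      obtain ⟨l, hl⟩ : ∃ l, t = (p.2 : ℕ) + l :=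
        Nat.exists_eq_add_of_le (Nat.lt_succ_iff.1 p.2.2)
      have h3 : s ^ (p.2 : ℕ) * e p.1 * s⁻¹ ^ (t + s₀) = s⁻¹ ^ l * (e p.1 * s⁻¹ ^ s₀) := by
        have h5 : t + s₀ = (p.2 : ℕ) + l + s₀ := by omega
        rw [h5, pow_add, pow_add]
        have h4 : s ^ (p.2 : ℕ) * s⁻¹ ^ (p.2 : ℕ) = 1 := by
          rw [← mul_pow, mul_inv_cancel₀ hs0, one_pow]
        linear_combination (e p.1 * s⁻¹ ^ l * s⁻¹ ^ s₀) * h4
      rw [h3]
      exact w.V.mul_mem _ _ (w.V.toSubring.pow_mem hs' _) (h.inf w hs p.1)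
    | zero =>
      rw [zero_mul]
      exact w.V.zero_mem
    | add x y _ _ hx hy =>
      rw [add_mul]
      exact w.V.add_mem _ _ hx hy
    | smul a x _ hx =>
      rw [smul_mul_assoc]
      exact hsm a hx
  refine ⟨h1 x hx, ?_⟩
  by_cases hs : s ∈ w.V
  · exact add_nonneg ((od_nonneg hE hx0).2 (h1 x hx hs))
      (mul_nonneg (Nat.cast_nonneg _) (le_max_left _ _))
  · have h3 := (od_nonneg hE (mul_ne_zero hx0 (pow_ne_zero _ (inv_ne_zero hs0)))).2 (h2 x hx hs)
    rw [od_mul hE w hx0 (pow_ne_zero _ (inv_ne_zero hs0)), od_pow hE w (inv_ne_zero hs0),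
      od_inv hE w hs0] at h3
    refine h3.trans ?_
    have h4 : ((t + s₀ : ℕ) : ℤ) * -od w s ≤ ((t + s₀ : ℕ) : ℤ) * max 0 (-od w s) :=
      mul_le_mul_of_nonneg_left (le_max_right _ _) (Nat.cast_nonneg _)
    omega

/-- **Riemann.** Proof: `exists_jet` for `Lt'` with `M = n (t + 1) - 1`, `Rbs.mem`. -/
theorem Rbs.rr (hE : IsFunField K E) (h : Rbs (K := K) Ω s n s₀ e) (hn : n ≠ 0)
    {w : Place K E Ω} (hw : Rpl w) (hs : s ∈ w.V) (t : ℕ) :
    ∃ x : E, x ≠ 0 ∧ ((n * (t + 1) - 1 : ℕ) : ℤ) ≤ od w x ∧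
      ∀ v : Place K E Ω, 0 ≤ od v x + (t + s₀ : ℕ) * max 0 (-od v s) := by
  obtain ⟨h1, h2⟩ := h.dim t
  have hpos : 0 < n * (t + 1) := Nat.mul_pos (Nat.pos_of_ne_zero hn) t.succ_pos
  have h3 : ∀ x ∈ Lt' (K := K) s e t, x ∈ w.V := by
    intro x hx
    by_cases hx0 : x = 0
    · rw [hx0]
      exact w.V.zero_mem
    · exact (h.mem hE hx hx0 w).1 hs
  obtain ⟨x, hx, hx0, hx1⟩ := exists_jet hE hw (n * (t + 1) - 1) _ h1 h3 (by
    rw [h2]
    omega)
  exact ⟨x, hx0, hx1, fun v => (h.mem hE hx hx0 v).2⟩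

end GX
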