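import Pool.Agent.Lib.MP_f80667_ag.To.Bb
import Pool.Agent.Lib.MP_f80667_ag.To.Bc

/-! Multiples of a rational place are equivalent to effective cycles of bounded degree. -/

open ZC BE PE CV IntermediateField

namespace GX

variable {F : Type} [Field F] {N : ℕ} {ι : Type} {f : ι → MvPolynomial (Fin N) F}
  {K E Ω : Type} [Field K] [CharZero K] [Field E] [Field Ω] [Algebra K E] [Algebra K Ω]
  [Algebra F K] [Algebra F E] [Algebra F Ω] [IsScalarTower F K E] [IsScalarTower F K Ω]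
  [IsAlgClosed Ω] {s : E} {n s₀ : ℕ} {e : Fin n → E}

open Classical in
/-- **The effective cycle.** `c = n (s₀ - 1) + 1`, `M t = n (t + 1) - 1`, `Z t = (t + s₀) pshw (max 0 (-od s))` with a fixed finite set `T` of places containing all zeros and poles of `s` (`od_fin`). Proof: `x` from `Rbs.rr`; `S` = `T`, `w` and the places of `od_fin` for `x`;
`D v = od v x + (t + s₀) max 0 (-od v s) - (if v = w then M t else 0)` is `≥ 0` (at `w`: `s ∈ w.V`, so `max 0 (-od w s) = 0`, and `M t ≤ od w x`), invariant (`od_gal`, `Rpl.gal`: `v.gal σ = w` iff `v = w`), of degree `0 + (t + s₀) n - M t` (`od_sum`, `od_poles`). The cycle is `pshw D S`: `pshw_cyc`, `pshw_nonneg`, `pshw_deg`, `pshw_add`, `pshw_eq`, `pshw_rat`. -/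
theorem Rbs.eff (hE : IsFunField K E) (h : Rbs (K := K) Ω s n s₀ e) (hn : n ≠ 0) (h0 : s₀ ≠ 0)
    (hf : Hm f) (P : (Xf f).pt E) :
    ∃ (c : ℕ) (M : ℕ → ℕ) (Z : ℕ → (Xf f).pt Ω →₀ ℤ), StrictMono M ∧
      ∀ w : Place K E Ω, Rpl w → s ∈ w.V → ∀ t, ∃ x ∈ (Xf f).cyc K Ω,
        (∀ Q, 0 ≤ x Q) ∧ (Xf f).deg Ω x = c ∧
          M t • (Finsupp.single (vpl hf P w) 1 : (Xf f).pt Ω →₀ ℤ) + x - Z t ∈
            (Xf f).ratEq K Ω := by
  have hs0 : s ≠ 0 := by
    rintro rfl
    exact h.tr isAlgebraic_zero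
  obtain ⟨T, hT⟩ := od_fin (K := K) (Ω := Ω) hE hs0
  refine ⟨n * (s₀ - 1) + 1, fun t => n * (t + 1) - 1,
    fun t => pshw hf P (fun v => ((t + s₀ : ℕ) : ℤ) * max 0 (-od v s)) T, ?_, ?_⟩
  · intro t t' htt
    have h1 : n * (t + 1) < n * (t' + 1) :=
      Nat.mul_lt_mul_of_pos_left (by omega) (Nat.pos_of_ne_zero hn)
    have h2 : 0 < n * (t + 1) := Nat.mul_pos (Nat.pos_of_ne_zero hn) (by omega)
    change n * (t + 1) - 1 < n * (t' + 1) - 1
    omega
  intro w hw hsw t
  obtain ⟨x, hx0, hxw, hxv⟩ := h.rr hE hn hw hsw t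
  obtain ⟨Tx, hTx⟩ := od_fin (K := K) (Ω := Ω) hE hx0
  set M : ℕ := n * (t + 1) - 1 with hM
  have hMt : M + 1 = n * (t + 1) := by
    have h2 : 0 < n * (t + 1) := Nat.mul_pos (Nat.pos_of_ne_zero hn) (by omega)
    omega
  let S : Finset (Place K E Ω) := (T ∪ Tx) ∪ {w}
  let Dz : Place K E Ω → ℤ := fun v => ((t + s₀ : ℕ) : ℤ) * max 0 (-od v s)
  let Dw : Place K E Ω → ℤ := fun v => if v = w then (M : ℤ) else 0
  let D : Place K E Ω → ℤ := fun v => (od v x + Dz v) + -Dw v
  have hwS : w ∈ S := Finset.mem_union_right _ (Finset.mem_singleton_self w)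
  have hSx : ∀ v, v ∉ S → od v x = 0 := fun v hv => hTx v fun h1 =>
    hv (Finset.mem_union_left _ (Finset.mem_union_right _ h1))
  have hSs : ∀ v, v ∉ S → od v s = 0 := fun v hv => hT v fun h1 =>
    hv (Finset.mem_union_left _ (Finset.mem_union_left _ h1))
  have hSz : ∀ v, v ∉ S → Dz v = 0 := fun v hv => by
    change ((t + s₀ : ℕ) : ℤ) * max 0 (-od v s) = 0
    rw [hSs v hv, neg_zero, max_self, mul_zero]
  have hTz : ∀ v, v ∉ T → Dz v = 0 := fun v hv => by
    change ((t + s₀ : ℕ) : ℤ) * max 0 (-od v s) = 0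
    rw [hT v hv, neg_zero, max_self, mul_zero]
  have hSw : ∀ v, v ∉ S → Dw v = 0 := fun v hv => by
    change (if v = w then (M : ℤ) else 0) = 0
    rw [if_neg]
    rintro rfl
    exact hv hwS
  have hzw : max 0 (-od w s) = 0 :=
    max_eq_left (by have := (od_nonneg hE hs0).2 hsw; omega)
  have h1 : pshw hf P Dw S = M • (Finsupp.single (vpl hf P w) 1 : (Xf f).pt Ω →₀ ℤ) := by
    rw [pshw, Finset.sum_eq_single w]
    · change Finsupp.single (vpl hf P w) (if w = w then (M : ℤ) else 0) = _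
      rw [if_pos rfl, Finsupp.smul_single, nsmul_eq_mul, mul_one]
    · intro v _ hv
      change Finsupp.single (vpl hf P v) (if v = w then (M : ℤ) else 0) = _
      rw [if_neg hv, Finsupp.single_zero]
    · exact fun h2 => absurd hwS h2
  have h2 : pshw hf P D S = pshw hf P (fun v => od v x) S + pshw hf P Dz S - pshw hf P Dw S := by
    rw [sub_eq_add_neg, ← pshw_neg, ← pshw_add, ← pshw_add]
  refine ⟨pshw hf P D S, ?_, ?_, ?_, ?_⟩
  · refine pshw_cyc (fun σ v => ?_) (fun v hv => ?_)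
    · have h3 : v.gal σ = w ↔ v = w := by
        constructor
        · intro h4
          refine (Place.galE σ).injective ?_
          change v.gal σ = w.gal σ
          rw [h4, hw.gal]
        · rintro rfl
          exact hw.gal σ
      change (od (v.gal σ) x + ((t + s₀ : ℕ) : ℤ) * max 0 (-od (v.gal σ) s)) +
        -(if v.gal σ = w then (M : ℤ) else 0) = (od v x + ((t + s₀ : ℕ) : ℤ) * max 0 (-od v s)) +
        -(if v = w then (M : ℤ) else 0)
      rw [od_gal, od_gal]
      simp only [h3]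
    · change (od v x + Dz v) + -Dw v = 0
      rw [hSx v hv, hSz v hv, hSw v hv, neg_zero, add_zero, add_zero]
  · refine pshw_nonneg fun v _ => ?_
    change 0 ≤ (od v x + ((t + s₀ : ℕ) : ℤ) * max 0 (-od v s)) +
      -(if v = w then (M : ℤ) else 0)
    by_cases hv : v = w
    · rw [if_pos hv, hv, hzw, mul_zero]
      omega
    · rw [if_neg hv, neg_zero, add_zero]
      exact hxv v
  · rw [pshw_deg]
    change ∑ v ∈ S, ((od v x + ((t + s₀ : ℕ) : ℤ) * max 0 (-od v s)) +
      -(if v = w then (M : ℤ) else 0)) = _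
    rw [Finset.sum_add_distrib, Finset.sum_add_distrib, ← Finset.mul_sum, Finset.sum_neg_distrib,
      Finset.sum_ite_eq' S w, if_pos hwS, od_sum hE hx0 hSx, od_poles hE h.tr hSs, h.rk]
    obtain ⟨s₁, rfl⟩ := Nat.exists_eq_succ_of_ne_zero h0
    have h3 : (M : ℤ) + 1 = n * (t + 1) := by exact_mod_cast hMt
    have h4 : (s₁.succ - 1 : ℕ) = s₁ := rfl
    rw [h4]
    push_cast
    linear_combination -h3
  · have h3 : M • (Finsupp.single (vpl hf P w) 1 : (Xf f).pt Ω →₀ ℤ) + pshw hf P D S -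
        pshw hf P Dz T = pshw hf P (fun v => od v x) S := by
      rw [h2, h1, pshw_eq hTz hSz]
      abel
    change M • (Finsupp.single (vpl hf P w) 1 : (Xf f).pt Ω →₀ ℤ) + pshw hf P D S -
        pshw hf P Dz T ∈ _
    rw [h3]
    exact pshw_rat hE hx0 hSx

end GX
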