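import Pool.Agent.Lib.MP_f80667_ag.To.Bd
import Pool.Agent.Lib.MP_f80667_ag.To.Pb

/-! The values of a point over a function field at two rational places. -/

open ZC BE PE CV IntermediateField

namespace GX

variable {F : Type} [Field F] {N : ℕ} {ι : Type} {f : ι → MvPolynomial (Fin N) F}
  {K E Ω : Type} [Field K] [CharZero K] [Field E] [Field Ω] [Algebra K E] [Algebra K Ω]
  [Algebra F K] [Algebra F E] [Algebra F Ω] [IsScalarTower F K E] [IsScalarTower F K Ω]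
  [IsAlgClosure K Ω] {s : E} {n s₀ : ℕ} {e : Fin n → E} {L : Ld K Ω} {a : Ω}

/-- **Two rational places.** Proof: `Rbs.eff`: `M t • [y] + x t - Z t`, `M t • [y'] + x' t - Z t` in `ratEq`; the pigeonhole principle (`To/Pb`) for the sequences `x`, `x'`: `t < t'` with `Zrt (x t' - x t)`, `Zrt (x' t' - x' t)`; `n = M t' - M t`, `u = (x t' - x t) - (x' t' - x' t)`:
`n ([y'] - [y]) - u` is in `ratEq`. -/
theorem Rbs.tor (hE : IsFunField K E) (h : Rbs (K := K) Ω s n s₀ e) (hn : n ≠ 0) (h0 : s₀ ≠ 0)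
    (hf : Hm f) (P : (Xf f).pt E) (ha : a ≠ 0) (ha1 : L.nm a < 1) {w w' : Place K E Ω}
    (hw : Rpl w) (hw' : Rpl w') (hs : s ∈ w.V) (hs' : s ∈ w'.V) :
    Tor f L (L.nm a) (Finsupp.single (vpl hf P w') 1 - Finsupp.single (vpl hf P w) 1) := by
  have : IsAlgClosed Ω := IsAlgClosure.isAlgClosed K
  obtain ⟨c, M, Z, hM, hZ⟩ := Rbs.eff hE h hn h0 hf P
  choose x hx using hZ w hw hs
  choose x' hx' using hZ w' hw' hs'
  have hpos : 0 < L.nm a := lt_of_le_of_ne (L.nonneg a) fun h1 => ha ((L.zero_iff a).1 h1.symm)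
  obtain ⟨t, t', htt, h1, h2⟩ := pigeon₂ L hf hpos ha1 c x x' (fun n => (hx n).1)
    (fun n => (hx' n).1) (fun n => (hx n).2.1) (fun n => (hx' n).2.1)
    (fun n => (hx n).2.2.1.le) (fun n => (hx' n).2.2.1.le)
  obtain ⟨d, hd, hm⟩ : ∃ d : ℕ, d ≠ 0 ∧ M t' = M t + d := by
    obtain ⟨m, hm⟩ := Nat.exists_eq_add_of_lt (hM htt)
    exact ⟨m + 1, Nat.succ_ne_zero m, by rw [hm, add_assoc]⟩
  have hR := sub_mem (sub_mem (hx' t').2.2.2 (hx' t).2.2.2)
    (sub_mem (hx t').2.2.2 (hx t).2.2.2)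
  refine ⟨d, hd, (x t' - x t) + (-1 : ℤ) • (x' t' - x' t), ?_,
    h1.add (h2.zsmul (-1)), ?_⟩
  · exact add_mem (sub_mem (hx t').1 (hx t).1) (zsmul_mem (sub_mem (hx' t').1 (hx' t).1) _)
  · simp only [hm, add_nsmul] at hR
    rw [neg_one_zsmul, nsmul_sub]
    refine (congrArg (· ∈ (Xf f).ratEq K Ω) ?_).mp hR
    abel

end GX
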