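import Pool.Agent.Lib.MP_f80667_ag.To.Bc
import Pool.Agent.Lib.MP_f80667_ag.Gm.GpI

/-!
The function field of a plane curve `g(z, Y) = 0` with `g` prime, monic in `Y`.

* `cv_rbs`: the powers of `Y` are a basis with bounded poles.
* `cv_plc`: a rational place over a rational simple point.
-/

open ZC CV Polynomial GM

namespace GX

variable {K E Ω : Type} [Field K] [CharZero K] [Field E] [Field Ω] [Algebra K E] [Algebra K Ω]
  [IsAlgClosure K Ω] {g : K[X][X]} [Algebra (AdjoinRoot g) E] [IsFractionRing (AdjoinRoot g) E]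
  [IsScalarTower K (AdjoinRoot g) E] {n : ℕ}

/-- Proof: `GM.fz_adj`, `Fz.ff` (`Gm/GpB`; `AdjoinRoot g` is a domain: `AdjoinRoot.isDomain_of_prime`). -/
theorem cv_ff (hm : g.Monic) (hp : Prime g) : IsFunField K E := by
  exact (fz_adj hm hp).ff

omit [CharZero K] [IsFractionRing (AdjoinRoot g) E] in
private theorem bf_C (p : K[X]) :
    aeval (algebraMap (AdjoinRoot g) E (AdjoinRoot.mk g (C X))) p =
      algebraMap (AdjoinRoot g) E (AdjoinRoot.mk g (C p)) := by
  rw [aeval_algebraMap_apply]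
  congr 1
  induction p using Polynomial.induction_on' with
  | add p q hp hq => rw [map_add, hp, hq, C_add, map_add]
  | monomial n a =>
    rw [aeval_monomial, ← C_mul_X_pow_eq_monomial, C_mul, C_pow, map_mul, map_pow]
    rfl

omit [CharZero K] [IsFractionRing (AdjoinRoot g) E] in
private theorem bf_mk (P : K[X][X]) : algebraMap (AdjoinRoot g) E (AdjoinRoot.mk g P) =
    ∑ i ∈ Finset.range (P.natDegree + 1),
      aeval (algebraMap (AdjoinRoot g) E (AdjoinRoot.mk g (C X))) (P.coeff i) *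
        algebraMap (AdjoinRoot g) E (AdjoinRoot.mk g X) ^ i := by
  conv_lhs => rw [P.as_sum_range_C_mul_X_pow]
  rw [map_sum, map_sum]
  refine Finset.sum_congr rfl fun i _ => ?_
  rw [bf_C, map_mul, map_mul, map_pow, map_pow]

omit [CharZero K] in
private theorem bf_ind (hm : g.Monic) (hn : g.natDegree = n) (h : Fin n → K[X])
    (h0 : ∑ i : Fin n, aeval (algebraMap (AdjoinRoot g) E (AdjoinRoot.mk g (C X))) (h i) *
      algebraMap (AdjoinRoot g) E (AdjoinRoot.mk g X) ^ (i : ℕ) = 0) : h = 0 := by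
  have hinj : Function.Injective (algebraMap (AdjoinRoot g) E) := IsFractionRing.injective _ E
  obtain ⟨P, hP⟩ : ∃ P : K[X][X], P = ∑ i : Fin n, C (h i) * X ^ (i : ℕ) := ⟨_, rfl⟩
  have h1 : algebraMap (AdjoinRoot g) E (AdjoinRoot.mk g P) = 0 := by
    rw [← h0, hP, map_sum, map_sum]
    refine Finset.sum_congr rfl fun i _ => ?_
    rw [bf_C, map_mul, map_mul, map_pow, map_pow]
  have h2 : g ∣ P := by
    rw [← AdjoinRoot.mk_eq_zero]
    exact hinj (h1.trans (map_zero _).symm)
  have h3 : P = 0 := by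
    by_contra hP0
    have hn0 : n ≠ 0 := by
      rintro rfl
      exact hP0 (by rw [hP]; exact Finset.sum_of_isEmpty _)
    refine hm.not_dvd_of_natDegree_lt hP0 ?_ h2
    rw [hn, hP]
    refine lt_of_le_of_lt (natDegree_sum_le_of_forall_le (n := n - 1) _ _ fun i _ => ?_)
      (by omega)
    refine (natDegree_C_mul_X_pow_le _ _).trans ?_
    have := i.2
    omega
  funext i
  have h4 := congrArg (fun Q : K[X][X] => Q.coeff (i : ℕ)) h3
  simp only [hP, coeff_zero, finsetSum_coeff, coeff_C_mul_X_pow] at h4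
  rw [Finset.sum_eq_single i] at h4
  · rw [if_pos rfl] at h4
    exact h4
  · intro j _ hj
    exact if_neg fun h5 => hj (Fin.ext h5.symm)
  · intro h5
    exact absurd (Finset.mem_univ _) h5

omit [CharZero K] [Field Ω] [Algebra K Ω] [IsAlgClosure K Ω] in
/-- Linear independence over `K (z)`. -/
private theorem bf_li {s y : E} (hn : ∀ h : Fin n → K[X],
    ∑ i : Fin n, aeval s (h i) * y ^ (i : ℕ) = 0 → h = 0) :
    LinearIndependent (IntermediateField.adjoin K {s}) fun i : Fin n => y ^ (i : ℕ) := by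
  classical
  rw [Fintype.linearIndependent_iff]
  intro m hm
  have h1 : ∀ i, ∃ p q : K[X], aeval s q ≠ 0 ∧ ((m i : IntermediateField.adjoin K {s}) : E) =
      aeval s p / aeval s q := by
    intro i
    obtain ⟨p, q, h⟩ := (IntermediateField.mem_adjoin_simple_iff (F := K) ((m i : E))).1 (m i).2
    by_cases hq : aeval s q = 0
    · refine ⟨0, 1, ?_, ?_⟩
      · rw [map_one]
        exact one_ne_zero
      · rw [h, hq, div_zero, map_zero, zero_div]
    · exact ⟨p, q, hq, h⟩
  choose p q hq hpq using h1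
  have hQ : aeval s (∏ j, q j) ≠ 0 := by
    rw [map_prod]
    exact Finset.prod_ne_zero_iff.2 fun j _ => hq j
  have h2 : ∑ i : Fin n, aeval s (p i * ∏ j ∈ Finset.univ.erase i, q j) * y ^ (i : ℕ) = 0 := by
    have h3 : ∑ i : Fin n, aeval s (p i * ∏ j ∈ Finset.univ.erase i, q j) * y ^ (i : ℕ) =
        aeval s (∏ j, q j) * ∑ i : Fin n, m i • y ^ (i : ℕ) := by
      rw [Finset.mul_sum]
      refine Finset.sum_congr rfl fun i _ => ?_
      rw [Algebra.smul_def]
      change _ = aeval s (∏ j, q j) * ((m i : E) * y ^ (i : ℕ))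
      rw [hpq i, ← Finset.mul_prod_erase Finset.univ q (Finset.mem_univ i), map_mul, map_mul]
      field_simp [hq i]
    rw [h3, hm, mul_zero]
  have h3 := hn _ h2
  intro i
  have h4 : p i * ∏ j ∈ Finset.univ.erase i, q j = 0 := congrFun h3 i
  have h5 : p i = 0 := by
    refine (mul_eq_zero.1 h4).resolve_right (Finset.prod_ne_zero_iff.2 fun j _ h => ?_)
    exact hq j (by rw [h, map_zero])
  apply Subtype.ext
  rw [hpq i, h5, map_zero, zero_div]
  rfl

omit [CharZero K] in
private theorem bf_rk (hm : g.Monic) (hn : g.natDegree = n) :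
    Module.finrank (IntermediateField.adjoin K
      {algebraMap (AdjoinRoot g) E (AdjoinRoot.mk g (C X))}) E = n := by
  obtain ⟨s, hs⟩ : ∃ s, s = algebraMap (AdjoinRoot g) E (AdjoinRoot.mk g (C X)) := ⟨_, rfl⟩
  obtain ⟨y, hy⟩ : ∃ y, y = algebraMap (AdjoinRoot g) E (AdjoinRoot.mk g X) := ⟨_, rfl⟩
  have hli := bf_li (K := K) (n := n) (s := s) (y := y) (fun h h0 => by
    rw [hs, hy] at h0
    exact bf_ind hm hn h h0)
  have hmk := fun P : K[X][X] => bf_mk (E := E) (g := g) P
  rw [← hs, ← hy] at hmk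
  rw [← hs]
  obtain ⟨σ, hσ⟩ : ∃ σ : IntermediateField.adjoin K {s}, (σ : E) = s :=
    ⟨⟨s, IntermediateField.mem_adjoin_simple_self K s⟩, rfl⟩
  have hσ2 : ∀ p : K[X], ((aeval σ p : IntermediateField.adjoin K {s}) : E) = aeval s p := by
    intro p
    have h1 := aeval_algHom_apply (IntermediateField.adjoin K {s}).val σ p
    have h2 : (IntermediateField.adjoin K {s}).val σ = s := hσ
    rw [h2] at h1
    exact h1.symm
  have hroot : aeval y (g.map (aeval σ : K[X] →ₐ[K] _).toRingHom) = 0 := by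
    have h1 := hmk g
    rw [AdjoinRoot.mk_self, map_zero] at h1
    rw [aeval_eq_sum_range' (n := g.natDegree + 1)
      (Nat.lt_succ_of_le natDegree_map_le), h1]
    refine Finset.sum_congr rfl fun i _ => ?_
    rw [coeff_map, Algebra.smul_def]
    congr 1
    exact hσ2 _
  have hmon : (g.map (aeval σ : K[X] →ₐ[K] _).toRingHom).Monic := hm.map _
  have hint : IsIntegral (IntermediateField.adjoin K {s}) y := ⟨_, hmon, hroot⟩
  have hle : (minpoly (IntermediateField.adjoin K {s}) y).natDegree ≤ n := by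
    rw [← hn, ← hm.natDegree_map (aeval σ : K[X] →ₐ[K] _).toRingHom]
    exact natDegree_le_natDegree (minpoly.min _ _ hmon hroot)
  have hmem : ∀ a : AdjoinRoot g, algebraMap (AdjoinRoot g) E a ∈
      IntermediateField.adjoin (IntermediateField.adjoin K {s}) {y} := by
    intro a
    obtain ⟨P, rfl⟩ := AdjoinRoot.mk_surjective a
    rw [hmk]
    refine sum_mem fun i _ => mul_mem ?_ (pow_mem (IntermediateField.mem_adjoin_simple_self _ y) _)
    rw [← hσ2]
    exact (IntermediateField.adjoin (IntermediateField.adjoin K {s}) {y}).algebraMap_mem _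
  have htop : IntermediateField.adjoin (IntermediateField.adjoin K {s}) {y} = ⊤ := by
    rw [eq_top_iff]
    intro e _
    obtain ⟨a, b, _, rfl⟩ := IsFractionRing.div_surjective (A := AdjoinRoot g) e
    exact div_mem (hmem a) (hmem b)
  have hfr := IntermediateField.adjoin.finrank hint
  have hfd := IntermediateField.adjoin.finiteDimensional hint
  rw [htop] at hfr hfd
  have e1 : Module.finrank (IntermediateField.adjoin K {s})
      (⊤ : IntermediateField (IntermediateField.adjoin K {s}) E) =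
      Module.finrank (IntermediateField.adjoin K {s}) E :=
    (IntermediateField.topEquiv (F := IntermediateField.adjoin K {s})
      (E := E)).toLinearEquiv.finrank_eq
  have hfd2 : FiniteDimensional (IntermediateField.adjoin K {s}) E :=
    Module.Finite.equiv (IntermediateField.topEquiv (F := IntermediateField.adjoin K {s})
      (E := E)).toLinearEquiv
  refine le_antisymm ?_ ?_
  · rw [← e1, hfr]
    exact hle
  · have h1 := hli.fintype_card_le_finrank
    rwa [Fintype.card_fin] at h1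

/-- The powers of `Y` are a basis with bounded poles. Proof: `tr`: `fz_adj`. `rk`: `E = K(z)(Y)`, `1, Y, .., Y ^ (n - 1)` is a basis: they generate (`AdjoinRoot` is generated over `K[z]`, every element of `E` is a quotient with denominator in `K[z]`: `E` is algebraic over `K(z)`, or the degree of the minimal polynomial of `Y`: `g` is irreducible over `K(z)`
by Gauss: `Polynomial.Monic.irreducible_iff_irreducible_map_fraction_map`). `ind`: `∑ h_i(z) Y ^ i = 0` in `AdjoinRoot g` with degree `< n` implies that the polynomial is `0` (`g` monic divides it). `fin`: `Dz.mem_of_integral` (`Y` is integral over `K[z]`). `inf`: `GM.inf_Y` (`Gm/GpH`) with `ρ = 1`: `Y / z` is in the valuation ring, so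
`Y ^ i / z ^ n = (Y / z) ^ i (1 / z) ^ (n - i)` is. -/
theorem cv_rbs (hm : g.Monic) (hp : Prime g) (hg : Mc 1 n g) :
    Rbs (K := K) Ω (algebraMap (AdjoinRoot g) E (AdjoinRoot.mk g (C X))) n n
      fun i : Fin n => algebraMap (AdjoinRoot g) E (AdjoinRoot.mk g X) ^ (i : ℕ) := by
  have hinj : Function.Injective (algebraMap (AdjoinRoot g) E) := IsFractionRing.injective _ E
  have hz : ∀ v : Place K E Ω, algebraMap (AdjoinRoot g) E (AdjoinRoot.mk g (C X)) ∈ v.V →
      ∀ a : AdjoinRoot g, algebraMap (AdjoinRoot g) E a ∈ v.V := by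
    intro v hv a
    rcases (fz_adj hm hp).inf_or_ab v with h | ⟨φ, h⟩
    · exact absurd hv h
    · exact (h a).1
  refine ⟨(transcendental_algebraMap_iff hinj).2 (fz_adj hm hp).tr, bf_rk hm hg.deg,
    fun h h0 => bf_ind hm hg.deg h h0, fun v hv i => ?_, fun v hv i => ?_⟩
  · exact v.V.toSubring.pow_mem (hz v hv _) _
  · have h1 := inf_Y v.V ((algebraMap (AdjoinRoot g) E).comp (AdjoinRoot.mk g))
      (fun c => by
        change algebraMap (AdjoinRoot g) E (algebraMap K (AdjoinRoot g) c) ∈ v.V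
        rw [← IsScalarTower.algebraMap_apply]
        exact v.mem c) hv hg (by
        rw [RingHom.comp_apply, AdjoinRoot.mk_self, map_zero])
    rw [pow_one] at h1
    change algebraMap (AdjoinRoot g) E (AdjoinRoot.mk g X) /
      algebraMap (AdjoinRoot g) E (AdjoinRoot.mk g (C X)) ∈ v.V at h1
    have h2 : (algebraMap (AdjoinRoot g) E (AdjoinRoot.mk g (C X)))⁻¹ ∈ v.V :=
      (v.V.mem_or_inv_mem _).resolve_left hv
    obtain ⟨l, hl⟩ : ∃ l, n = (i : ℕ) + l := Nat.exists_eq_add_of_le i.2.le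
    have h3 : algebraMap (AdjoinRoot g) E (AdjoinRoot.mk g X) ^ (i : ℕ) *
        (algebraMap (AdjoinRoot g) E (AdjoinRoot.mk g (C X)))⁻¹ ^ n =
        (algebraMap (AdjoinRoot g) E (AdjoinRoot.mk g X) /
          algebraMap (AdjoinRoot g) E (AdjoinRoot.mk g (C X))) ^ (i : ℕ) *
        (algebraMap (AdjoinRoot g) E (AdjoinRoot.mk g (C X)))⁻¹ ^ l := by
      have h4 : ∀ x : E, x ^ n = x ^ (i : ℕ) * x ^ l := fun x => by
        rw [← pow_add]
        exact congrArg (x ^ ·) hl
      rw [h4, div_eq_mul_inv, mul_pow, mul_assoc]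
    rw [h3]
    exact v.V.mul_mem _ _ (v.V.toSubring.pow_mem h1 _) (v.V.toSubring.pow_mem h2 _)

section res

variable {K₀ A E₀ Ω₀ : Type} [Field K₀] [CommRing A] [IsDomain A] [IsNoetherianRing A]
  [Algebra K₀ A] [Field E₀] [Algebra A E₀] [IsFractionRing A E₀] [Algebra K₀ E₀] [Field Ω₀]
  [Algebra K₀ Ω₀]

/-- An element of the valuation ring is a quotient with denominator not vanishing. -/
private theorem bf_res {v : Place K₀ E₀ Ω₀} {φ : A →ₐ[K₀] Ω₀} {t : A} (ht0 : t ≠ 0)
    (h : Rg φ t) (hw : Ab v φ) {z : E₀} (hz : z ∈ v.V) :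
    ∃ x y : A, φ y ≠ 0 ∧ z * algebraMap A E₀ y = algebraMap A E₀ x := by
  obtain ⟨x, y, hy0, rfl⟩ := IsFractionRing.div_surjective (A := A) z
  have hy1 : y ≠ 0 := nonZeroDivisors.ne_zero hy0
  by_cases hx0 : x = 0
  · refine ⟨0, 1, ?_, ?_⟩
    · rw [map_one]
      exact one_ne_zero
    · rw [hx0, map_zero, zero_div, zero_mul]
  obtain ⟨m, hm⟩ := GM.rg_fac h hx0
  obtain ⟨n, hn⟩ := GM.rg_fac h hy1
  have hnm := (GM.rg_mem ht0 h hw hm hn).1 hz
  obtain ⟨a, a', ha, ha', h1⟩ := hm
  obtain ⟨b, b', hb, hb', h2⟩ := hn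
  refine ⟨a' * b * t ^ (m - n), a * b', ?_, ?_⟩
  · rw [map_mul]
    exact mul_ne_zero ha hb'
  · have hye : algebraMap A E₀ y ≠ 0 := by
      rw [Ne, FaithfulSMul.algebraMap_eq_zero_iff]
      exact hy1
    have e3 : a * x * (b' * t ^ n) = a' * b * t ^ (m - n) * y * t ^ n := by
      rw [h1, ← h2]
      have e4 : t ^ m = t ^ (m - n) * t ^ n := by rw [← pow_add, Nat.sub_add_cancel hnm]
      rw [e4]
      ring
    have ht1 : t ^ n ≠ 0 := pow_ne_zero n ht0
    have e5 : a * x * b' = a' * b * t ^ (m - n) * y := by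
      apply mul_right_cancel₀ ht1
      rw [← e3]
      ring
    rw [div_mul_eq_mul_div, div_eq_iff hye, ← map_mul, ← map_mul, ← e5]
    congr 1
    ring

omit [IsDomain A] [IsNoetherianRing A] [IsFractionRing A E₀] in
private theorem bf_val {v : Place K₀ E₀ Ω₀} {φ : A →ₐ[K₀] Ω₀} (hw : Ab v φ) {z : E₀}
    (hz : z ∈ v.V) {x y : A} (hy : φ y ≠ 0) (e : z * algebraMap A E₀ y = algebraMap A E₀ x) :
    v.res ⟨z, hz⟩ = φ x / φ y := by
  obtain ⟨h1, h2⟩ := hw x
  obtain ⟨h3, h4⟩ := hw y
  have h5 : (⟨z, hz⟩ : v.V) * ⟨algebraMap A E₀ y, h3⟩ = ⟨algebraMap A E₀ x, h1⟩ := Subtype.ext e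
  have h6 := congrArg v.res h5
  rw [map_mul, h2, h4] at h6
  rw [eq_div_iff hy]
  exact h6

/-- The value at a rational point. -/
private theorem bf_evk (c w : K₀) (B : K₀[X][X]) :
    evk (algebraMap K₀ Ω₀ c, algebraMap K₀ Ω₀ w) B = algebraMap K₀ Ω₀ (evk (c, w) B) := by
  have h1 := evk_ext ((Algebra.ofId K₀ Ω₀).comp (evk (c, w) : K₀[X][X] →ₐ[K₀] K₀)) B
  rw [AlgHom.comp_apply, AlgHom.comp_apply, AlgHom.comp_apply, evk_z, evk_Y] at h1
  exact h1.symm

end res

/-- A rational simple point `(c, w)` gives a rational place with the residues `A(c, w)`. Proof: `φ = phi g h` (`Gm/GpE`) for `P = (c, w)`; `w` from `Fz.exists_ab`; `rg_pt`: `φ` is regular, so every element of the valuation ring is a quotient `x / y` with `φ y ≠ 0` (as the private `plh_res`, `plh_val` of `Gm/GpA`: copy them, or use `rg_fac` and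
`rg_mem`), its residue is `φ x / φ y`, and `φ` has values in `K`. -/
theorem cv_plc (hm : g.Monic) (hp : Prime g) {c w : K}
    (h0 : evk (algebraMap K Ω c, algebraMap K Ω w) g = 0)
    (h1 : evk (algebraMap K Ω c, algebraMap K Ω w) (dY g) ≠ 0) :
    ∃ v : Place K E Ω, Rpl v ∧ ∀ A : K[X][X],
      ∃ h : algebraMap (AdjoinRoot g) E (AdjoinRoot.mk g A) ∈ v.V,
        v.res ⟨_, h⟩ = evk (algebraMap K Ω c, algebraMap K Ω w) A := by
  have hdom : IsDomain (AdjoinRoot g) := AdjoinRoot.isDomain_of_prime hp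
  have hno : IsNoetherianRing (AdjoinRoot g) := (fz_adj hm hp).noeth
  have halg : Algebra.IsAlgebraic K Ω := IsAlgClosure.isAlgebraic
  have hinj : Function.Injective (algebraMap (AdjoinRoot g) E) := IsFractionRing.injective _ E
  obtain ⟨v, hv⟩ := (fz_adj hm hp).exists_ab (E := E) (phi g h0)
  have hrg := rg_pt h0 h1
  have ht0 : AdjoinRoot.mk g (C (minpoly K (algebraMap K Ω c))) ≠ 0 := by
    intro h
    have h2 := bf_C (E := E) (g := g) (minpoly K (algebraMap K Ω c))
    rw [h, map_zero] at h2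
    exact minpoly.ne_zero (Algebra.IsIntegral.isIntegral (R := K) (algebraMap K Ω c))
      ((transcendental_iff.1 ((transcendental_algebraMap_iff hinj).2 (fz_adj hm hp).tr)) _ h2)
  refine ⟨v, fun a ha => ?_, fun A => ?_⟩
  · obtain ⟨x, y, hy, e⟩ := bf_res ht0 hrg hv ha
    obtain ⟨B, rfl⟩ := AdjoinRoot.mk_surjective x
    obtain ⟨D, rfl⟩ := AdjoinRoot.mk_surjective y
    refine ⟨evk (c, w) B / evk (c, w) D, ?_⟩
    rw [bf_val hv ha hy e, phi_mk, phi_mk, bf_evk, bf_evk, map_div₀]
  · obtain ⟨h, hr⟩ := hv (AdjoinRoot.mk g A)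
    exact ⟨h, by rw [hr, phi_mk]⟩

end GX
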