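import Pool.Agent.Lib.MP_f80667_ag.To.Be
import Pool.Agent.Lib.MP_f80667_ag.To.Bf
import Pool.Agent.Lib.MP_f80667_ag.Gx.XC
import Pool.Agent.Lib.MP_f80667_ag.Gx.Pr
import Pool.Agent.Lib.MP_f80667_ag.Gx.Al

/-!
Two points on the curve over a line.

* `lnc c v`: the line `c + z v`.
-/

open ZC BE PE CV IntermediateField GM

namespace GX

section ln

variable {K : Type} [Field K] {d : ℕ}

/-- The line `c + z v`. -/
noncomputable def lnc (c v : Fin (d + 1) → K) : Fin (d + 1) → Polynomial K :=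
  fun r => Polynomial.C (c r) + Polynomial.C (v r) * Polynomial.X

private theorem bg_lnc_deg (c v : Fin (d + 1) → K) (r : Fin (d + 1)) :
    (lnc c v r).natDegree ≤ 1 := by
  refine (Polynomial.natDegree_add_le _ _).trans (max_le ?_ ?_)
  · rw [Polynomial.natDegree_C]
    exact zero_le_one
  · exact (Polynomial.natDegree_C_mul_le _ _).trans Polynomial.natDegree_X_le

private theorem bg_lnc_eval (c v : Fin (d + 1) → K) (t : K) (r : Fin (d + 1)) :
    (lnc c v r).eval t = c r + v r * t := by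
  rw [lnc, Polynomial.eval_add, Polynomial.eval_mul, Polynomial.eval_C, Polynomial.eval_C,
    Polynomial.eval_X]

private theorem bg_deg {σ : Type} (a : σ → Polynomial K) (ha : ∀ r, (a r).natDegree ≤ 1)
    {Q : MvPolynomial σ K} {e : ℕ} (hQ : Q.IsHomogeneous e) :
    (MvPolynomial.aeval a Q : Polynomial K).natDegree ≤ e * 1 := by
  rw [MvPolynomial.aeval_def, MvPolynomial.eval₂_eq]
  refine Polynomial.natDegree_sum_le_of_forall_le _ _ fun D hD => ?_
  have h1 := hQ (MvPolynomial.mem_support_iff.1 hD)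
  rw [Polynomial.algebraMap_apply]
  refine (Polynomial.natDegree_C_mul_le _ _).trans ?_
  refine (Polynomial.natDegree_prod_le _ _).trans ?_
  have h2 : ∀ i ∈ D.support, (a i ^ D i).natDegree ≤ D i * 1 := fun i _ =>
    (Polynomial.natDegree_pow_le).trans (Nat.mul_le_mul_left _ (ha i))
  refine (Finset.sum_le_sum h2).trans ?_
  rw [← Finset.sum_mul]
  refine Nat.mul_le_mul_right _ (le_of_eq ?_)
  rw [← h1, Finsupp.weight_apply]
  simp [Finsupp.sum]

/-- The value at a point over `K`. -/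
private theorem bg_evk {Ω : Type} [Field Ω] [Algebra K Ω] (t w : K)
    (A : Polynomial (Polynomial K)) :
    evk (algebraMap K Ω t, algebraMap K Ω w) A = algebraMap K Ω (ev₂ (t, w) A) :=
  Polynomial.map_mapRingHom_evalEval (algebraMap K Ω) A t w

/-- The values of the polynomials on the line. -/
private theorem bg_ev {Ω : Type} [Field Ω] [Algebra K Ω] (c v : Fin (d + 1) → K) (t w : K)
    (P : Polynomial (MvPolynomial (Fin (d + 1)) K)) :
    evk (algebraMap K Ω t, algebraMap K Ω w) (ga (K := K) (lnc c v) P) =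
      algebraMap K Ω (pe (fun r => c r + v r * t) w P) := by
  rw [bg_evk, ga_ev]
  simp only [bg_lnc_eval]

end ln

section pt

variable {F : Type} [Field F] {N : ℕ} {ι : Type} {f : ι → MvPolynomial (Fin N) F} {k : Type}
  [Field k] [Algebra F k] {Ω : Type} [Field Ω] [Algebra k Ω] [Algebra F Ω]

/-- The point of the variety over the function field of the curve `g = 0`. -/
private theorem bg_pt {g B : Polynomial (Polynomial k)} (hp : Prime g)
    {A : Fin N → Polynomial (Polynomial k)}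
    (hA : ∀ i, g ∣ B * MvPolynomial.aeval A (f i)) {P₀ : Ω × Ω} (hg : evk P₀ g = 0)
    (hB : evk P₀ B ≠ 0) {y : (Xf f).pt Ω} (hy : Co y fun i => evk P₀ (A i)) (E : Type)
    [Field E] [Algebra k E] [Algebra F E] [IsScalarTower F k E] [Algebra (AdjoinRoot g) E]
    [IsFractionRing (AdjoinRoot g) E] [IsScalarTower k (AdjoinRoot g) E] :
    ∃ Q : (Xf f).pt E, Co Q fun i => algebraMap (AdjoinRoot g) E (AdjoinRoot.mk g (A i)) := by
  have h1 : ∀ i, g ∣ MvPolynomial.aeval A (f i) := by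
    intro i
    refine (hp.dvd_or_dvd (hA i)).resolve_left fun h => ?_
    obtain ⟨b, rfl⟩ := h
    exact hB (by rw [map_mul, hg, zero_mul])
  let ψ : Polynomial (Polynomial k) →+* E :=
    (algebraMap (AdjoinRoot g) E).comp (AdjoinRoot.mk g)
  have hψF : ∀ c : F, ψ (algebraMap F (Polynomial (Polynomial k)) c) = algebraMap F E c := by
    intro c
    have h2 : algebraMap F (Polynomial (Polynomial k)) c =
      Polynomial.C (Polynomial.C (algebraMap F k c)) := rfl
    have h3 : AdjoinRoot.mk g (Polynomial.C (Polynomial.C (algebraMap F k c))) =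
      algebraMap k (AdjoinRoot g) (algebraMap F k c) := rfl
    rw [h2]
    change algebraMap (AdjoinRoot g) E
      (AdjoinRoot.mk g (Polynomial.C (Polynomial.C (algebraMap F k c)))) = _
    rw [h3, ← IsScalarTower.algebraMap_apply k (AdjoinRoot g) E,
      ← IsScalarTower.algebraMap_apply F k E]
  refine co_mk (x := fun i => ψ (A i)) ?_ fun i => ?_
  · intro h
    apply co_ne hy
    funext i
    have h2 : algebraMap (AdjoinRoot g) E (AdjoinRoot.mk g (A i)) = 0 := congrFun h i
    have h3 : AdjoinRoot.mk g (A i) = 0 :=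
      IsFractionRing.injective (AdjoinRoot g) E (by rw [h2, map_zero])
    change evk P₀ (A i) = 0
    rw [← phi_mk hg, h3, map_zero]
  · rw [gpk_eq ψ hψF]
    change algebraMap (AdjoinRoot g) E (AdjoinRoot.mk g (MvPolynomial.aeval A (f i))) = 0
    rw [AdjoinRoot.mk_eq_zero.2 (h1 i), map_zero]

end pt

variable {F : Type} [Field F] {N d : ℕ} {ι : Type} {f : ι → MvPolynomial (Fin N) F}
  {K Ω : Type} [Field K] [CharZero K] [Field Ω] [Algebra K Ω]
  [Algebra F K] [Algebra F Ω] [IsScalarTower F K Ω]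
  [IsAlgClosure K Ω] {L : Ld K Ω} {a : Ω} {ψ : Prj K N d}

/-- The weights of the curve over a line. Proof: `G` is homogeneous (`homG`): as `Pk.mc` (`Ep/Ze`) with `ρ = 1`. -/
theorem ln_mc (h : ψ.Ok fun i => MvPolynomial.map (algebraMap F K) (f i))
    (c v : Fin (d + 1) → K) :
    Mc 1 ψ.G.natDegree (ga (K := K) (lnc c v) ψ.G) := by
  refine ⟨h.mon.map _, h.mon.natDegree_map _, fun j => ?_⟩
  rw [ga_coeff]
  exact bg_deg _ (bg_lnc_deg c v) (h.homG j)

/-- Two points over a line, the function field is given. -/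
private theorem bg_tor (h : ψ.Ok fun i => MvPolynomial.map (algebraMap F K) (f i)) (hf : Hm f)
    {c v : Fin (d + 1) → K} (hp : Prime (ga (K := K) (lnc c v) ψ.G)) {w w' : K}
    (hG : pe c w ψ.G = 0) (hD : MvPolynomial.eval c ψ.D ≠ 0)
    (hG' : pe (c + v) w' ψ.G = 0) (hD' : MvPolynomial.eval (c + v) ψ.D ≠ 0)
    {P P' : (Xf f).pt Ω} (hP : Co P fun j => algebraMap K Ω (pe c w (ψ.A j)))
    (hP' : Co P' fun j => algebraMap K Ω (pe (c + v) w' (ψ.A j)))
    (ha : a ≠ 0) (ha1 : L.nm a < 1) (E : Type)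
    [Field E] [Algebra K E] [Algebra F E] [IsScalarTower F K E]
    [Algebra (AdjoinRoot (ga (K := K) (lnc c v) ψ.G)) E]
    [IsFractionRing (AdjoinRoot (ga (K := K) (lnc c v) ψ.G)) E]
    [IsScalarTower K (AdjoinRoot (ga (K := K) (lnc c v) ψ.G)) E] :
    Tor f L (L.nm a) (Finsupp.single P' 1 - Finsupp.single P 1) := by
  have hmc := ln_mc h c v
  have hm := hmc.monic
  have hn : ψ.G.natDegree ≠ 0 := by
    rw [← hmc.deg]
    exact (prime_deg hm hp).ne'
  have e0 : (fun r => c r + v r * (0 : K)) = c := by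
    funext r
    rw [mul_zero, add_zero]
  have e1 : (fun r => c r + v r * (1 : K)) = c + v := by
    funext r
    rw [mul_one]
    rfl
  -- simple points
  have hsm : ∀ (x : Fin (d + 1) → K) (y : K), pe x y ψ.G = 0 → MvPolynomial.eval x ψ.D ≠ 0 →
      pe x y (Polynomial.derivative ψ.G) ≠ 0 := by
    intro x y h1 h2 h3
    obtain ⟨B, B', h4⟩ := h.bez
    have h5 := congrArg (pe x y) h4
    rw [map_add, map_mul, map_mul, h1, h3, mul_zero, mul_zero, add_zero, pe_C,
      MvPolynomial.aeval_eq_eval] at h5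
    exact h2 h5.symm
  have hev0 : ∀ R : Polynomial (MvPolynomial (Fin (d + 1)) K),
      evk (algebraMap K Ω 0, algebraMap K Ω w) (ga (K := K) (lnc c v) R) =
        algebraMap K Ω (pe c w R) := fun R => by rw [bg_ev, e0]
  have hev1 : ∀ R : Polynomial (MvPolynomial (Fin (d + 1)) K),
      evk (algebraMap K Ω 1, algebraMap K Ω w') (ga (K := K) (lnc c v) R) =
        algebraMap K Ω (pe (c + v) w' R) := fun R => by rw [bg_ev, e1]
  have hz : ∀ x : K, x ≠ 0 → algebraMap K Ω x ≠ 0 := fun x hx =>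
    (map_ne_zero (algebraMap K Ω)).2 hx
  have g0 : evk (algebraMap K Ω 0, algebraMap K Ω w) (ga (K := K) (lnc c v) ψ.G) = 0 := by
    rw [hev0, hG, map_zero]
  have g1 : evk (algebraMap K Ω 1, algebraMap K Ω w') (ga (K := K) (lnc c v) ψ.G) = 0 := by
    rw [hev1, hG', map_zero]
  have d0 : evk (algebraMap K Ω 0, algebraMap K Ω w) (dY (ga (K := K) (lnc c v) ψ.G)) ≠ 0 := by
    rw [dY, ga_der, hev0]
    exact hz _ (hsm _ _ hG hD)
  have d1 : evk (algebraMap K Ω 1, algebraMap K Ω w') (dY (ga (K := K) (lnc c v) ψ.G)) ≠ 0 := by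
    rw [dY, ga_der, hev1]
    exact hz _ (hsm _ _ hG' hD')
  -- the point over the function field
  obtain ⟨s, hs⟩ := h.inX
  have hA : ∀ i, ga (K := K) (lnc c v) ψ.G ∣
      ga (K := K) (lnc c v) (Polynomial.C (ψ.D ^ s)) *
        MvPolynomial.aeval (fun j => ga (K := K) (lnc c v) (ψ.A j)) (f i) := by
    intro i
    have h1 := map_dvd (ga (K := K) (lnc c v)) (hs i)
    rw [MvPolynomial.aeval_map_algebraMap, map_mul] at h1
    rw [gpk_eq (ga (K := K) (lnc c v)) (fun b => ?_)]
    · exact h1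
    · rw [IsScalarTower.algebraMap_apply F K (Polynomial (MvPolynomial (Fin (d + 1)) K)),
        IsScalarTower.algebraMap_apply F K (Polynomial (Polynomial K)),
        Polynomial.algebraMap_apply, ga_C, MvPolynomial.algebraMap_apply, MvPolynomial.aeval_C,
        Polynomial.algebraMap_apply]
      rfl
  have hB : evk (algebraMap K Ω 0, algebraMap K Ω w)
      (ga (K := K) (lnc c v) (Polynomial.C (ψ.D ^ s))) ≠ 0 := by
    rw [hev0, pe_C, map_pow, MvPolynomial.aeval_eq_eval]
    exact hz _ (pow_ne_zero _ hD)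
  obtain ⟨Q, hQ⟩ := bg_pt hp hA g0 hB (y := P) (by
    have h1 : (fun i => evk (algebraMap K Ω 0, algebraMap K Ω w)
        (ga (K := K) (lnc c v) (ψ.A i))) = fun j => algebraMap K Ω (pe c w (ψ.A j)) :=
      funext fun j => hev0 _
    rw [h1]
    exact hP) E
  -- the two places
  obtain ⟨u, hu, hu'⟩ := cv_plc (E := E) hm hp g0 d0
  obtain ⟨u₁, hu₁, hu₁'⟩ := cv_plc (E := E) hm hp g1 d1
  have hv0 : vpl hf Q u = P := by
    refine vpl_eq hf (RS.red_iff.2 ⟨_, _, hQ, hP, fun j => ?_⟩)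
    obtain ⟨h1, h2⟩ := hu' (ga (K := K) (lnc c v) (ψ.A j))
    exact ⟨h1, h2.trans (hev0 _)⟩
  have hv1 : vpl hf Q u₁ = P' := by
    refine vpl_eq hf (RS.red_iff.2 ⟨_, _, hQ, hP', fun j => ?_⟩)
    obtain ⟨h1, h2⟩ := hu₁' (ga (K := K) (lnc c v) (ψ.A j))
    exact ⟨h1, h2.trans (hev1 _)⟩
  obtain ⟨hs0, -⟩ := hu' (Polynomial.C Polynomial.X)
  obtain ⟨hs1, -⟩ := hu₁' (Polynomial.C Polynomial.X)
  have key := Rbs.tor (cv_ff hm hp) (cv_rbs (Ω := Ω) hm hp hmc) hn hn hf Q ha ha1 hu hu₁ hs0 hs1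
  rw [hv0, hv1] at key
  exact key

/-- **Two points over a line.** `c`, `c + v` in the good locus, `w`, `w'` roots over `K`. Proof: `g = ga (lnc c v) ψ.G`; `E = FractionRing (AdjoinRoot g)` with the algebra structure over `F` through `K`; the point over `E` with the coordinates `A_j (c + z v, Y)`: as in `gpt_f` (`Gx/Pr`), but over `E` itself (from `inX`: `g ∣ D ^ s f_i(A)` and `g` does not divide `D`,
because `D ≠ 0` at `(0, w)`); its values at the places of `cv_plc` over `(0, w)`, `(1, w')` are `P`, `P'` (`vpl_eq`, `RS.red_iff`); `Rbs.tor` with `cv_rbs`. `n ≠ 0`: `prime_deg`. -/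
theorem ln_tor (h : ψ.Ok fun i => MvPolynomial.map (algebraMap F K) (f i)) (hf : Hm f)
    {c v : Fin (d + 1) → K} (hp : Prime (ga (K := K) (lnc c v) ψ.G)) {w w' : K}
    (hG : pe c w ψ.G = 0) (hD : MvPolynomial.eval c ψ.D ≠ 0)
    (hG' : pe (c + v) w' ψ.G = 0) (hD' : MvPolynomial.eval (c + v) ψ.D ≠ 0)
    {P P' : (Xf f).pt Ω} (hP : Co P fun j => algebraMap K Ω (pe c w (ψ.A j)))
    (hP' : Co P' fun j => algebraMap K Ω (pe (c + v) w' (ψ.A j)))
    (ha : a ≠ 0) (ha1 : L.nm a < 1) :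
    Tor f L (L.nm a) (Finsupp.single P' 1 - Finsupp.single P 1) := by
  have hdom : IsDomain (AdjoinRoot (ga (K := K) (lnc c v) ψ.G)) :=
    AdjoinRoot.isDomain_of_prime hp
  exact bg_tor h hf hp hG hD hG' hD' hP hP' ha ha1
    (FractionRing (AdjoinRoot (ga (K := K) (lnc c v) ψ.G)))

end GX
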