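import Pool.Agent.Lib.MP_f80667_ag.Ep.Sb
import Pool.Agent.Lib.MP_f80667_ag.Ep.Gd

/-!
Rational points near a rational point, in general position.

* `near_pt`: the points of a chart near a given point.
* `exists_genK`: a point near a given one where a polynomial is not `0`.
* `exists_bez`: a multiple of a polynomial without the variable `Y`.
-/

open ZC BE PE CV IntermediateField

namespace GX

section bez

/-- A nonzero constant in the ideal of `G` and `q`. -/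
theorem exists_bez {B : Type} [CommRing B] [IsDomain B] {G q : Polynomial B} (hm : G.Monic)
    (hp : Prime G) (hq : ¬ G ∣ q) : ∃ R : B, R ≠ 0 ∧ ∃ a b, a * G + b * q = Polynomial.C R := by
  have hd : IsDomain (AdjoinRoot G) := AdjoinRoot.isDomain_of_prime hp
  have hq0 : AdjoinRoot.mk G q ≠ 0 := fun h => hq (AdjoinRoot.mk_eq_zero.1 h)
  have hfin : Module.Finite B (AdjoinRoot G) := hm.finite_adjoinRoot
  have halg : IsAlgebraic B (AdjoinRoot.mk G q) :=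
    (Algebra.IsIntegral.isIntegral (R := B) (AdjoinRoot.mk G q)).isAlgebraic
  obtain ⟨R, hR, h1⟩ := halg.exists_nonzero_dvd (mem_nonZeroDivisors_of_ne_zero hq0)
  obtain ⟨b', hb'⟩ := h1
  obtain ⟨b, rfl⟩ := AdjoinRoot.mk_surjective b'
  have h2 : AdjoinRoot.mk G (Polynomial.C R - b * q) = 0 := by
    rw [map_sub, map_mul, AdjoinRoot.mk_C, sub_eq_zero, mul_comm]
    exact hb'
  obtain ⟨a, ha⟩ := AdjoinRoot.mk_eq_zero.1 h2
  refine ⟨R, hR, a, b, ?_⟩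
  linear_combination -ha

end bez

section gen

variable {K Ω : Type} [Field K] [CharZero K] [Field Ω] [Algebra K Ω] (L : Ld K Ω)

/-- A near point where a polynomial is not `0`. -/
theorem exists_genK {n : ℕ} {R : MvPolynomial (Fin n) K} (hR : R ≠ 0) (c : Fin n → K) {δ : ℝ}
    (hδ : 0 < δ) : ∃ c' : Fin n → K, MvPolynomial.eval c' R ≠ 0 ∧
      ∀ r, L.nm (algebraMap K Ω (c' r - c r)) ≤ δ := by
  obtain ⟨N, hN⟩ := exists_pow_lt_of_lt_one hδ L.lt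
  have hp0 : (L.p : K) ≠ 0 := Nat.cast_ne_zero.2 L.pp.ne_zero
  by_contra hcon
  push Not at hcon
  refine hR (MvPolynomial.funext_set (fun r => Set.range fun k : ℕ => c r + (L.p : K) ^ N * k)
    (fun r => Set.infinite_range_of_injective fun k l hkl => ?_) fun c' hc' => ?_)
  · have h1 : (L.p : K) ^ N * k = (L.p : K) ^ N * l := add_left_cancel hkl
    exact_mod_cast mul_left_cancel₀ (pow_ne_zero N hp0) h1
  · rw [map_zero]
    by_contra hne
    obtain ⟨r, hr⟩ := hcon c' hne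
    obtain ⟨k, hk⟩ := hc' r (Set.mem_univ r)
    refine absurd hr (not_lt.2 ?_)
    rw [← hk]
    have h2 : algebraMap K Ω (c r + (L.p : K) ^ N * (k : K) - c r) = (L.p : Ω) ^ N * (k : Ω) := by
      rw [add_sub_cancel_left, map_mul, map_pow, map_natCast, map_natCast]
    rw [h2, L.mul, L.pow]
    exact (mul_le_of_le_one_right (pow_nonneg (L.nonneg _) N) (L.nat_le k)).trans hN.le

end gen

variable {F : Type} [Field F] {N d : ℕ} {ι : Type} {f : ι → MvPolynomial (Fin N) F}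
  {K Ω : Type} [Field K] [CharZero K] [Field Ω] [Algebra K Ω] [Algebra F K] [Algebra F Ω]
  [IsScalarTower F K Ω] [IsAlgClosure K Ω] {L : Ld K Ω} {ψ : Prj K N d}

/-- **The near points in a chart.** -/
theorem near_pt (hψ : Pk f L ψ) {M : IntermediateField K Ω} {P : (Xf f).pt Ω} {x : Fin N → Ω}
    {k : Fin N} (hx : Co P x) (hxk : x k = 1) (hxM : Iv L M x)
    (hD : MvPolynomial.aeval (ψ.uv x) ψ.D ≠ 0) {t : ℝ} (ht : 0 < t) (ht1 : t < 1) :
    ∃ δ : ℝ, 0 < δ ∧ ∀ c' : Fin (d + 1) → Ω, (∀ r, c' r ∈ M) →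
      (∀ r, L.nm (c' r - ψ.uv x r) ≤ δ) → ∃ w' ∈ M, pe c' w' ψ.G = 0 ∧
        MvPolynomial.aeval c' ψ.D ≠ 0 ∧ ∃ P' : (Xf f).pt Ω,
          Co P' (fun j => pe c' w' (ψ.A j)) ∧ Nrh f L t P' P := by
  have hx1 : ∀ j, L.nm (x j) ≤ 1 := fun j => (hxM j).2
  have hc1 : ∀ r, L.nm (ψ.uv x r) ≤ 1 := fun r => lv_le (hψ.iu r) hx1
  have hcM : ∀ r, ψ.uv x r ∈ M := fun r => lv_mem (ψ.u r) fun j => (hxM j).1
  have hwM : ψ.yv x ∈ M := lv_mem ψ.y fun j => (hxM j).1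
  obtain ⟨hG0, hA0⟩ := hψ.onX x (co_ne hx) (co_zero hx)
  obtain ⟨δ, hδd⟩ : ∃ δ : ℝ, δ = L.nm (MvPolynomial.aeval (ψ.uv x) ψ.D) := ⟨_, rfl⟩
  have hδ : 0 < δ := hδd ▸ L.pos hD
  have hDx : δ ≤ L.nm (MvPolynomial.aeval (ψ.uv x) ψ.D) := hδd.le
  have hδ1 : δ ≤ 1 := hδd ▸ GM.ae_le (F := K) (K := K) hψ.iD hc1
  have hgy := hDx.trans (hψ.gy hc1 hG0)
  obtain ⟨τ, hτd⟩ : ∃ τ : ℝ, τ = t * δ ^ 6 := ⟨_, rfl⟩
  have hτ0 : 0 < τ := hτd ▸ mul_pos ht (pow_pos hδ 6)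
  have hτδ : ∀ n ≤ 6, τ < δ ^ n := fun n hn => by
    have h1 : t * δ ^ 6 < 1 * δ ^ 6 := mul_lt_mul_of_pos_right ht1 (pow_pos hδ 6)
    rw [one_mul, ← hτd] at h1
    exact h1.trans_le (pow_le_pow_of_le_one hδ.le hδ1 hn)
  have hτ1 : τ < 1 := by
    have h1 := hτδ 0 (by norm_num)
    rwa [pow_zero] at h1
  have hτδ1 : τ < δ := by
    have h1 := hτδ 1 (by norm_num)
    rwa [pow_one] at h1
  refine ⟨τ, hτ0, fun c' hc'M hcc => ?_⟩
  have hc1' : ∀ r, L.nm (c' r) ≤ 1 := by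
    intro r
    have e : c' r = (c' r - ψ.uv x r) + ψ.uv x r := by ring
    rw [e]
    exact (L.add _ _).trans (max_le ((hcc r).trans hτ1.le) (hc1 r))
  obtain ⟨w', hw', hww⟩ := hψ.root hc1 hc1' hG0 hτ0.le hcc hgy hδ hτδ1
  have hwδ : L.nm (w' - ψ.yv x) < δ := by
    refine lt_of_mul_lt_mul_right (hww.trans_lt ?_) hδ.le
    have h1 := hτδ 2 (by norm_num)
    rwa [pow_two] at h1
  have hw'M : w' ∈ M := hψ.root_mem (fun r => ⟨hcM r, hc1 r⟩) (fun r => ⟨hc'M r, hc1' r⟩) hwM hG0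
    hτ0.le hcc hgy hδ (hτδ 2 (by norm_num)) hw' hwδ
  have hDD : L.nm (MvPolynomial.aeval c' ψ.D - MvPolynomial.aeval (ψ.uv x) ψ.D) ≤ τ :=
    hψ.D_near hc1 hc1' hτ0.le hcc
  have hDa : δ ≤ L.nm (MvPolynomial.aeval c' ψ.D) := by
    rw [L.eq_of_close (hDD.trans_lt (hτδ1.trans_le hDx))]
    exact hDx
  have hD0 : MvPolynomial.aeval c' ψ.D ≠ 0 := L.ne_zero (hδ.trans_le hDa)
  obtain ⟨P', hP'⟩ := hψ.co hD0 hw'
  refine ⟨w', hw'M, hw', hD0, P', hP', ?_⟩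
  obtain ⟨z, hz⟩ : ∃ z : Fin N → Ω, z = (ψ.om Ω).pt c' w' := ⟨_, rfl⟩
  have hzco : Co P' z := by
    have h1 := co_smul hψ.hom hP' (inv_ne_zero hD0)
    have e : (fun j => (MvPolynomial.aeval c' ψ.D)⁻¹ * pe c' w' (ψ.A j)) = z := by
      funext j
      rw [hz, om_pt, div_eq_inv_mul]
    rw [e] at h1
    exact h1
  have hpx : ∀ j, (ψ.om Ω).pt (ψ.uv x) (ψ.yv x) j = x j := by
    intro j
    rw [om_pt, hA0 j, mul_div_cancel_left₀ _ hD]
  have htd0 : 0 ≤ τ / δ := div_nonneg hτ0.le hδ.le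
  have htd1 : τ / δ ≤ 1 := by rw [div_le_one hδ]; exact hτδ1.le
  have httd : τ ≤ τ / δ := by
    rw [le_div_iff₀ hδ]
    exact mul_le_of_le_one_right hτ0.le hδ1
  have hzx : ∀ j, L.nm (z j - x j) ≤ t := by
    intro j
    have h1 := (hψ.second hc1 hc1' hG0 hw' hδ hDx hDa htd0 htd1 (fun r => (hcc r).trans httd)
      (by rw [le_div_iff₀ hδ]; exact hww) j).1
    rw [hpx j, ← hz, le_div_iff₀ hδ] at h1
    have h2 : L.nm (z j - x j) * δ ^ 3 ≤ t * δ ^ 3 := by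
      calc L.nm (z j - x j) * δ ^ 3 = L.nm (z j - x j) * δ ^ 2 * δ := by ring
        _ ≤ τ := h1
        _ = t * δ ^ 6 := hτd
        _ ≤ t * δ ^ 3 :=
          mul_le_mul_of_nonneg_left (pow_le_pow_of_le_one hδ.le hδ1 (by norm_num)) ht.le
    exact le_of_mul_le_mul_right h2 (pow_pos hδ 3)
  refine nrh_symm (nrh_mk ht1 hx hzco hx1 (fun j => ?_) ⟨k, by rw [hxk, L.one]⟩ fun j => ?_)
  · have e : z j = (z j - x j) + x j := by ring
    rw [e]
    exact (L.add _ _).trans (max_le ((hzx j).trans ht1.le) (hx1 j))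
  · rw [L.sub_comm]
    exact hzx j

end GX
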