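import Pool.Agent.Lib.MP_f80667_ag.To.Ia
import Pool.Agent.Lib.MP_f80667_ag.Gx.XA

/-! The polynomial `G` of a projection of an irreducible variety is irreducible (without a given point). -/

open MvPolynomial ZC BE PE CV

namespace GX

variable {F : Type} [Field F] {N d : ℕ} {ι : Type} {f : ι → MvPolynomial (Fin N) F}
  {K Ω : Type} [Field K] [Field Ω] [Algebra K Ω] [Algebra F Ω] {ψ : Prj K N d}

/-- Proof: `irr_prime` at a point `c` with `D (c) ≠ 0`. -/
theorem irr_G [IsAlgClosed Ω] (hI : Irr f Ω) (hf : Hm f)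
    (h : (ψ.map (algebraMap K Ω)).Ok fun i => MvPolynomial.map (algebraMap F Ω) (f i))
    (hD : ψ.D ≠ 0) (hn : ψ.G.natDegree ≠ 0) : Irreducible ψ.G := by
  have hm : ψ.G.Monic := (Function.Injective.monic_map_iff
    (MvPolynomial.map_injective _ (algebraMap K Ω).injective)).2 h.mon
  have hf' : ∀ i, ∃ e, (fo f Ω i).IsHomogeneous e := fun i => by
    obtain ⟨e, he⟩ := hf i
    exact ⟨e, he.map _⟩
  have hinf : Infinite Ω := IsAlgClosed.instInfinite
  have hD' : (ψ.om Ω).D ≠ 0 := by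
    intro h0
    apply hD
    exact MvPolynomial.map_injective _ (algebraMap K Ω).injective (h0.trans (map_zero _).symm)
  obtain ⟨c, hc⟩ : ∃ c, eval c (ψ.om Ω).D ≠ 0 := by
    by_contra h1
    push Not at h1
    exact hD' (MvPolynomial.funext fun c => (h1 c).trans (map_zero _).symm)
  obtain ⟨h1, h2⟩ := h.gc_mon c
  have h3 : (ψ.om Ω).G.natDegree = ψ.G.natDegree := hm.natDegree_map _
  obtain ⟨w, hw⟩ := IsAlgClosed.exists_root ((ψ.om Ω).gc c) (by
    rw [Polynomial.degree_eq_natDegree h1.ne_zero, h2, h3]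
    exact_mod_cast hn)
  rw [Polynomial.IsRoot.def, Prj.gc_eval] at hw
  exact (irr_prime (f := fo f Ω) h hf' hI hw hc hm).irreducible

end GX
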