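import Pool.Agent.Lib.MP_f80667_ag.To.Lb

/-!
Irreducible lines, the theorem.
-/

open Polynomial GM

namespace GX

section pol

variable {S : Type} [CommRing S] {D n : ℕ}

/-- The polynomial with the coefficients `a`. -/
private noncomputable def lpl (a : Fin (D + 1) × Fin n → S) : S[X][X] :=
  ∑ q, C (C (a q) * X ^ (q.1 : ℕ)) * X ^ (q.2 : ℕ)

private theorem lpl_pse (a : Fin (D + 1) × Fin n → S) (W : PowerSeries S) (l : ℕ) :
    PowerSeries.coeff l (pse 0 W (lpl a)) =
      ∑ q, a q * PowerSeries.coeff l (PowerSeries.X ^ (q.1 : ℕ) * W ^ (q.2 : ℕ)) := by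
  unfold lpl
  rw [map_sum, map_sum]
  refine Finset.sum_congr rfl fun q _ => ?_
  have h : pse 0 W (C (C (a q) * X ^ (q.1 : ℕ)) * X ^ (q.2 : ℕ)) =
      PowerSeries.C (a q) * (PowerSeries.X ^ (q.1 : ℕ) * W ^ (q.2 : ℕ)) := by
    rw [map_mul, map_pow, pse_Y, C_mul, map_mul, pse_C, C_pow, map_pow, pse_z, map_zero,
      zero_add, mul_assoc]
  rw [h, PowerSeries.coeff_C_mul]

private theorem lpl_coeff (a : Fin (D + 1) × Fin n → S) (q : Fin (D + 1) × Fin n) :
    ((lpl a).coeff (q.2 : ℕ)).coeff (q.1 : ℕ) = a q := by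
  unfold lpl
  rw [finsetSum_coeff, finsetSum_coeff, Finset.sum_eq_single q]
  · rw [coeff_C_mul_X_pow, if_pos rfl, coeff_C_mul_X_pow, if_pos rfl]
  · intro q' _ hq'
    rw [coeff_C_mul_X_pow]
    by_cases h1 : (q.2 : ℕ) = (q'.2 : ℕ)
    · rw [if_pos h1, coeff_C_mul_X_pow]
      by_cases h2 : (q.1 : ℕ) = (q'.1 : ℕ)
      · exact absurd (Prod.ext (Fin.ext h2.symm) (Fin.ext h1.symm)) hq'
      · rw [if_neg h2]
    · rw [if_neg h1, coeff_zero]
  · intro h
    exact absurd (Finset.mem_univ q) h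

private theorem lpl_eq {f : S[X][X]} (h1 : f.natDegree < n)
    (h2 : ∀ j, (f.coeff j).natDegree ≤ D) :
    lpl (fun q : Fin (D + 1) × Fin n => (f.coeff (q.2 : ℕ)).coeff (q.1 : ℕ)) = f := by
  ext j i
  by_cases hj : j < n
  · by_cases hi : i < D + 1
    · exact lpl_coeff _ ((⟨i, hi⟩, ⟨j, hj⟩) : Fin (D + 1) × Fin n)
    · unfold lpl
      rw [finsetSum_coeff, finsetSum_coeff,
        coeff_eq_zero_of_natDegree_lt ((h2 j).trans_lt (by omega))]
      refine Finset.sum_eq_zero fun q _ => ?_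
      rw [coeff_C_mul_X_pow]
      split_ifs with h3
      · rw [coeff_C_mul_X_pow, if_neg]
        have := q.1.2
        omega
      · rw [coeff_zero]
  · unfold lpl
    rw [finsetSum_coeff, finsetSum_coeff, coeff_eq_zero_of_natDegree_lt (h1.trans_le (by omega)),
      coeff_zero]
    refine Finset.sum_eq_zero fun q _ => ?_
    rw [coeff_C_mul_X_pow, if_neg, coeff_zero]
    have := q.2.2
    omega

private theorem lpl_deg (hn : 0 < n) (a : Fin (D + 1) × Fin n → S) : (lpl a).natDegree < n := by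
  have h : (lpl a).natDegree ≤ n - 1 := by
    refine natDegree_sum_le_of_forall_le _ _ fun q _ => (natDegree_C_mul_X_pow_le _ _).trans ?_
    have := q.2.2
    omega
  omega

end pol

variable {k : Type} [Field k] {d : ℕ}

/-- **Irreducible lines.** -/
theorem exists_line {G : Polynomial (MvPolynomial (Fin (d + 1)) k)} (hm : G.Monic)
    (hi : Irreducible G) {c : Fin (d + 1) → k} {w : k} (h0 : pe c w G = 0)
    (h1 : pe c w (derivative G) ≠ 0) :
    ∃ Θ : MvPolynomial (Fin (d + 1)) k, Θ ≠ 0 ∧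
      ∀ v, MvPolynomial.eval v Θ ≠ 0 → Prime (lnp c v G) := by
  classical
  obtain ⟨W, hW0, hW⟩ := exists_hr (g := lgp c G) (P := (0, MvPolynomial.C w))
    (by rw [ev_lgp, h0, map_zero])
    (by
      rw [dy_lgp, ev_lgp]
      exact (IsUnit.mk0 _ h1).map MvPolynomial.C)
  have hn : 0 < G.natDegree := by
    rcases Nat.eq_zero_or_pos G.natDegree with h | h
    · rw [hm.natDegree_eq_zero.1 h] at hi
      exact absurd hi not_irreducible_one
    · exact h
  obtain ⟨D, hD⟩ : ∃ D, ∀ j, (G.coeff j).totalDegree ≤ D := by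
    refine ⟨G.support.sup fun j => (G.coeff j).totalDegree, fun j => ?_⟩
    by_cases hj : j ∈ G.support
    · exact Finset.le_sup (f := fun j => (G.coeff j).totalDegree) hj
    · rw [notMem_support_iff.1 hj, MvPolynomial.totalDegree_zero]
      exact Nat.zero_le _
  obtain ⟨u, hu⟩ : ∃ u : Fin (D + 1) × Fin G.natDegree → ℕ → MvPolynomial (Fin (d + 1)) k,
      ∀ q l, u q l = PowerSeries.coeff l (PowerSeries.X ^ (q.1 : ℕ) * W ^ (q.2 : ℕ)) :=
    ⟨_, fun _ _ => rfl⟩
  obtain ⟨e, he⟩ := exists_minor u fun a ha => by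
    have h2 : pse 0 W (lpl a) = 0 := by
      refine PowerSeries.ext fun l => ?_
      rw [lpl_pse, map_zero, ← ha l]
      exact Finset.sum_congr rfl fun q _ => by rw [hu]
    have h3 := lgp_ind hm hi hW (lpl_deg hn a) h2
    funext q
    rw [← lpl_coeff a q, h3, coeff_zero, coeff_zero, Pi.zero_apply]
  refine ⟨_, he, fun v hv => ?_⟩
  obtain ⟨W₀, hW₀⟩ : ∃ W₀, W₀ = PowerSeries.map (MvPolynomial.eval v) W := ⟨_, rfl⟩
  have hpW : pse 0 W₀ (lnp c v G) = 0 := by
    have h2 := pse_map (MvPolynomial.eval v) 0 W (lgp c G)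
    rw [up_lgp, map_zero, hW, map_zero, ← hW₀] at h2
    exact h2
  have hmg : (lnp c v G).Monic := hm.map _
  have hng : (lnp c v G).natDegree = G.natDegree := hm.natDegree_map _
  have hcf : ∀ j, ((lnp c v G).coeff j).natDegree ≤ D := by
    intro j
    unfold lnp
    rw [coeff_map]
    have h2 := MvPolynomial.aeval_natDegree_le (G.coeff j) (hD j)
      (fun r => C (c r) + C (v r) * X) (n := 1) fun r => by
        refine (natDegree_add_le _ _).trans (max_le ?_ ?_)
        · rw [natDegree_C]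
          exact zero_le_one
        · exact (natDegree_C_mul_le _ _).trans natDegree_X_le
    rw [mul_one] at h2
    exact h2
  have key : ∀ f g : k[X][X], f.Monic → g.Monic → f * g = lnp c v G → 0 < g.natDegree →
      pse 0 W₀ f ≠ 0 := by
    intro f g hf hg hfg hpos h2
    have h3 : f.natDegree < G.natDegree := by
      rw [← hng, ← hfg, hf.natDegree_mul hg]
      omega
    have h4 := deg_factor hfg.symm hmg.ne_zero hcf
    have h5 := lpl_eq h3 h4
    have h6 : (fun q : Fin (D + 1) × Fin G.natDegree =>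
        (f.coeff (q.2 : ℕ)).coeff (q.1 : ℕ)) = 0 := by
      refine Matrix.eq_zero_of_vecMul_eq_zero (M := Matrix.of fun q p =>
        MvPolynomial.eval v (u q (e p))) ?_ ?_
      · have h7 : (Matrix.of fun q p => MvPolynomial.eval v (u q (e p))) =
            (MvPolynomial.eval v).mapMatrix (Matrix.of fun q p => u q (e p)) := by
          ext q p
          rfl
        rw [h7, ← RingHom.map_det]
        exact hv
      · funext p
        have h7 := lpl_pse (fun q : Fin (D + 1) × Fin G.natDegree =>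
          (f.coeff (q.2 : ℕ)).coeff (q.1 : ℕ)) W₀ (e p)
        rw [h5, h2, map_zero] at h7
        rw [Pi.zero_apply, h7]
        refine Finset.sum_congr rfl fun q _ => ?_
        change (f.coeff (q.2 : ℕ)).coeff (q.1 : ℕ) * MvPolynomial.eval v (u q (e p)) = _
        rw [hu, ← PowerSeries.coeff_map, map_mul, map_pow, map_pow, PowerSeries.map_X, ← hW₀]
    refine hf.ne_zero ?_
    rw [← h5, h6]
    unfold lpl
    refine Finset.sum_eq_zero fun q _ => ?_
    rw [Pi.zero_apply, C_0, zero_mul, C_0, zero_mul]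
  have hirr : Irreducible (lnp c v G) := by
    rw [hmg.irreducible_iff_natDegree]
    refine ⟨fun h => ?_, fun f g hf hg hfg => ?_⟩
    · rw [h, natDegree_one] at hng
      omega
    · by_contra hne
      rw [not_or] at hne
      have h2 : pse 0 W₀ f * pse 0 W₀ g = 0 := by rw [← map_mul, hfg, hpW]
      rcases mul_eq_zero.1 h2 with h3 | h3
      · exact key f g hf hg hfg (Nat.pos_of_ne_zero hne.2) h3
      · exact key g f hg hf (by rw [mul_comm, hfg]) (Nat.pos_of_ne_zero hne.1) h3
  exact hirr.prime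

end GX
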