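import Pool.Agent.Lib.MP_f80667_ag.To.Dg
import Pool.Agent.Lib.MP_f80667_ag.To.Bg
import Pool.Agent.Lib.MP_f80667_ag.To.Lc
import Pool.Agent.Lib.MP_f80667_ag.To.Ic
import Pool.Agent.Lib.MP_f80667_ag.To.Da

/-! Two rational points. -/

open ZC BE PE CV IntermediateField

namespace GX

/-- The line. -/
theorem ga_lnc {K : Type} [Field K] {d : ℕ} (c v : Fin (d + 1) → K)
    (G : Polynomial (MvPolynomial (Fin (d + 1)) K)) : ga (K := K) (lnc c v) G = lnp c v G := rfl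

variable {F : Type} [Field F] {N d : ℕ} {ι : Type} {f : ι → MvPolynomial (Fin N) F}
  {K Ω : Type} [Field K] [CharZero K] [Field Ω] [Algebra K Ω] [Algebra F K] [Algebra F Ω]
  [IsScalarTower F K Ω] [IsAlgClosure K Ω] {L : Ld K Ω} {a : Ω}

omit [CharZero K] [IsAlgClosure K Ω] in
/-- The values at points over `K`. -/
private theorem dc_zero {x : Fin N → Ω} {y : Fin N → K} (hy : ∀ j, algebraMap K Ω (y j) = x j)
    {P : (Xf f).pt Ω} (hx : Co P x) (i : ι) :
    MvPolynomial.aeval y (MvPolynomial.map (algebraMap F K) (f i)) = 0 := by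
  have h1 := co_zero hx i
  have h2 : x = fun j => algebraMap K Ω (y j) := funext fun j => (hy j).symm
  have h3 : MvPolynomial.aeval (fun j => algebraMap K Ω (y j)) (f i) =
      algebraMap K Ω (MvPolynomial.aeval y (f i)) :=
    MvPolynomial.aeval_algebraMap_apply Ω y (f i)
  rw [h2, h3, map_eq_zero] at h1
  rw [MvPolynomial.aeval_map_algebraMap]
  exact h1

omit [CharZero K] [Algebra F K] [Algebra F Ω] [IsScalarTower F K Ω] [IsAlgClosure K Ω] in
private theorem dc_uv {x : Fin N → Ω} {y : Fin N → K} (hy : ∀ j, algebraMap K Ω (y j) = x j)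
    (ψ : Prj K N d) : ψ.uv x = fun r => algebraMap K Ω (ψ.uv y r) := by
  funext r
  rw [Prj.uv, Prj.uv, lv, lv, map_sum]
  refine Finset.sum_congr rfl fun j _ => ?_
  rw [map_mul, hy]
  rfl

/-- **Two rational points.** -/
theorem tor_pts [CharZero F] (hf : Nsg f d) (hI : Irr f Ω) (ha : a ≠ 0) (ha1 : L.nm a < 1)
    {P P' : (Xf f).pt Ω} (hP : Fp (Xf f) (⊥ : IntermediateField K Ω) P)
    (hP' : Fp (Xf f) (⊥ : IntermediateField K Ω) P') :
    Tor f L (L.nm a) (Finsupp.single P' 1 - Finsupp.single P 1) := by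
  classical
  have hac : IsAlgClosed Ω := IsAlgClosure.isAlgClosed K
  have hpos : 0 < L.nm a := L.pos ha
  have hinf : Infinite K := CharZero.infinite K
  obtain ⟨m₀, φ₀, h₀, hc₀⟩ := hf.exists_prj
  obtain ⟨m, ψ₀, h, hcv, hD₀⟩ := xf_drop h₀ hc₀
  choose ψ hψ hs using fun i => exists_pk (L := L) hf.hom (h i)
  obtain ⟨ε, hε, hcov⟩ := exists_cov (L := L) hf.hom (fun i => by
    obtain ⟨e, -, he⟩ := (h i).homD
    exact ⟨e, he⟩) hcv hs
  have hFK : Function.Injective (MvPolynomial.map (σ := Fin (d + 1)) (algebraMap F K)) :=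
    MvPolynomial.map_injective _ (algebraMap F K).injective
  have hbot : ∀ y ∈ (⊥ : IntermediateField K Ω), ∃ z : K, algebraMap K Ω z = y := fun y hy =>
    IntermediateField.mem_bot.1 hy
  -- the first point
  obtain ⟨x, k, hx, hxk, hx1⟩ := exists_nco (L := L) hf.hom P
  choose y hy using fun j => hbot (x j) (fp_mem hP hx hxk j)
  obtain ⟨i, hi⟩ := (hcv.map (algebraMap F Ω)).exists_ne (om_zp.2 ⟨co_ne hx, co_zero hx⟩)
  obtain ⟨ψ₁, hψ₁⟩ : ∃ ψ₁ : Prj K N d, ψ₁ = (ψ₀ i).map (algebraMap F K) := ⟨_, rfl⟩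
  have hΩ : ψ₁.map (algebraMap K Ω) = (ψ₀ i).map (algebraMap F Ω) := by
    rw [hψ₁, Prj.map_map, ← IsScalarTower.algebraMap_eq F K Ω]
  have hok : ψ₁.Ok fun i => MvPolynomial.map (algebraMap F K) (f i) := by
    rw [hψ₁]
    exact (h i).map _
  have hokΩ : (ψ₁.map (algebraMap K Ω)).Ok fun i => MvPolynomial.map (algebraMap F Ω) (f i) := by
    rw [hΩ]
    exact (h i).map _
  have hD₁ : ψ₁.D ≠ 0 := by
    rw [hψ₁]
    exact (map_ne_zero_iff _ hFK).2 (hD₀ i)
  have hyk : y k = 1 := (algebraMap K Ω).injective (by rw [hy, hxk, map_one])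
  obtain ⟨hG0, hA0⟩ := hok.on_pt (S := K) (x := y) (k := k) (dc_zero hy hx)
    (by rw [hyk]; exact isUnit_one)
  have hDc : MvPolynomial.eval (ψ₁.uv y) ψ₁.D ≠ 0 := by
    intro h0
    apply hi
    rw [← hΩ, uv_map, dc_uv hy]
    change MvPolynomial.eval _ (MvPolynomial.map (algebraMap K Ω) ψ₁.D) = 0
    rw [MvPolynomial.eval_map]
    have h2 : MvPolynomial.aeval (fun r => algebraMap K Ω (ψ₁.uv y r)) ψ₁.D =
        algebraMap K Ω (MvPolynomial.aeval (ψ₁.uv y) ψ₁.D) :=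
      MvPolynomial.aeval_algebraMap_apply Ω (ψ₁.uv y) ψ₁.D
    refine h2.trans ?_
    change algebraMap K Ω (MvPolynomial.eval (ψ₁.uv y) ψ₁.D) = 0
    rw [h0, map_zero]
  have hn : ψ₁.G.natDegree ≠ 0 := by
    intro h0
    rw [Polynomial.eq_one_of_monic_natDegree_zero hok.mon h0, map_one] at hG0
    exact one_ne_zero hG0
  have hirr : Irreducible ψ₁.G := irr_G hI hf.hom hokΩ hD₁ hn
  have hder : pe (ψ₁.uv y) (ψ₁.yv y) (Polynomial.derivative ψ₁.G) ≠ 0 := by
    intro h0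
    obtain ⟨B, B', hB⟩ := hok.bez
    have h1 := congrArg (pe (ψ₁.uv y) (ψ₁.yv y)) hB
    rw [map_add, map_mul, map_mul, hG0, h0, mul_zero, mul_zero, add_zero, pe_C] at h1
    exact hDc h1.symm
  obtain ⟨Θ, hΘ, hline⟩ := exists_line hok.mon hirr hG0 hder
  -- the condition on the second point
  obtain ⟨Θ', hΘ'⟩ : ∃ Θ' : MvPolynomial (Fin (d + 1)) K, ∀ u : Fin (d + 1) → K,
      MvPolynomial.eval u Θ' = MvPolynomial.eval (u - ψ₁.uv y) Θ := by
    refine ⟨MvPolynomial.aeval (fun s => MvPolynomial.X s - MvPolynomial.C (ψ₁.uv y s)) Θ,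
      fun u => ?_⟩
    have h1 : ((MvPolynomial.aeval u : MvPolynomial (Fin (d + 1)) K →ₐ[K] K).comp
        (MvPolynomial.aeval fun s => MvPolynomial.X s - MvPolynomial.C (ψ₁.uv y s))) =
        MvPolynomial.aeval (u - ψ₁.uv y) := by
      refine MvPolynomial.algHom_ext fun s => ?_
      simp
    exact DFunLike.congr_fun h1 Θ
  have hΘ0 : Θ' ≠ 0 := by
    intro h0
    refine hΘ (MvPolynomial.funext fun v => ?_)
    have h1 := hΘ' (v + ψ₁.uv y)
    rw [h0, map_zero, add_sub_cancel_right] at h1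
    rw [map_zero]
    exact h1.symm
  -- the second point
  obtain ⟨x', k', hx', hxk', hx1'⟩ := exists_nco (L := L) hf.hom P'
  obtain ⟨i', hi'⟩ := hcov x' hx1' ⟨k', by rw [hxk', L.one]⟩ (co_zero hx')
  have hD' : MvPolynomial.aeval ((ψ i').uv x') (ψ i').D ≠ 0 := L.ne_zero (hε.trans_le hi')
  have hn' : (ψ i').G.natDegree ≠ 0 := by
    intro h0
    have h1 := ((hψ i').onX x' (co_ne hx') (co_zero hx')).1
    rw [Polynomial.eq_one_of_monic_natDegree_zero (hψ i').mon h0, map_one] at h1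
    exact one_ne_zero h1
  have hirr' : Irreducible (ψ i').G := irr_G hI hf.hom (hψ i').ok (fun h0 => hD' (by
    rw [h0, map_zero])) hn'
  obtain ⟨Q, hQ, z, hz, hr⟩ := exists_gen_near hI hf.hom hokΩ hD₁ hn (hψ i') hirr'.prime
    (mul_ne_zero hD₁ hΘ0) hx' hxk' (fun j => ⟨fp_mem hP' hx' hxk' j, hx1' j⟩) hD' hpos ha1
  rw [map_mul, hΘ'] at hr
  obtain ⟨hr1, hr2⟩ := mul_ne_zero_iff.1 hr
  have hQf : Fp (Xf f) (⊥ : IntermediateField K Ω) Q := fp_co hz fun j =>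
    IntermediateField.algebraMap_mem _ _
  obtain ⟨l, hl⟩ : ∃ l, z l ≠ 0 := by
    by_contra hcon
    push Not at hcon
    exact co_ne hz (funext fun j => by rw [hcon j, map_zero]; rfl)
  obtain ⟨hG1, hA1⟩ := hok.on_pt (S := K) (x := z) (k := l) (dc_zero (fun _ => rfl) hz)
    (isUnit_iff_ne_zero.2 hl)
  obtain ⟨v, hv⟩ : ∃ v, v = ψ₁.uv z - ψ₁.uv y := ⟨_, rfl⟩
  have hcv1 : ψ₁.uv y + v = ψ₁.uv z := by rw [hv, add_sub_cancel]
  rw [← hv] at hr2
  have hco : ∀ {R : (Xf f).pt Ω} {b : Fin N → K}, (∀ j, pe (ψ₁.uv b) (ψ₁.yv b) (ψ₁.A j) =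
      MvPolynomial.aeval (ψ₁.uv b) ψ₁.D * b j) → MvPolynomial.eval (ψ₁.uv b) ψ₁.D ≠ 0 →
      Co R (fun j => algebraMap K Ω (b j)) →
        Co R fun j => algebraMap K Ω (pe (ψ₁.uv b) (ψ₁.yv b) (ψ₁.A j)) := by
    intro R b h1 h2 h3
    have h4 := co_smul hf.hom h3 (c := algebraMap K Ω (MvPolynomial.eval (ψ₁.uv b) ψ₁.D))
      ((map_ne_zero_iff _ (algebraMap K Ω).injective).2 h2)
    have h5 : (fun j => algebraMap K Ω (pe (ψ₁.uv b) (ψ₁.yv b) (ψ₁.A j))) =
        fun j => algebraMap K Ω (MvPolynomial.eval (ψ₁.uv b) ψ₁.D) * algebraMap K Ω (b j) := by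
      funext j
      rw [h1, map_mul]
      rfl
    rw [h5]
    exact h4
  have hPx : Co P (fun j => algebraMap K Ω (y j)) := by
    have h1 : (fun j => algebraMap K Ω (y j)) = x := funext hy
    rw [h1]
    exact hx
  have t1 : Tor f L (L.nm a) (Finsupp.single Q 1 - Finsupp.single P 1) := by
    refine ln_tor hok hf.hom (c := ψ₁.uv y) (v := v) (w := ψ₁.yv y) (w' := ψ₁.yv z) ?_ hG0 hDc ?_
      ?_ (hco hA0 hDc hPx) ?_ ha ha1
    · rw [ga_lnc]
      exact hline v hr2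
    · rw [hcv1]
      exact hG1
    · rw [hcv1]
      exact hr1
    · rw [hcv1]
      exact hco hA1 hr1 hz
  have t2 : Tor f L (L.nm a) (Finsupp.single P' 1 - Finsupp.single Q 1) :=
    tor_near hf.hom hpos.le ha1 hQ hQf hP'
  have e : (Finsupp.single P' 1 - Finsupp.single P 1 : (Xf f).pt Ω →₀ ℤ) =
      (Finsupp.single P' 1 - Finsupp.single Q 1) + (Finsupp.single Q 1 - Finsupp.single P 1) := by
    abel
  rw [e]
  exact t2.add t1

end GX
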