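import Pool.Agent.Lib.MP_f80667_ag.To.Da

/-!
From the differences of two points to the cycles of degree `0`.

* `exists_sf`: finitely many points are defined over a finite extension.
* `tor_deg`: if `[P'] - [P]` is torsion for all points over all finite extensions `E`, all cycles of degree `0` are.
-/

open ZC BE PE CV IntermediateField

namespace GX

variable {F : Type} [Field F] {N : ℕ} {ι : Type} {f : ι → MvPolynomial (Fin N) F}
  {K Ω : Type} [Field K] [Field Ω] [Algebra K Ω] [Algebra F K] [Algebra F Ω]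
  [IsScalarTower F K Ω] {L : Ld K Ω} {t : ℝ} {z : (Xf f).pt Ω →₀ ℤ} [CharZero K]
  [IsAlgClosure K Ω]


/-- Finitely many points. -/
theorem exists_sf (S : Finset ((Xf f).pt Ω)) : ∃ E : IntermediateField K Ω,
    FiniteDimensional K E ∧ ∀ P ∈ S, Fp (Xf f) E P := by
  classical
  induction S using Finset.induction_on with
  | empty =>
    exact ⟨⊥, inferInstance, fun P hP => absurd hP (Finset.notMem_empty P)⟩
  | insert Q S _ ih =>
    obtain ⟨E, hE, h⟩ := ih
    obtain ⟨M, hM, hQ⟩ := exists_fph (K := K) Q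
    refine ⟨E ⊔ M, inferInstance, fun P hP γ hγ => ?_⟩
    rcases Finset.mem_insert.1 hP with rfl | hP
    · exact hQ γ (IntermediateField.fixingSubgroup_antitone (le_sup_right : M ≤ E ⊔ M) hγ)
    · exact h P hP γ (IntermediateField.fixingSubgroup_antitone (le_sup_left : E ≤ E ⊔ M) hγ)

/-- **Cycles of degree `0`.** -/
theorem tor_deg (hf : Hm f) (h0 : 0 ≤ t) (h1 : t < 1)
    (hpts : ∀ (E : IntermediateField K Ω) [FiniteDimensional K E] (P P' : (Xf f).pt Ω),
      Fp (Xf f) E P → Fp (Xf f) E P' →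
        Tor f (xt L E) t (Finsupp.single P' 1 - Finsupp.single P 1))
    (hz : z ∈ (Xf f).cyc K Ω) (hd : (Xf f).deg Ω z = 0) : Tor f L t z := by
  classical
  by_cases hS : z.support = ∅
  · rw [Finsupp.support_eq_empty.1 hS]
    exact Tor.zero
  obtain ⟨P₀, hP₀⟩ := Finset.nonempty_iff_ne_empty.2 hS
  obtain ⟨E, hE, hfp⟩ := exists_sf (K := K) z.support
  refine Tor.down hf E hz h0 h1 ?_
  have h2 : (Xf f).deg Ω z = ∑ P ∈ z.support, z P := by
    rw [Vr.deg, Finsupp.liftAddHom_apply, Finsupp.sum]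
    rfl
  have e1 : z = ∑ P ∈ z.support, z P • (Finsupp.single P 1 - Finsupp.single P₀ 1 :
      (Xf f).pt Ω →₀ ℤ) := by
    simp only [smul_sub, Finset.sum_sub_distrib]
    rw [← Finset.sum_smul, ← h2, hd, zero_smul, sub_zero]
    conv_lhs => rw [← Finsupp.sum_single z]
    rw [Finsupp.sum]
    exact Finset.sum_congr rfl fun P _ => by rw [Finsupp.smul_single, smul_eq_mul, mul_one]
  rw [e1]
  exact Tor.sum _ fun P hP => (hpts E P₀ P (hfp P₀ hP₀) (hfp P hP)).zsmul _

end GX
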