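import Pool.Agent.Lib.MP_f80667_ag.To.A
import Pool.Agent.Lib.MP_f80667_ag.To.Db
import Pool.Agent.Lib.MP_f80667_ag.Ep.Xf

/-!
Rational points near a rational point, in general position for a projection.
-/

open ZC BE PE CV IntermediateField

namespace GX

variable {F : Type} [Field F] {N d : ℕ} {ι : Type} {f : ι → MvPolynomial (Fin N) F}
  {K Ω : Type} [Field K] [CharZero K] [Field Ω] [Algebra K Ω] [Algebra F K] [Algebra F Ω]
  [IsScalarTower F K Ω] [IsAlgClosure K Ω] {L : Ld K Ω}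

omit [CharZero K] in
/-- The value of a composition. -/
private theorem dg_pe {S : Type} [CommRing S] [Algebra K S]
    (A : Fin (d + 1) → Polynomial (MvPolynomial (Fin (d + 1)) K))
    (r : MvPolynomial (Fin (d + 1)) K) (c : Fin (d + 1) → S) (w : S) :
    pe c w (MvPolynomial.aeval A r) = MvPolynomial.aeval (fun s => pe c w (A s)) r := by
  rw [MvPolynomial.aeval_def, MvPolynomial.aeval_def, MvPolynomial.eval₂_comp_left]
  have h : (pe c w).comp (algebraMap K (Polynomial (MvPolynomial (Fin (d + 1)) K))) =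
      algebraMap K S := by
    refine RingHom.ext fun a => ?_
    rw [RingHom.comp_apply, Polynomial.algebraMap_apply, pe_C, AlgHom.commutes]
  rw [h]
  rfl

/-- The polynomial `r (u (A'))`. -/
private noncomputable def dgq (ψ ψ' : Prj K N d) (r : MvPolynomial (Fin (d + 1)) K) :
    Polynomial (MvPolynomial (Fin (d + 1)) K) :=
  MvPolynomial.aeval (fun s => ∑ j, Polynomial.C (MvPolynomial.C (ψ.u s j)) * ψ'.A j) r

omit [CharZero K] in
private theorem dgq_pe {S : Type} [CommRing S] [Algebra K S] (ψ ψ' : Prj K N d)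
    (r : MvPolynomial (Fin (d + 1)) K) (c : Fin (d + 1) → S) (w : S) :
    pe c w (dgq ψ ψ' r) = MvPolynomial.aeval (ψ.uv fun j => pe c w (ψ'.A j)) r := by
  unfold dgq
  rw [dg_pe]
  congr 2
  funext s
  rw [Prj.uv, lv, map_sum]
  refine Finset.sum_congr rfl fun j _ => ?_
  rw [map_mul, pe_C, ← MvPolynomial.algebraMap_eq, AlgHom.commutes]

omit [CharZero K] [Algebra F K] [IsScalarTower F K Ω] in
/-- A polynomial is not `0` at the values of `u`. -/
private theorem dg_pt (hf : Hm f) {ψ : Prj K N d}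
    (h : (ψ.map (algebraMap K Ω)).Ok fun i => MvPolynomial.map (algebraMap F Ω) (f i))
    (hD : ψ.D ≠ 0) (hn : ψ.G.natDegree ≠ 0) {r : MvPolynomial (Fin (d + 1)) K} (hr : r ≠ 0) :
    ∃ x, Zp (fo f Ω) x ∧ MvPolynomial.aeval (ψ.uv x) r ≠ 0 := by
  have hac : IsAlgClosed Ω := IsAlgClosure.isAlgClosed K
  have hinf : Infinite Ω := IsAlgClosed.instInfinite
  have h0 : MvPolynomial.map (algebraMap K Ω) (r * ψ.D) ≠ 0 := by
    rw [Ne, map_eq_zero_iff _ (MvPolynomial.map_injective _ (algebraMap K Ω).injective)]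
    exact mul_ne_zero hr hD
  obtain ⟨c, hc⟩ : ∃ c : Fin (d + 1) → Ω, MvPolynomial.aeval c (r * ψ.D) ≠ 0 := by
    by_contra hcon
    push Not at hcon
    refine h0 (MvPolynomial.funext fun c => ?_)
    rw [map_zero, MvPolynomial.eval_map]
    exact hcon c
  rw [map_mul] at hc
  obtain ⟨hc1, hc2⟩ := mul_ne_zero_iff.1 hc
  have hm : (ψ.map (algebraMap K Ω)).G.Monic := h.mon
  have hm' : ψ.G.Monic := Polynomial.monic_of_injective
    (MvPolynomial.map_injective _ (algebraMap K Ω).injective) hm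
  obtain ⟨w, hw⟩ := IsAlgClosed.exists_root (ψ.G.map
    (MvPolynomial.aeval c : MvPolynomial (Fin (d + 1)) K →ₐ[K] Ω).toRingHom) (by
      rw [hm'.degree_map]
      intro h1
      exact hn (Polynomial.natDegree_eq_of_degree_eq_some h1))
  have hG : pe c w ψ.G = 0 := by
    rw [Polynomial.IsRoot.def, Polynomial.eval_map] at hw
    exact hw
  obtain ⟨h1, h2, -⟩ := h.pt_zp (om_hom hf) (c := c) (w := w)
    (by
      change pe c w (ψ.om Ω).G = 0
      rw [om_G]
      exact hG) (by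
      change MvPolynomial.eval c (ψ.om Ω).D ≠ 0
      rw [om_D]
      exact hc2)
  refine ⟨_, h1, ?_⟩
  have h3 : ψ.uv ((ψ.map (algebraMap K Ω)).pt c w) = c := by
    rw [← uv_map (R' := Ω)]
    exact h2
  rw [h3]
  exact hc1

omit [CharZero K] in
/-- The polynomial `r (u (A'))` is not `0` on the hypersurface. -/
private theorem dg_dvd (hI : Irr f Ω) (hf : Hm f) {ψ ψ' : Prj K N d}
    (h : (ψ.map (algebraMap K Ω)).Ok fun i => MvPolynomial.map (algebraMap F Ω) (f i))
    (hD : ψ.D ≠ 0) (hn : ψ.G.natDegree ≠ 0) (hψ' : Pk f L ψ') {x₀ : Fin N → Ω}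
    (hx₀ : Zp (fo f Ω) x₀) (hD' : MvPolynomial.aeval (ψ'.uv x₀) ψ'.D ≠ 0)
    {r : MvPolynomial (Fin (d + 1)) K} {m : ℕ} (hr : r.IsHomogeneous m) (hr0 : r ≠ 0) :
    ¬ ψ'.G ∣ dgq ψ ψ' r := by
  intro hdvd
  obtain ⟨x₁, hx₁, hx₁'⟩ := dg_pt (Ω := Ω) hf h hD hn hr0
  obtain ⟨a, ha⟩ : ∃ a : MvPolynomial (Fin N) Ω, ∀ x : Fin N → Ω, MvPolynomial.eval x a =
      MvPolynomial.aeval (ψ'.uv x) ψ'.D ^ m := by
    refine ⟨(MvPolynomial.map (algebraMap K Ω) (ψ'.cp (Polynomial.C ψ'.D))) ^ m, fun x => ?_⟩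
    rw [map_pow, MvPolynomial.eval_map]
    congr 1
    have h1 := cp_aeval ψ' (Polynomial.C ψ'.D) x
    rw [pe_C] at h1
    exact h1
  obtain ⟨b, hb⟩ : ∃ b : MvPolynomial (Fin N) Ω, ∀ x : Fin N → Ω, MvPolynomial.eval x b =
      MvPolynomial.aeval (ψ.uv x) r := by
    refine ⟨MvPolynomial.map (algebraMap K Ω) (ψ.cp (Polynomial.C r)), fun x => ?_⟩
    rw [MvPolynomial.eval_map]
    have h1 := cp_aeval ψ (Polynomial.C r) x
    rw [pe_C] at h1
    exact h1
  have key : ∀ x, Zp (fo f Ω) x → MvPolynomial.eval x a * MvPolynomial.eval x b = 0 := by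
    intro x hx
    obtain ⟨hx1, hx2⟩ := om_zp.1 hx
    obtain ⟨hG0, hA0⟩ := hψ'.onX x hx1 hx2
    obtain ⟨q, hq⟩ := hdvd
    have h2 := dgq_pe ψ ψ' r (ψ'.uv x) (ψ'.yv x)
    rw [hq, map_mul, hG0, zero_mul] at h2
    have h3 : (fun j => pe (ψ'.uv x) (ψ'.yv x) (ψ'.A j)) =
        MvPolynomial.aeval (ψ'.uv x) ψ'.D • x := by
      funext j
      rw [hA0 j, Pi.smul_apply, smul_eq_mul]
    rw [h3, uv_smul, aeval_smul_hom hr] at h2
    rw [ha, hb]
    exact h2.symm
  rcases hI a b key with h1 | h1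
  · refine pow_ne_zero m hD' ?_
    rw [← ha]
    exact h1 x₀ hx₀
  · refine hx₁' ?_
    rw [← hb]
    exact h1 x₁ hx₁

/-- **Points in general position, for a homogeneous polynomial.** -/
private theorem dg_hom (hI : Irr f Ω) (hf : Hm f) {ψ ψ' : Prj K N d}
    (h : (ψ.map (algebraMap K Ω)).Ok fun i => MvPolynomial.map (algebraMap F Ω) (f i))
    (hD : ψ.D ≠ 0) (hn : ψ.G.natDegree ≠ 0) (hψ' : Pk f L ψ') (hp' : Prime ψ'.G)
    {r : MvPolynomial (Fin (d + 1)) K} {m : ℕ} (hr : r.IsHomogeneous m) (hr0 : r ≠ 0)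
    {Q : (Xf f).pt Ω} {x : Fin N → Ω} {k : Fin N} (hx : Co Q x) (hxk : x k = 1)
    (hxM : Iv L (⊥ : IntermediateField K Ω) x)
    (hD' : MvPolynomial.aeval (ψ'.uv x) ψ'.D ≠ 0) {t : ℝ} (ht : 0 < t) (ht1 : t < 1) :
    ∃ Q' : (Xf f).pt Ω, Nrh f L t Q' Q ∧ ∃ x' : Fin N → K,
      Co Q' (fun j => algebraMap K Ω (x' j)) ∧ MvPolynomial.eval (ψ.uv x') r ≠ 0 := by
  obtain ⟨δ, hδ, hc'⟩ := near_pt hψ' hx hxk hxM hD' ht ht1
  obtain ⟨R, hR, a, b, hab⟩ := exists_bez hψ'.mon hp'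
    (dg_dvd hI hf h hD hn hψ' (om_zp.2 ⟨co_ne hx, co_zero hx⟩) hD' hr hr0)
  have hbot : ∀ y ∈ (⊥ : IntermediateField K Ω), ∃ z : K, algebraMap K Ω z = y := fun y hy =>
    IntermediateField.mem_bot.1 hy
  choose c hc using fun s => hbot (ψ'.uv x s) (lv_mem (ψ'.u s) fun j => (hxM j).1)
  obtain ⟨c', hcR, hcc⟩ := exists_genK L hR c hδ
  obtain ⟨w', hw', hG, -, Q', hQ', hN⟩ := hc' (fun s => algebraMap K Ω (c' s))
    (fun s => IntermediateField.algebraMap_mem _ _) fun s => by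
      rw [← hc s, ← map_sub]
      exact hcc s
  obtain ⟨w₀, rfl⟩ := hbot w' hw'
  have hpe : ∀ P : Polynomial (MvPolynomial (Fin (d + 1)) K),
      pe (fun s => algebraMap K Ω (c' s)) (algebraMap K Ω w₀) P = algebraMap K Ω (pe c' w₀ P) :=
    fun P => (pe_hom (Algebra.ofId K Ω) c' w₀ P).symm
  refine ⟨Q', hN, fun j => pe c' w₀ (ψ'.A j), ?_, ?_⟩
  · simp only [hpe] at hQ'
    exact hQ'
  · intro h0
    have h1 := congrArg (pe c' w₀) hab
    have h2 : pe c' w₀ ψ'.G = 0 := by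
      rw [hpe, map_eq_zero] at hG
      exact hG
    have h3 : pe c' w₀ (dgq ψ ψ' r) = 0 := by
      rw [dgq_pe]
      exact h0
    rw [map_add, map_mul, map_mul, h2, h3, mul_zero, mul_zero, add_zero, pe_C] at h1
    exact hcR h1.symm

/-- Scaling. -/
private theorem dg_sc {r : MvPolynomial (Fin (d + 1)) K} {m : ℕ} {u : Fin (d + 1) → K}
    (h : MvPolynomial.eval u (MvPolynomial.homogeneousComponent m r) ≠ 0) :
    ∃ l : K, l ≠ 0 ∧ MvPolynomial.eval (l • u) r ≠ 0 := by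
  classical
  have hsc : ∀ l : K, MvPolynomial.eval (l • u) r = (∑ i ∈ Finset.range (r.totalDegree + 1),
      Polynomial.C (MvPolynomial.eval u (MvPolynomial.homogeneousComponent i r)) *
        Polynomial.X ^ i).eval l := by
    intro l
    conv_lhs => rw [← MvPolynomial.sum_homogeneousComponent r]
    rw [map_sum, Polynomial.eval_finsetSum]
    refine Finset.sum_congr rfl fun i _ => ?_
    have h1 := aeval_smul_hom (MvPolynomial.homogeneousComponent_isHomogeneous i r) u l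
    rw [Polynomial.eval_mul, Polynomial.eval_C, Polynomial.eval_pow, Polynomial.eval_X, mul_comm]
    exact h1
  have hm : m < r.totalDegree + 1 := by
    by_contra hcon
    refine h ?_
    rw [MvPolynomial.homogeneousComponent_eq_zero _ _ (by omega), map_zero]
  have hne : (∑ i ∈ Finset.range (r.totalDegree + 1),
      Polynomial.C (MvPolynomial.eval u (MvPolynomial.homogeneousComponent i r)) *
        Polynomial.X ^ i) ≠ 0 := by
    intro h0
    have h1 := congrArg (fun q : Polynomial K => q.coeff m) h0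
    simp only [Polynomial.finsetSum_coeff, Polynomial.coeff_C_mul_X_pow,
      Polynomial.coeff_zero] at h1
    rw [Finset.sum_eq_single m] at h1
    · rw [if_pos rfl] at h1
      exact h h1
    · intro i _ hi
      exact if_neg fun h2 => hi h2.symm
    · intro h2
      exact absurd (Finset.mem_range.2 hm) h2
  have hinf : Infinite K := CharZero.infinite K
  obtain ⟨l, hl⟩ := Infinite.exists_notMem_finset
    (insert 0 (∑ i ∈ Finset.range (r.totalDegree + 1),
      Polynomial.C (MvPolynomial.eval u (MvPolynomial.homogeneousComponent i r)) *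
        Polynomial.X ^ i).roots.toFinset)
  rw [Finset.mem_insert, not_or, Multiset.mem_toFinset, Polynomial.mem_roots hne] at hl
  refine ⟨l, hl.1, ?_⟩
  rw [hsc]
  exact hl.2

/-- **Points in general position.** -/
theorem exists_gen_near (hI : Irr f Ω) (hf : Hm f) {ψ ψ' : Prj K N d}
    (h : (ψ.map (algebraMap K Ω)).Ok fun i => MvPolynomial.map (algebraMap F Ω) (f i))
    (hD : ψ.D ≠ 0) (hn : ψ.G.natDegree ≠ 0) (hψ' : Pk f L ψ') (hp' : Prime ψ'.G)
    {r : MvPolynomial (Fin (d + 1)) K} (hr0 : r ≠ 0)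
    {Q : (Xf f).pt Ω} {x : Fin N → Ω} {k : Fin N} (hx : Co Q x) (hxk : x k = 1)
    (hxM : Iv L (⊥ : IntermediateField K Ω) x)
    (hD' : MvPolynomial.aeval (ψ'.uv x) ψ'.D ≠ 0) {t : ℝ} (ht : 0 < t) (ht1 : t < 1) :
    ∃ Q' : (Xf f).pt Ω, Nrh f L t Q' Q ∧ ∃ x' : Fin N → K,
      Co Q' (fun j => algebraMap K Ω (x' j)) ∧ MvPolynomial.eval (ψ.uv x') r ≠ 0 := by
  obtain ⟨m, hm⟩ : ∃ m, MvPolynomial.homogeneousComponent m r ≠ 0 := by
    by_contra hcon
    push Not at hcon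
    refine hr0 ?_
    rw [← MvPolynomial.sum_homogeneousComponent r]
    exact Finset.sum_eq_zero fun i _ => hcon i
  obtain ⟨Q', hN, x', hx', h1⟩ := dg_hom hI hf h hD hn hψ' hp'
    (MvPolynomial.homogeneousComponent_isHomogeneous m r) hm hx hxk hxM hD' ht ht1
  obtain ⟨l, hl, h2⟩ := dg_sc h1
  refine ⟨Q', hN, l • x', ?_, ?_⟩
  · have h3 := co_smul hf hx' (c := algebraMap K Ω l)
      ((map_ne_zero_iff _ (algebraMap K Ω).injective).2 hl)
    have h4 : (fun j => algebraMap K Ω ((l • x') j)) =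
        fun j => algebraMap K Ω l * algebraMap K Ω (x' j) := by
      funext j
      rw [Pi.smul_apply, smul_eq_mul, map_mul]
    rw [h4]
    exact h3
  · rw [uv_smul]
    exact h2

end GX
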