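import Pool.Agent.Lib.MP_f80667_ag.To.Pb

/-!
Cycles supported on points of bounded degree.

* `fin_bdd`: `T` a group of cycles supported on points of degree `≤ D`, `W` a group which contains the cycles of `T` which are `0` modulo `t`. If `T` is torsion modulo `W`, it is finite modulo `W`.
-/

open ZC BE PE CV IntermediateField

namespace GX

/-- A group which is finitely generated and torsion modulo a subgroup is finite modulo it. -/
theorem rel_fint {A : Type} [AddCommGroup A] {T W : AddSubgroup A} {E : Type} [Finite E]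
    (φ : A →+ (E → ℤ)) (h0 : ∀ z ∈ T, φ z = 0 → z ∈ W) (ht : ∀ z ∈ T, ∃ n : ℕ, n ≠ 0 ∧ n • z ∈ W) :
    W.relIndex T ≠ 0 := by
  classical
  obtain ⟨ψ, hψ⟩ : ∃ ψ : T →+ (E → ℤ), ψ = φ.comp T.subtype := ⟨_, rfl⟩
  have hker : ψ.ker ≤ W.addSubgroupOf T := by
    intro z hz
    rw [AddMonoidHom.mem_ker, hψ] at hz
    exact AddSubgroup.mem_addSubgroupOf.2 (h0 z z.2 hz)
  have hfg : AddGroup.FG ψ.range := by
    have h1 : Module.Finite ℤ (AddSubgroup.toIntSubmodule ψ.range) := by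
      have : IsNoetherian ℤ (E → ℤ) := inferInstance
      infer_instance
    exact AddGroup.fg_iff_mul_fg.2 (by
      have h2 := Module.Finite.iff_addGroup_fg.1 h1
      exact AddGroup.fg_iff_mul_fg.1 h2)
  have hfg' : AddGroup.FG (T ⧸ ψ.ker) := by
    have e := QuotientAddGroup.quotientKerEquivRange ψ
    exact AddGroup.fg_of_surjective (f := e.symm.toAddMonoidHom) e.symm.surjective
  have hfg'' : AddGroup.FG (T ⧸ W.addSubgroupOf T) := by
    refine AddGroup.fg_of_surjective (f := QuotientAddGroup.map ψ.ker (W.addSubgroupOf T)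
      (AddMonoidHom.id T) hker) ?_
    intro q
    obtain ⟨z, rfl⟩ := QuotientAddGroup.mk_surjective q
    exact ⟨QuotientAddGroup.mk z, rfl⟩
  have htor : IsAddTorsion (T ⧸ W.addSubgroupOf T) := by
    intro q
    obtain ⟨z, rfl⟩ := QuotientAddGroup.mk_surjective q
    obtain ⟨n, hn, hz⟩ := ht z z.2
    rw [isOfFinAddOrder_iff_nsmul_eq_zero]
    refine ⟨n, Nat.pos_of_ne_zero hn, ?_⟩
    change ((n • z : T) : T ⧸ W.addSubgroupOf T) = 0
    rw [QuotientAddGroup.eq_zero_iff, AddSubgroup.mem_addSubgroupOf]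
    exact hz
  have hfin : Finite (T ⧸ W.addSubgroupOf T) := AddCommGroup.finite_of_fg_isAddTorsion _ htor
  exact AddSubgroup.index_ne_zero_of_finite

variable {F : Type} [Field F] {N : ℕ} {ι : Type} {f : ι → MvPolynomial (Fin N) F}
  {K Ω : Type} [Field K] [CharZero K] [Field Ω] [Algebra K Ω] [Algebra F K] [Algebra F Ω]
  [IsScalarTower F K Ω] [IsAlgClosure K Ω] (L : Ld K Ω)

open Classical in
/-- **Bounded degree.** -/
theorem fin_bdd (hf : Hm f) {t : ℝ} (ht : 0 < t) (ht1 : t < 1) (D : ℕ)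
    {T W : AddSubgroup ((Xf f).pt Ω →₀ ℤ)}
    (hT : ∀ z ∈ T, ∀ P ∈ z.support, ∃ M : IntermediateField K Ω, FiniteDimensional K M ∧
      Module.finrank K M ≤ D ∧ Fp (Xf f) M P)
    (hTW : ∀ z ∈ T, Zrt f L t z → z ∈ W) (htor : ∀ z ∈ T, ∃ n : ℕ, n ≠ 0 ∧ n • z ∈ W) :
    W.relIndex T ≠ 0 := by
  obtain ⟨E, hE⟩ := fin_cls' L hf ht D
  obtain ⟨hrf, hsy, htr, -⟩ := nrh_eqv (L := L) hf ht.le ht1
  obtain ⟨φ, hφ⟩ : ∃ φ : ((Xf f).pt Ω →₀ ℤ) →+ (E → ℤ), ∀ z (Q : E), φ z Q =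
      ∑ P ∈ z.support.filter (fun P => Nrh f L t P Q), z P := by
    refine ⟨Finsupp.liftAddHom fun P => AddMonoidHom.pi fun Q : E =>
      if Nrh f L t P Q then AddMonoidHom.id ℤ else 0, fun z Q => ?_⟩
    rw [Finsupp.liftAddHom_apply, Finsupp.sum, Finset.sum_apply, Finset.sum_filter]
    refine Finset.sum_congr rfl fun P _ => ?_
    rw [AddMonoidHom.pi_apply]
    split_ifs
    · rfl
    · rfl
  refine rel_fint φ (fun z hz h0 => hTW z hz fun Q => ?_) htor
  by_cases hQ : ∃ Q' ∈ E, Nrh f L t Q Q'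
  · obtain ⟨Q', hQ', hQQ⟩ := hQ
    have h3 : (∑ P ∈ z.support.filter (fun P => Nrh f L t P Q), z P) =
        ∑ P ∈ z.support.filter (fun P => Nrh f L t P Q'), z P := by
      refine Finset.sum_congr (Finset.filter_congr fun P _ => ?_) fun _ _ => rfl
      exact ⟨fun h => htr _ _ _ h hQQ, fun h => htr _ _ _ h (hsy _ _ hQQ)⟩
    rw [h3, ← hφ z ⟨Q', hQ'⟩, h0]
    rfl
  · refine Finset.sum_eq_zero fun P hP => ?_
    obtain ⟨hP1, hP2⟩ := Finset.mem_filter.1 hP
    exfalso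
    obtain ⟨M, hM, hMD, hPM⟩ := hT z hz P hP1
    obtain ⟨Q', hQ', hPQ⟩ := hE M P hM hMD hPM
    exact hQ ⟨Q', hQ', htr _ _ _ (hsy _ _ hP2) hPQ⟩

end GX
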