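import Pool.Agent.Lib.MP_f80667_ag.To.Ed
import Pool.Agent.Lib.MP_f80667_ag.To.Pc
import Pool.Agent.Lib.MP_f80667_ag.Rs.M3
import Pool.Agent.Lib.MP_f80667_ag.Lv.Z

/-!
The structure of the kernel of the sum.

* `zrt_deg`: a cycle which is `0` modulo `t` has degree `0`.
* `tdv_of`: every cycle of degree `0` with sum `0` is a cycle which is `0` modulo `a` with sum `0` plus torsion.
* `tbd_of`: finitely many torsion cycles are enough for the points of bounded degree.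
-/

open ZC BE PE CV IntermediateField

namespace GX

section deg

variable {F : Type} [Field F] {N : ℕ} {ι : Type} {f : ι → MvPolynomial (Fin N) F}
  {K Ω : Type} [Field K] [CharZero K] [Field Ω] [Algebra K Ω] [Algebra F K] [Algebra F Ω]
  [IsScalarTower F K Ω] [IsAlgClosure K Ω] {L : Ld K Ω}

omit [CharZero K] [IsAlgClosure K Ω] in
/-- A cycle which is `0` modulo `t` has degree `0`. -/
theorem zrt_deg (hf : Hm f) {t : ℝ} (h0 : 0 ≤ t) (h1 : t < 1) {z : (Xf f).pt Ω →₀ ℤ}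
    (hz : Zrt f L t z) : (Xf f).deg Ω z = 0 := by
  classical
  obtain ⟨hr, hs, ht, -⟩ := nrh_eqv (L := L) hf h0 h1
  let s : Setoid ((Xf f).pt Ω) := ⟨Nrh f L t, hr, @hs, @ht⟩
  have e : (Xf f).deg Ω z = ∑ P ∈ z.support, z P := by
    rw [Vr.deg, Finsupp.liftAddHom_apply, Finsupp.sum]
    rfl
  rw [e, ← Finset.sum_fiberwise_of_maps_to
    (g := fun P => (Quotient.mk s P)) (t := z.support.image fun P => Quotient.mk s P)
    (fun P hP => Finset.mem_image_of_mem _ hP)]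
  refine Finset.sum_eq_zero fun c hc => ?_
  obtain ⟨Q, -, rfl⟩ := Finset.mem_image.1 hc
  have h3 := hz Q
  have h4 : (z.support.filter fun P => Quotient.mk s P = Quotient.mk s Q) =
      z.support.filter fun P => Nrh f L t P Q := by
    refine Finset.filter_congr fun P _ => ?_
    exact ⟨fun h => Quotient.exact h, fun h => Quotient.sound h⟩
  rw [h4]
  exact h3

end deg

section main

variable {F : Type} [Field F] {N N' k k' : ℕ} {ι ι' : Type} {f : ι → MvPolynomial (Fin N) F}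
  {A : Gv F N' k' ι'} {M : Mf f A k} {K Ω : Type} [Field K] [CharZero K] [Field Ω]
  [Algebra K Ω] [Algebra F K] [Algebra F Ω] [IsScalarTower F K Ω] [IsAlgClosure K Ω] {L : Ld K Ω}
  {a : Ω}

/-- Cycles of degree `0` with sum `0`. -/
theorem tdv_of (hf : Hm f) (hA : A.Ok) (hM : M.Ok) (ha : a ≠ 0)
    (h : ∀ z ∈ (Xf f).cyc K Ω, (Xf f).deg Ω z = 0 → Tor f L (L.nm a) z)
    (hD : Dvz L.V M K a) : Tdv L.V M K a := by
  let _ : AddCommGroup ((Xf A.a).pt Ω) := A.G.grp Ω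
  intro z hz hd hS
  have hrs : ∀ x ∈ (Xf f).ratEq K Ω, M.S Ω x = 0 := fun x hx => RS.rs hf hA hM hx
  obtain ⟨n, hn, u, hu, hut, hr⟩ := h z hz hd
  have h1 : M.S Ω u = 0 := by
    have h2 := hrs _ hr
    rw [map_sub, map_nsmul] at h2
    have h3 : M.S Ω z = 0 := hS
    rwa [h3, smul_zero, zero_sub, neg_eq_zero] at h2
  obtain ⟨w, hw, hwa, hwS, hwr⟩ := hD n hn u hu ((zra_iff ha).2 hut) h1
  refine ⟨w, hw, hwa, hwS, n, hn, ?_⟩
  have e : n • (z - w) = (n • z - u) + (u - n • w) := by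
    rw [smul_sub]
    abel
  rw [e]
  exact add_mem hr hwr

/-- Finitely many torsion cycles for the points of bounded degree. -/
theorem tbd_of (hf : Hm f) (ha : a ≠ 0) (ha1 : L.nm a < 1) (hT : Tdv L.V M K a) (D : ℕ) :
    Tbd L.V M K a D := by
  classical
  let _ : AddCommGroup ((Xf A.a).pt Ω) := A.G.grp Ω
  have hpos : 0 < L.nm a := L.pos ha
  -- the cycles supported on points of degree `≤ D`
  let T : AddSubgroup ((Xf f).pt Ω →₀ ℤ) :=
    { carrier := {z | z ∈ (Xf f).cyc K Ω ∧ (Xf f).deg Ω z = 0 ∧ M.S Ω z = 0 ∧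
        ∀ P ∈ z.support, Dgb f K D P}
      zero_mem' := ⟨zero_mem _, map_zero _, map_zero _, fun P hP => by simp at hP⟩
      add_mem' := by
        rintro x y ⟨h1, h2, h3, h4⟩ ⟨h1', h2', h3', h4'⟩
        refine ⟨add_mem h1 h1', by rw [map_add, h2, h2', add_zero], ?_, fun P hP => ?_⟩
        · change M.S Ω (x + y) = 0
          rw [map_add, h3, h3', add_zero]
        · rcases Finset.mem_union.1 (Finsupp.support_add hP) with h | h
          · exact h4 P h
          · exact h4' P h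
      neg_mem' := by
        rintro x ⟨h1, h2, h3, h4⟩
        refine ⟨neg_mem h1, by rw [map_neg, h2, neg_zero], ?_, fun P hP => ?_⟩
        · change M.S Ω (-x) = 0
          rw [map_neg, h3, neg_zero]
        · rw [Finsupp.support_neg] at hP
          exact h4 P hP }
  -- the cycles which are `0` modulo `a` with sum `0`
  let U : AddSubgroup ((Xf f).pt Ω →₀ ℤ) :=
    { carrier := {z | z ∈ (Xf f).cyc K Ω ∧ Zrt f L (L.nm a) z ∧ M.S Ω z = 0}
      zero_mem' := ⟨zero_mem _, zrt_nil, map_zero _⟩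
      add_mem' := by
        rintro x y ⟨h1, h2, h3⟩ ⟨h1', h2', h3'⟩
        refine ⟨add_mem h1 h1', h2.add h2', ?_⟩
        change M.S Ω (x + y) = 0
        rw [map_add, h3, h3', add_zero]
      neg_mem' := by
        rintro x ⟨h1, h2, h3⟩
        refine ⟨neg_mem h1, ?_, ?_⟩
        · rw [← neg_one_zsmul]
          exact h2.zsmul _
        · change M.S Ω (-x) = 0
          rw [map_neg, h3, neg_zero] }
  have hfin : (U ⊔ (Xf f).ratEq K Ω).relIndex T ≠ 0 := by
    refine fin_bdd L hf hpos ha1 D (fun z hz P hP => hz.2.2.2 P hP) (fun z hz hzr => ?_)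
      fun z hz => ?_
    · exact AddSubgroup.mem_sup_left ⟨hz.1, hzr, hz.2.2.1⟩
    · obtain ⟨u, hu, hua, huS, n, hn, hr⟩ := hT z hz.1 hz.2.1 hz.2.2.1
      refine ⟨n, hn, ?_⟩
      have e : n • z = n • u + n • (z - u) := by
        rw [smul_sub]
        abel
      rw [e]
      exact AddSubgroup.add_mem_sup
        (U.nsmul_mem ⟨hu, (zra_iff ha).1 hua, huS⟩ n) hr
  obtain ⟨E₀, hE₀, hE₀'⟩ := exists_reps hfin
  have hch : ∀ e : E₀, ∃ u ∈ (Xf f).cyc K Ω, Zra f L.V a u ∧ M.S Ω u = 0 ∧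
      ∃ n : ℕ, n ≠ 0 ∧ n • ((e : (Xf f).pt Ω →₀ ℤ) - u) ∈ (Xf f).ratEq K Ω := fun e =>
    hT e (hE₀ e e.2).1 (hE₀ e e.2).2.1 (hE₀ e e.2).2.2.1
  choose u hu hua huS hun using hch
  refine ⟨Finset.univ.image fun e : E₀ => (e : (Xf f).pt Ω →₀ ℤ) - u e, fun x hx => ?_,
    fun z hz hd hS hP => ?_⟩
  · obtain ⟨e, -, rfl⟩ := Finset.mem_image.1 hx
    refine ⟨sub_mem (hE₀ e e.2).1 (hu e), ?_, ?_, hun e⟩
    · rw [map_sub, (hE₀ e e.2).2.1, zrt_deg hf hpos.le ha1 ((zra_iff ha).1 (hua e)), sub_zero]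
    · change M.S Ω ((e : (Xf f).pt Ω →₀ ℤ) - u e) = 0
      rw [map_sub, (hE₀ e e.2).2.2.1, huS e, sub_zero]
  · obtain ⟨e, he, hze⟩ := hE₀' z ⟨hz, hd, hS, hP⟩
    obtain ⟨w, hw, r, hr, hwr⟩ := AddSubgroup.mem_sup.1 hze
    refine ⟨e - u ⟨e, he⟩, Finset.mem_image.2 ⟨⟨e, he⟩, Finset.mem_univ _, rfl⟩,
      u ⟨e, he⟩ + w, add_mem (hu _) hw.1, ?_, ?_, ?_⟩
    · exact (zra_iff ha).2 (((zra_iff ha).1 (hua _)).add hw.2.1)
    · change M.S Ω (u ⟨e, he⟩ + w) = 0
      rw [map_add, huS, hw.2.2, add_zero]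
    · have e1 : z - (e - u ⟨e, he⟩) - (u ⟨e, he⟩ + w) = r := by
        have e2 : r = z - e - w := by
          rw [← hwr]
          abel
        rw [e2]
        abel
      rw [e1]
      exact hr

end main

end GX
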