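import Pool.Agent.Lib.MP_f80667_ag.To.A
import Pool.Agent.Lib.MP_f80667_ag.Lv.Al

/-!
Irreducibility over an algebraically closed field.

* `Irr.up`: over a larger algebraically closed field.
* `Irr.of_prime`: if the ideal of the equations is prime; `Irr.of_radical`: if its radical is prime.
-/

open MvPolynomial ZC BE PE CV

namespace GX

variable {F E Ω : Type} [Field F] [Field E] [Field Ω] [Algebra F E] [Algebra E Ω] [Algebra F Ω]
  [IsScalarTower F E Ω] {N : ℕ} {ι : Type} {f : ι → MvPolynomial (Fin N) F}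

private theorem ib_ev {R : Subalgebra E Ω} (q : MvPolynomial (Fin N) R) (y : Fin N → R) :
    ((eval y q : R) : Ω) = eval (fun j => (y j : Ω)) (q.map (algebraMap R Ω)) :=
  (al_ev (algebraMap R Ω) y q).symm

/-- **Irreducibility over a larger algebraically closed field.** Proof: a bad pair over `Ω` and the two points at which it does not vanish are over a finitely generated
algebra over `E`; its homomorphism to `E` gives a bad pair over `E`. -/
theorem Irr.up [IsAlgClosed E] (hI : Irr f E) : Irr f Ω := by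
  classical
  intro a b hab
  by_contra hcon
  rw [not_or] at hcon
  obtain ⟨h1, h2⟩ := hcon
  push Not at h1 h2
  obtain ⟨x₁, hx₁, ha⟩ := h1
  obtain ⟨x₂, hx₂, hb⟩ := h2
  obtain ⟨k₁, hk₁⟩ := Function.ne_iff.1 hx₁.1
  obtain ⟨k₂, hk₂⟩ := Function.ne_iff.1 hx₂.1
  rw [Pi.zero_apply] at hk₁ hk₂
  obtain ⟨S, hS⟩ : ∃ S : Finset Ω, S = a.coeffs ∪ (b.coeffs ∪ (Finset.univ.image x₁ ∪
      (Finset.univ.image x₂ ∪ {(eval x₁ a)⁻¹, (eval x₂ b)⁻¹, (x₁ k₁)⁻¹, (x₂ k₂)⁻¹}))) :=
    ⟨_, rfl⟩
  obtain ⟨φ⟩ := al_th (E := E) S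
  obtain ⟨R, hR⟩ : ∃ R : Subalgebra E Ω, R = Algebra.adjoin E (S : Set Ω) := ⟨_, rfl⟩
  rw [← hR] at φ
  have hsub : ∀ y ∈ S, y ∈ R := fun y hy => by
    rw [hR]
    exact Algebra.subset_adjoin hy
  have m1 : ∀ c ∈ a.coeffs, c ∈ R := fun c hc => hsub c (by
    rw [hS]
    exact Finset.mem_union_left _ hc)
  have m2 : ∀ c ∈ b.coeffs, c ∈ R := fun c hc => hsub c (by
    rw [hS]
    exact Finset.mem_union_right _ (Finset.mem_union_left _ hc))
  have m3 : ∀ j, x₁ j ∈ R := fun j => hsub _ (by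
    rw [hS]
    exact Finset.mem_union_right _ (Finset.mem_union_right _ (Finset.mem_union_left _
      (Finset.mem_image_of_mem _ (Finset.mem_univ j)))))
  have m4 : ∀ j, x₂ j ∈ R := fun j => hsub _ (by
    rw [hS]
    exact Finset.mem_union_right _ (Finset.mem_union_right _ (Finset.mem_union_right _
      (Finset.mem_union_left _ (Finset.mem_image_of_mem _ (Finset.mem_univ j))))))
  have m5 : ∀ y ∈ ({(eval x₁ a)⁻¹, (eval x₂ b)⁻¹, (x₁ k₁)⁻¹, (x₂ k₂)⁻¹} : Finset Ω), y ∈ R :=
    fun y hy => hsub _ (by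
      rw [hS]
      exact Finset.mem_union_right _ (Finset.mem_union_right _ (Finset.mem_union_right _
        (Finset.mem_union_right _ hy))))
  have i1 : (eval x₁ a)⁻¹ ∈ R := m5 _ (by simp)
  have i2 : (eval x₂ b)⁻¹ ∈ R := m5 _ (by simp)
  have i3 : (x₁ k₁)⁻¹ ∈ R := m5 _ (by simp)
  have i4 : (x₂ k₂)⁻¹ ∈ R := m5 _ (by simp)
  obtain ⟨qa, hqa⟩ := al_lift m1
  obtain ⟨qb, hqb⟩ := al_lift m2
  have unit : ∀ r : R, (r : Ω) ≠ 0 → ((r : Ω))⁻¹ ∈ R → φ r ≠ 0 := by
    intro r h0 hr h1
    have h2 : r * ⟨_, hr⟩ = 1 := Subtype.ext (mul_inv_cancel₀ h0)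
    have h3 := congrArg φ h2
    rw [map_mul, h1, zero_mul, map_one] at h3
    exact zero_ne_one h3
  have pt : ∀ x : Fin N → Ω, Zp (fo f Ω) x → ∀ h : (∀ j, x j ∈ R), ∀ k, x k ≠ 0 →
      (x k)⁻¹ ∈ R → Zp (fo f E) fun j => φ ⟨x j, h j⟩ := by
    intro x hx h k hk hk'
    refine ⟨fun h0 => unit ⟨x k, h k⟩ hk hk' (congrFun h0 k), fun i => ?_⟩
    have h1 : ((MvPolynomial.map (algebraMap E R) (fo f E i)).map (algebraMap R Ω)) =
        fo f Ω i := by
      rw [MvPolynomial.map_map]
      change MvPolynomial.map _ (MvPolynomial.map (algebraMap F E) (f i)) =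
        MvPolynomial.map (algebraMap F Ω) (f i)
      rw [MvPolynomial.map_map, IsScalarTower.algebraMap_eq F E Ω]
      rfl
    have h2 : eval (fun j => (⟨x j, h j⟩ : R)) (MvPolynomial.map (algebraMap E R) (fo f E i)) =
        0 := by
      apply Subtype.ext
      rw [ib_ev, h1]
      exact hx.2 i
    have h3 := al_ev (φ : R →+* E) (fun j => (⟨x j, h j⟩ : R))
      (MvPolynomial.map (algebraMap E R) (fo f E i))
    rw [h2, map_zero, MvPolynomial.map_map] at h3
    have h4 : (φ : R →+* E).comp (algebraMap E R) = RingHom.id E := by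
      ext e
      exact φ.commutes e
    rw [h4, MvPolynomial.map_id] at h3
    exact h3
  have hk : ∀ x, Zp (fo f E) x → eval x (qa.map (φ : R →+* E)) *
      eval x (qb.map (φ : R →+* E)) = 0 := by
    intro x hx
    have hx' : Zp (fo f Ω) fun j => algebraMap E Ω (x j) := by
      refine ⟨fun h0 => hx.1 (funext fun j => ?_), fun i => ?_⟩
      · exact (map_eq_zero (algebraMap E Ω)).1 (congrFun h0 j)
      · have h1 := al_ev (algebraMap E Ω) x (fo f E i)
        rw [hx.2 i, map_zero] at h1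
        have h2 : (fo f E i).map (algebraMap E Ω) = fo f Ω i := by
          change MvPolynomial.map _ (MvPolynomial.map (algebraMap F E) (f i)) =
            MvPolynomial.map (algebraMap F Ω) (f i)
          rw [MvPolynomial.map_map, ← IsScalarTower.algebraMap_eq F E Ω]
        rw [h2] at h1
        exact h1
    have h1 := hab _ hx'
    have e1 : ((eval (fun j => algebraMap E R (x j)) qa : R) : Ω) =
        eval (fun j => algebraMap E Ω (x j)) a := by
      rw [ib_ev, hqa]
      rfl
    have e2 : ((eval (fun j => algebraMap E R (x j)) qb : R) : Ω) =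
        eval (fun j => algebraMap E Ω (x j)) b := by
      rw [ib_ev, hqb]
      rfl
    have h2 : eval (fun j => algebraMap E R (x j)) qa *
        eval (fun j => algebraMap E R (x j)) qb = 0 := by
      apply Subtype.ext
      change ((eval (fun j => algebraMap E R (x j)) qa : R) : Ω) *
        ((eval (fun j => algebraMap E R (x j)) qb : R) : Ω) = 0
      rw [e1, e2]
      exact h1
    have h3 := al_ev (φ : R →+* E) (fun j => algebraMap E R (x j)) qa
    have h4 := al_ev (φ : R →+* E) (fun j => algebraMap E R (x j)) qb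
    have hxx : (fun j => (φ : R →+* E) (algebraMap E R (x j))) = x :=
      funext fun j => φ.commutes (x j)
    rw [hxx] at h3 h4
    rw [h3, h4, ← map_mul, h2, map_zero]
  rcases hI _ _ hk with h | h
  · have h1 := h _ (pt x₁ hx₁ m3 k₁ hk₁ i3)
    have h2 := al_ev (φ : R →+* E) (fun j => (⟨x₁ j, m3 j⟩ : R)) qa
    have h3 : ((eval (fun j => (⟨x₁ j, m3 j⟩ : R)) qa : R) : Ω) = eval x₁ a := by
      rw [ib_ev, hqa]
    refine unit (eval (fun j => (⟨x₁ j, m3 j⟩ : R)) qa) (by rw [h3]; exact ha)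
      (by rw [h3]; exact i1) (h2.symm.trans h1)
  · have h1 := h _ (pt x₂ hx₂ m4 k₂ hk₂ i4)
    have h2 := al_ev (φ : R →+* E) (fun j => (⟨x₂ j, m4 j⟩ : R)) qb
    have h3 : ((eval (fun j => (⟨x₂ j, m4 j⟩ : R)) qb : R) : Ω) = eval x₂ b := by
      rw [ib_ev, hqb]
    refine unit (eval (fun j => (⟨x₂ j, m4 j⟩ : R)) qb) (by rw [h3]; exact hb)
      (by rw [h3]; exact i2) (h2.symm.trans h1)

omit [Field F] [Algebra F E] in
private theorem ib_null [IsAlgClosed E] {κ : Type} (g : κ → MvPolynomial (Fin N) E)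
    {P : MvPolynomial (Fin N) E} (h : ∀ x : Fin N → E, (∀ i, eval x (g i) = 0) → eval x P = 0) :
    P ∈ (Ideal.span (Set.range g)).radical := by
  rw [← MvPolynomial.vanishingIdeal_zeroLocus_eq_radical (K := E), mem_vanishingIdeal_iff]
  intro x hx
  rw [mem_zeroLocus_iff] at hx
  exact h x fun i => hx (g i) (Ideal.subset_span ⟨i, rfl⟩)

/-- The radical of the ideal of the equations is prime. -/
theorem Irr.of_radical [IsAlgClosed E] (h : (Ideal.span (Set.range (fo f E))).radical.IsPrime) :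
    Irr f E := by
  intro a b hab
  by_cases hX : ∀ k, (X k : MvPolynomial (Fin N) E) ∈ (Ideal.span (Set.range (fo f E))).radical
  · left
    intro x hx
    exfalso
    apply hx.1
    funext k
    obtain ⟨n, hn⟩ := hX k
    have h1 : ∀ P ∈ Ideal.span (Set.range (fo f E)), eval x P = 0 := by
      intro P hP
      have h2 : Ideal.span (Set.range (fo f E)) ≤ RingHom.ker (eval x) := by
        refine Ideal.span_le.2 ?_
        rintro _ ⟨i, rfl⟩
        exact hx.2 i
      exact h2 hP
    have h3 := h1 _ hn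
    rw [map_pow, eval_X] at h3
    exact eq_zero_of_pow_eq_zero h3
  · obtain ⟨k, hk⟩ := not_forall.1 hX
    have hz : ∀ P ∈ (Ideal.span (Set.range (fo f E))).radical, ∀ x, Zp (fo f E) x →
        eval x P = 0 := by
      intro P hP x hx
      obtain ⟨n, hn⟩ := hP
      have h2 : Ideal.span (Set.range (fo f E)) ≤ RingHom.ker (eval x) := by
        refine Ideal.span_le.2 ?_
        rintro _ ⟨i, rfl⟩
        exact hx.2 i
      have h3 : eval x (P ^ n) = 0 := h2 hn
      rw [map_pow] at h3
      exact eq_zero_of_pow_eq_zero h3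
    have h1 : X k * (a * b) ∈ (Ideal.span (Set.range (fo f E))).radical := by
      refine ib_null _ fun x hx => ?_
      rw [map_mul, map_mul, eval_X]
      by_cases h0 : x = 0
      · rw [h0, Pi.zero_apply, zero_mul]
      · rw [hab x ⟨h0, hx⟩, mul_zero]
    rcases (h.mem_or_mem h1).resolve_left hk |> h.mem_or_mem with h2 | h2
    · exact Or.inl (hz a h2)
    · exact Or.inr (hz b h2)

/-- The ideal of the equations is prime. -/
theorem Irr.of_prime [IsAlgClosed E] (h : (Ideal.span (Set.range (fo f E))).IsPrime) :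
    Irr f E :=
  Irr.of_radical (by rw [h.radical]; exact h)

end GX
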