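import Pool.Agent.Lib.MP_f80667_ag.To.Ee
import Pool.Agent.Lib.MP_f80667_ag.Ep.N3

/-!
The strong form of the divisibility at every finite place.

* `ep_zrs`: from the displacements (as `ep_zrt`). `ep_locs`: the local theorem. `ep_globs`: the completions of number fields.
-/

open ZC BE PE CV IntermediateField IsDedekindDomain NumberField

namespace GX

section loc

variable {F : Type} [Field F] {N N' k k' d : ℕ} {ι ι' : Type} {f : ι → MvPolynomial (Fin N) F}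
  {A : Gv F N' k' ι'} {M : Mf f A k} {K Ω : Type} [Field K] [CharZero K] [Field Ω] [Algebra K Ω]
  [Algebra F K] [Algebra F Ω] [IsScalarTower F K Ω] [IsAlgClosure K Ω] {L : Ld K Ω}

omit [CharZero K] [IsAlgClosure K Ω] in
private theorem na_mono {t t' : ℝ} (h : t ≤ t') : Dcy L f t ≤ Dcy L f t' := by
  unfold Dcy
  refine AddSubgroup.closure_mono ?_
  rintro z ⟨E, hE, y, y', h1, h2, ⟨x, x', h3, h4, h5, h6, h7, h8, h9⟩, rfl⟩
  exact ⟨E, hE, y, y', h1, h2, ⟨x, x', h3, h4, h5, h6, h7, h8, fun i => (h9 i).trans h⟩, rfl⟩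

/-- **Cycles which are `0` modulo a small number, strong form.** -/
theorem ep_zrs (hf : ∀ i, ∃ e, (f i).IsHomogeneous e) {C : ℕ}
    (hr : ∀ s, C ≤ s → ∀ (M : IntermediateField K Ω) (P : (Xf f).pt Ω),
      (∀ γ ∈ M.fixingSubgroup, Nrh f L (L.nm (L.p : Ω) ^ s) ((Xf f).act γ P) P) →
        ∃ P', Fp (Xf f) M P' ∧ Nrh f L (L.nm (L.p : Ω) ^ (s - C)) P' P)
    {V : ℕ → AddSubgroup ((Xf f).pt Ω →₀ ℤ)} {RE : AddSubgroup ((Xf f).pt Ω →₀ ℤ)}
    {tr : ((Xf f).pt Ω →₀ ℤ) →+ ((Xf f).pt Ω →₀ ℤ)} {q : ℕ}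
    (hA : letI := A.G.grp Ω
      Abs V (fun s => Dcy L f (L.nm (L.p : Ω) ^ s)) RE ((Xf f).ratEq K Ω) tr (M.S Ω) q) :
    ∃ a₀ : Ω, a₀ ≠ 0 ∧ ∀ a : Ω, a ≠ 0 → (∃ c ∈ L.V, a = a₀ * c) → Dvs L.V M K a := by
  classical
  let _ : AddCommGroup ((Xf A.a).pt Ω) := A.G.grp Ω
  have hA' : Abs V (fun s => Dcy L f (L.nm (L.p : Ω) ^ s)) RE ((Xf f).ratEq K Ω) tr (M.S Ω) q :=
    hA
  obtain ⟨s₁, h1⟩ := hA'.divisible
  have hch : CharZero Ω := charZero_of_injective_algebraMap (algebraMap K Ω).injective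
  have hp0 : (L.p : Ω) ≠ 0 := Nat.cast_ne_zero.2 L.pp.ne_zero
  have hpp : 0 < L.nm (L.p : Ω) := L.pos hp0
  have hp1 : L.nm (L.p : Ω) < 1 := L.lt
  refine ⟨(L.p : Ω) ^ (s₁ + 1 + C), pow_ne_zero _ hp0, fun a ha hc => ?_⟩
  obtain ⟨c, hc, hac⟩ := hc
  have hta : L.nm a ≤ L.nm (L.p : Ω) ^ (s₁ + 1 + C) := by
    rw [hac, L.mul, L.pow]
    exact mul_le_of_le_one_right (pow_nonneg hpp.le _) (L.mem_V.1 hc)
  have ht0 : 0 < L.nm a := L.pos ha
  have ht1 : L.nm a < 1 := hta.trans_lt (pow_lt_one₀ hpp.le hp1 (by omega))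
  have ht3 : L.nm (L.p : Ω) ^ (s₁ + 1 + C) ≤ L.nm (L.p : Ω) ^ (s₁ + 1) :=
    pow_le_pow_of_le_one hpp.le hp1.le (Nat.le_add_right _ _)
  have ht4 : L.nm (L.p : Ω) ^ (s₁ + 1) < 1 := pow_lt_one₀ hpp.le hp1 (by omega)
  have hZD : ∀ z ∈ (Xf f).cyc K Ω, Zrt f L (L.nm a) z →
      z ∈ Dcy L f (L.nm (L.p : Ω) ^ (s₁ + 1)) := by
    intro z hz hz'
    refine zrt_dcy hf ht0 ht1 (hta.trans ht3) ht4 (fun M P hM => ?_) hz hz'
    obtain ⟨P', h3, h4⟩ := hr (s₁ + 1 + C) (Nat.le_add_left _ _) M P fun γ hγ => by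
      obtain ⟨x, x', g1, g2, g3, g4, g5, g6, g7⟩ := hM γ hγ
      exact ⟨x, x', g1, g2, g3, g4, g5, g6, fun i => (g7 i).trans hta⟩
    rw [Nat.add_sub_cancel] at h4
    exact ⟨P', h3, h4⟩
  intro b hb hbc m hm z hz hz' h0
  obtain ⟨c', hc', hbc'⟩ := hbc
  have hb1 : L.nm b < 1 := by
    rw [hbc', L.mul]
    exact (mul_le_of_le_one_right ht0.le (L.mem_V.1 hc')).trans_lt ht1
  obtain ⟨s', hs'⟩ : ∃ s' : ℕ, L.nm (L.p : Ω) ^ s' ≤ L.nm b := by
    obtain ⟨s', h⟩ := exists_pow_lt_of_lt_one (L.pos hb) hp1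
    exact ⟨s', h.le⟩
  rw [zra_iff ha] at hz'
  obtain ⟨w, hw, h3, h4⟩ := h1 (s₁ + 1) (by omega) z (hZD z hz hz') h0 m hm s'
  obtain ⟨h5, h6⟩ := dcy_zrt hf (L.nonneg b) hb1 (na_mono hs' hw)
  exact ⟨w, h5, (zra_iff hb).2 h6, h3, h4⟩

/-- The sizes of `Big`. -/
private theorem na_big {E Ω : Type} [Field E] [Field Ω] [Algebra E Ω] {L : Ld E Ω} {n n' : ℕ}
    (h : Big L n) (hn : n' ≤ n) : Big L n' := by
  obtain ⟨θ, h1, h2⟩ := h
  exact ⟨fun k => θ (Fin.castLE hn k), fun k => h1 _, fun k l hkl => h2 _ _ fun h3 => hkl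
    (Fin.castLE_injective hn h3)⟩

/-- **The local theorem, strong form.** Any residue characteristic, any ramification, any reduction. Proof: as `ep_local`. -/
theorem ep_locs [CharZero F] (L : Ld K Ω) (hf : Nsg f d) (hK : PL.DnK L) (hA : A.Ok) (hM : M.Ok)
    (hAl : M.Alb Ω) : ∃ a₀ : Ω, a₀ ≠ 0 ∧ ∀ a : Ω, a ≠ 0 → (∃ c ∈ L.V, a = a₀ * c) →
      Dvs L.V M K a := by
  classical
  let _ : AddCommGroup ((Xf A.a).pt Ω) := A.G.grp Ω
  obtain ⟨m, ψ, hbg⟩ := exists_bg L hf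
  obtain ⟨E, L', X, hX, hbig⟩ := hbg (∑ i, (ψ i).G.natDegree)
  have hfd : FiniteDimensional K E := hX.fd
  have hgal : IsGalois K E := hX.gal
  have hacl : IsAlgClosed Ω := IsAlgClosure.isAlgClosed K
  have hEcl : IsAlgClosure E Ω := ⟨hacl, by
    have h1 : Algebra.IsAlgebraic K Ω := IsAlgClosure.isAlgebraic
    exact Algebra.IsAlgebraic.tower_top (K := K) E⟩
  have hchE : CharZero E := charZero_of_injective_algebraMap (algebraMap K E).injective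
  have hdeg : ∀ i, (X.ψ i).G.natDegree ≤ ∑ i, (ψ i).G.natDegree := by
    intro i
    rw [hX.hψ i]
    refine (Polynomial.natDegree_map_le).trans ?_
    exact Finset.single_le_sum (f := fun i => (ψ i).G.natDegree) (fun i _ => Nat.zero_le _)
      (Finset.mem_univ i)
  have hB : Bs L' X.P := hX.ok.bs fun i => na_big hbig (hdeg i)
  obtain ⟨π, hπ⟩ := exists_uf L'
  obtain ⟨e, he0, he⟩ := hπ.pow
  obtain ⟨n₁, hfin⟩ := bd_fin hX.ok hB hπ
  have hls : Lste M L' X π e := hX.lste hB hf.hom hπ hK hA hM hAl he (hX.ok.crl hB hπ he)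
  obtain ⟨C, hC⟩ := exists_rat_near hX.pk hX.ok.ε0 hX.cov
  exact ep_zrs hf.hom hC (Bg.abs hf.hom hA hM hX hB hπ he0 he hfin hls.lse)

end loc

/-- **Every finite place, strong form.** -/
theorem ep_globs {F : Type} [Field F] [NumberField F] {N N' k k' d : ℕ} {ι ι' : Type}
    {f : ι → MvPolynomial (Fin N) F} {A : Gv F N' k' ι'} {M : Mf f A k} (hf : Nsg f d)
    (hA : A.Ok) (hM : M.Ok) (v : HeightOneSpectrum (𝓞 F))
    (hb : M.Alb (AlgebraicClosure F))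
    {V : ValuationSubring (AlgebraicClosure (FK F v))}
    (hV : V.comap (algebraMap (FK F v) _) = CV.Iv v) :
    ∃ a₀ : AlgebraicClosure (FK F v), a₀ ≠ 0 ∧ ∀ a : AlgebraicClosure (FK F v), a ≠ 0 →
      (∃ c ∈ V, a = a₀ * c) → Dvs V M (FK F v) a := by
  have hch : CharZero (FK F v) :=
    charZero_of_injective_algebraMap (algebraMap F (FK F v)).injective
  obtain ⟨L, hL⟩ := exists_ldI v
  have h1 : V.comap (algebraMap (FK F v) _) = Ok L := by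
    rw [hV]
    exact SetLike.ext fun x => (hL x).symm
  obtain rfl := GM.v_uniq L V h1
  exact ep_locs L hf (PL.dn_fk hL) hA hM (Mf.alb_ext hb _)

end GX
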