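import Pool.Agent.Lib.MP_f80667_ag.To.Ea
import Pool.Agent.Lib.MP_f80667_ag.To.Dc
import Pool.Agent.Lib.MP_f80667_ag.To.Dd
import Pool.Agent.Lib.MP_f80667_ag.To.Ib
import Pool.Agent.Lib.MP_f80667_ag.To.Na

/-!
The structure of the kernel of the sum at every finite place.

* `tor_any`: every cycle of degree `0` has a multiple which is, modulo rational equivalence, `0` modulo `a`.
* `tor_glob`: the theorem for the completions of number fields.
-/

open ZC BE PE CV IntermediateField IsDedekindDomain NumberField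

namespace GX

section loc

variable {F : Type} [Field F] [CharZero F] {N d : ℕ} {ι : Type} {f : ι → MvPolynomial (Fin N) F}
  {K Ω : Type} [Field K] [CharZero K] [Field Ω] [Algebra K Ω] [Algebra F K] [Algebra F Ω]
  [IsScalarTower F K Ω] [IsAlgClosure K Ω] {L : Ld K Ω} {a : Ω}

/-- **Every cycle of degree `0`.** -/
theorem tor_any (hf : Nsg f d) (hI : Irr f Ω) (ha : a ≠ 0) (ha1 : L.nm a < 1)
    {z : (Xf f).pt Ω →₀ ℤ} (hz : z ∈ (Xf f).cyc K Ω) (h0 : (Xf f).deg Ω z = 0) :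
    Tor f L (L.nm a) z := by
  refine tor_deg hf.hom (L.nonneg a) ha1 (fun E hE P P' hP hP' => ?_) hz h0
  have hac : IsAlgClosure E Ω := yd_ac E
  have hch : CharZero E := charZero_of_injective_algebraMap (algebraMap K E).injective
  refine tor_pts (L := xt L E) hf hI ha ha1 (yd_fp.2 ?_) (yd_fp.2 ?_)
  · rw [IntermediateField.restrictScalars_bot_eq_self]
    exact hP
  · rw [IntermediateField.restrictScalars_bot_eq_self]
    exact hP'

end loc

/-- **Every finite place.** -/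
theorem tor_glob {F : Type} [Field F] [NumberField F] {N N' k k' d : ℕ} {ι ι' : Type}
    {f : ι → MvPolynomial (Fin N) F} {A : Gv F N' k' ι'} {M : Mf f A k} (hf : Nsg f d)
    (hi : (Ideal.span (Set.range fun i =>
      MvPolynomial.map (algebraMap F (AlgebraicClosure F)) (f i))).radical.IsPrime)
    (hA : A.Ok) (hM : M.Ok) (v : HeightOneSpectrum (𝓞 F)) (hb : M.Alb (AlgebraicClosure F))
    {V : ValuationSubring (AlgebraicClosure (FK F v))}
    (hV : V.comap (algebraMap (FK F v) _) = CV.Iv v) :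
    ∃ a₀ : AlgebraicClosure (FK F v), a₀ ≠ 0 ∧ ∀ a : AlgebraicClosure (FK F v), a ≠ 0 →
      (∃ c ∈ V, a = a₀ * c) → Fnz f V (FK F v) a ∧ Dvs V M (FK F v) a ∧
        Tdv V M (FK F v) a ∧ ∀ D : ℕ, Tbd V M (FK F v) a D := by
  have hch : CharZero (FK F v) :=
    charZero_of_injective_algebraMap (algebraMap F (FK F v)).injective
  obtain ⟨a₁, h1, hd⟩ := ep_glob hf hA hM v hb hV
  obtain ⟨a₂, h2, hs⟩ := ep_globs hf hA hM v hb hV
  obtain ⟨L, hL⟩ := exists_ldI v
  have hVL : V.comap (algebraMap (FK F v) _) = Ok L := by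
    rw [hV]
    exact SetLike.ext fun x => (hL x).symm
  obtain rfl := GM.v_uniq L V hVL
  have hI : Irr f (AlgebraicClosure (FK F v)) := by
    obtain ⟨σ⟩ : Nonempty (AlgebraicClosure F →ₐ[F] AlgebraicClosure (FK F v)) :=
      ⟨IsAlgClosed.lift⟩
    let i1 : Algebra (AlgebraicClosure F) (AlgebraicClosure (FK F v)) :=
      (σ : AlgebraicClosure F →+* AlgebraicClosure (FK F v)).toAlgebra
    have i2 : IsScalarTower F (AlgebraicClosure F) (AlgebraicClosure (FK F v)) :=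
      IsScalarTower.of_algebraMap_eq fun a => (σ.commutes a).symm
    exact (Irr.of_radical hi).up
  have hc : ∀ b : AlgebraicClosure (FK F v), b ≠ 0 → ∃ c : AlgebraicClosure (FK F v), c ≠ 0 ∧
      L.nm (b * c) < 1 ∧ c ∈ L.V := by
    intro b hb
    obtain ⟨e, he⟩ := exists_pow_lt_of_lt_one (inv_pos.2 (L.pos hb)) L.lt
    refine ⟨(L.p : AlgebraicClosure (FK F v)) ^ e, pow_ne_zero _ (L.ne_zero L.p_pos), ?_, ?_⟩
    · rw [L.mul, L.pow]
      calc L.nm b * L.nm (L.p : AlgebraicClosure (FK F v)) ^ e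
          < L.nm b * (L.nm b)⁻¹ := mul_lt_mul_of_pos_left he (L.pos hb)
        _ = 1 := mul_inv_cancel₀ (L.pos hb).ne'
    · exact pow_mem (L.mem_V.2 L.lt.le) e
  obtain ⟨c₁, hc1, hc1', hc1''⟩ := hc a₁ h1
  obtain ⟨c₂, hc2, hc2', hc2''⟩ := hc a₂ h2
  have hV1 : a₁ * c₁ ∈ L.V := L.mem_V.2 hc1'.le
  have hV2 : a₂ * c₂ ∈ L.V := L.mem_V.2 hc2'.le
  refine ⟨(a₁ * c₁) * (a₂ * c₂), mul_ne_zero (mul_ne_zero h1 hc1) (mul_ne_zero h2 hc2),
    fun a ha hc => ?_⟩
  obtain ⟨c, hc, hac⟩ := hc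
  obtain ⟨h3, h4⟩ := hd a ha ⟨c₁ * (a₂ * c₂) * c, mul_mem (mul_mem hc1'' hV2) hc, by
    rw [hac]
    ring⟩
  have h5 := hs a ha ⟨c₂ * (a₁ * c₁) * c, mul_mem (mul_mem hc2'' hV1) hc, by
    rw [hac]
    ring⟩
  have ha1 : L.nm a < 1 := by
    rw [hac, L.mul, L.mul]
    exact (mul_le_of_le_one_right (mul_nonneg (L.nonneg _) (L.nonneg _)) (L.mem_V.1 hc)).trans_lt
      ((mul_le_of_le_one_right (L.nonneg _) hc2'.le).trans_lt hc1')
  have ht : Tdv L.V M (FK F v) a :=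
    tdv_of hf.hom hA hM ha (fun z hz h0 => tor_any hf hI ha ha1 hz h0) h4
  exact ⟨h3, h5, ht, fun D => tbd_of hf.hom ha ha1 ht D⟩

end GX
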