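import Pool.Agent.Lib.MP_f80667_ag.To.A
import Pool.Agent.Lib.MP_f80667_ag.Ep.N0

/-!
The structure of the kernel of the sum, in terms of a valuation ring `V`.

* `Tdv V M K a`: every cycle over `K` of degree `0` with sum `0` is, modulo rational equivalence, the sum of a cycle which is `0` modulo
  `a` with sum `0` and of a torsion cycle.
* `Tbd V M K a D`: for the cycles supported on points of degree `≤ D` the torsion cycle can be taken in a finite set.
-/

open ZC BE PE CV IntermediateField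

namespace GX

section defs

variable {F : Type} [Field F] {N N' k k' : ℕ} {ι ι' : Type} {f : ι → MvPolynomial (Fin N) F}
  {A : Gv F N' k' ι'} {Ω : Type} [Field Ω] [Algebra F Ω] (V : ValuationSubring Ω) (M : Mf f A k)
  (K : Type) [Field K] [Algebra F K] [Algebra K Ω] [IsScalarTower F K Ω]

/-- The cycles of degree `0` with sum `0`: cycles which are `0` modulo `a` with sum `0`, and torsion. -/
def Tdv (a : Ω) : Prop :=
  letI := A.G.grp Ω
  ∀ z ∈ (Xf f).cyc K Ω, (Xf f).deg Ω z = 0 → M.S Ω z = 0 →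
    ∃ u ∈ (Xf f).cyc K Ω, Zra f V a u ∧ M.S Ω u = 0 ∧
      ∃ n : ℕ, n ≠ 0 ∧ n • (z - u) ∈ (Xf f).ratEq K Ω

/-- The torsion is in a finite set for the cycles supported on points of degree `≤ D`. -/
def Tbd (a : Ω) (D : ℕ) : Prop :=
  letI := A.G.grp Ω
  ∃ E : Finset ((Xf f).pt Ω →₀ ℤ),
    (∀ e ∈ E, e ∈ (Xf f).cyc K Ω ∧ (Xf f).deg Ω e = 0 ∧ M.S Ω e = 0 ∧
      ∃ n : ℕ, n ≠ 0 ∧ n • e ∈ (Xf f).ratEq K Ω) ∧
    ∀ z ∈ (Xf f).cyc K Ω, (Xf f).deg Ω z = 0 → M.S Ω z = 0 → (∀ P ∈ z.support, Dgb f K D P) →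
      ∃ e ∈ E, ∃ u ∈ (Xf f).cyc K Ω, Zra f V a u ∧ M.S Ω u = 0 ∧
        z - e - u ∈ (Xf f).ratEq K Ω

end defs

end GX
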