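import Pool.Agent.Lib.MP_f80667_ag.Ep.N0

/-!
The strong form of the divisibility.

* `Dvs V M K a`: a cycle which is `0` modulo `a` and has the sum `0` is, for all `m ≠ 0` and all multiples `b ≠ 0` of `a`, rationally
  equivalent to `m` times a cycle which is `0` modulo `b` and has the sum `0`.
-/

open ZC BE PE CV IntermediateField

namespace GX

variable {F : Type} [Field F] {N N' k k' : ℕ} {ι ι' : Type} {f : ι → MvPolynomial (Fin N) F}
  {A : Gv F N' k' ι'} {Ω : Type} [Field Ω] [Algebra F Ω]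

/-- The cycles over `K` which are `0` modulo `a` and have the sum `0` are divisible by `m`, with a quotient which is `0` modulo `b`. -/
def Dvs (V : ValuationSubring Ω) (M : Mf f A k) (K : Type) [Field K] [Algebra F K] [Algebra K Ω]
    [IsScalarTower F K Ω] (a : Ω) : Prop :=
  letI := A.G.grp Ω
  ∀ b : Ω, b ≠ 0 → (∃ c ∈ V, b = a * c) → ∀ m : ℕ, m ≠ 0 → ∀ z ∈ (Xf f).cyc K Ω,
    Zra f V a z → M.S Ω z = 0 →
      ∃ z' ∈ (Xf f).cyc K Ω, Zra f V b z' ∧ M.S Ω z' = 0 ∧ z - m • z' ∈ (Xf f).ratEq K Ω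

end GX
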