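import Pool.Agent.Lib.MP_f80667_ag.To.A
import Pool.Agent.Lib.MP_f80667_ag.Gx.Gc

/-!
The polynomial `G` of a projection of an irreducible variety is prime.

* `irr_prime`: over every subfield `E` of the algebraically closed field `κ`.
* `Irr.prime`, `Irr.irr`: the form for `Irr f Ω` and a projection over `K`; `Irr.prime_map`: over a field `E` between `K` and `Ω`.
-/

open MvPolynomial ZC BE PE CV

namespace GX

section cl

variable {E κ : Type} [Field E] [Field κ] [Algebra E κ] {N d : ℕ} {ι : Type}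
  {f : ι → MvPolynomial (Fin N) κ} {ψ : Prj E N d}

/-- The value at `x` of the function `a (u, y)`. -/
private theorem ia_cp (φ : Prj κ N d) (P : Polynomial (MvPolynomial (Fin (d + 1)) κ))
    (x : Fin N → κ) : eval x (φ.cp P) = pe (φ.uv x) (φ.yv x) P :=
  cp_aeval φ P x

/-- A monic polynomial which vanishes on the variety has the degree `≥ n`. -/
private theorem ia_deg [IsAlgClosed κ] {φ : Prj κ N d} (h : φ.Ok f)
    (hf : ∀ i, ∃ e, (f i).IsHomogeneous e) {c : Fin (d + 1) → κ} (hD : eval c φ.D ≠ 0)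
    {a : Polynomial (MvPolynomial (Fin (d + 1)) κ)} (ha : a.Monic)
    (h0 : ∀ x, Zp f x → eval x (φ.cp a) = 0) : φ.G.natDegree ≤ a.natDegree := by
  classical
  obtain ⟨h1, h2⟩ := h.gc_card (fun g _ _ => (IsAlgClosed.splits g).natDegree_eq_card_roots.symm) hD
  have hm : (a.map (eval c)).Monic := ha.map _
  have h3 : (φ.gc c).roots ≤ (a.map (eval c)).roots := by
    rw [Multiset.le_iff_subset h2]
    intro w hw
    have h4 := h.pt_zp hf (h.mem_gc.1 hw) hD
    have h5 := h0 _ h4.1
    rw [ia_cp, h4.2.1, h4.2.2] at h5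
    rw [Polynomial.mem_roots hm.ne_zero, Polynomial.IsRoot.def, gc_pe]
    exact h5
  have h6 := Multiset.card_le_card h3
  rw [h1] at h6
  refine h6.trans ((Polynomial.card_roots' _).trans ?_)
  rw [ha.natDegree_map]

theorem irr_prime [IsAlgClosed κ] (h : (ψ.om κ).Ok f) (hf : ∀ i, ∃ e, (f i).IsHomogeneous e)
    (hI : ∀ a b : MvPolynomial (Fin N) κ, (∀ x, Zp f x → eval x a * eval x b = 0) →
      (∀ x, Zp f x → eval x a = 0) ∨ ∀ x, Zp f x → eval x b = 0)
    {c : Fin (d + 1) → κ} {w : κ} (hG : pe c w (ψ.om κ).G = 0) (hD : eval c (ψ.om κ).D ≠ 0)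
    (hm : ψ.G.Monic) : Prime ψ.G := by
  have hinj : Function.Injective (MvPolynomial.map (algebraMap E κ) :
      MvPolynomial (Fin (d + 1)) E →+* MvPolynomial (Fin (d + 1)) κ) :=
    MvPolynomial.map_injective _ (algebraMap E κ).injective
  have hGm : (ψ.om κ).G = ψ.G.map (MvPolynomial.map (algebraMap E κ)) := rfl
  have hdeg : (ψ.om κ).G.natDegree = ψ.G.natDegree := by
    rw [hGm, hm.natDegree_map]
  refine Irreducible.prime ((Polynomial.Monic.irreducible_iff_natDegree hm).2 ⟨?_, ?_⟩)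
  · intro h1
    rw [hGm, h1, Polynomial.map_one, map_one] at hG
    exact one_ne_zero hG
  · intro a b ha hb hab
    have ha' : (a.map (MvPolynomial.map (algebraMap E κ))).Monic := ha.map _
    have hb' : (b.map (MvPolynomial.map (algebraMap E κ))).Monic := hb.map _
    have hda : (a.map (MvPolynomial.map (algebraMap E κ))).natDegree = a.natDegree :=
      ha.natDegree_map _
    have hdb : (b.map (MvPolynomial.map (algebraMap E κ))).natDegree = b.natDegree :=
      hb.natDegree_map _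
    have hsum : a.natDegree + b.natDegree = ψ.G.natDegree := by
      rw [← hab, ha.natDegree_mul hb]
    have hk : ∀ x, Zp f x → eval x ((ψ.om κ).cp (a.map (MvPolynomial.map (algebraMap E κ)))) *
        eval x ((ψ.om κ).cp (b.map (MvPolynomial.map (algebraMap E κ)))) = 0 := by
      intro x hx
      rw [ia_cp, ia_cp, ← map_mul, ← Polynomial.map_mul, hab]
      obtain ⟨k, hk⟩ := Function.ne_iff.1 hx.1
      exact (h.on_pt (x := x) hx.2 (isUnit_iff_ne_zero.2 hk)).1
    rcases hI _ _ hk with h1 | h1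
    · right
      have h2 := ia_deg h hf hD ha' h1
      omega
    · left
      have h2 := ia_deg h hf hD hb' h1
      omega

end cl

section loc

variable {F : Type} [Field F] {N d : ℕ} {ι : Type} {f : ι → MvPolynomial (Fin N) F}
  {K Ω : Type} [Field K] [Field Ω] [Algebra K Ω] [Algebra F K] [Algebra F Ω]
  {L : Ld K Ω} {ψ : Prj K N d}

/-- **`G` is prime** if the variety is irreducible over `Ω`. -/
theorem Irr.prime [IsAlgClosed Ω] (hI : Irr f Ω) (hψ : Pk f L ψ) {c : Fin (d + 1) → Ω} {w : Ω}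
    (hG : pe c w ψ.G = 0) (hD : aeval c ψ.D ≠ 0) : Prime ψ.G := by
  have hf : ∀ i, ∃ e, (fo f Ω i).IsHomogeneous e := fun i => by
    obtain ⟨e, he⟩ := hψ.hom i
    exact ⟨e, he.map _⟩
  refine irr_prime (f := fo f Ω) hψ.ok hf hI (c := c) (w := w) ?_ ?_ hψ.mon
  · change pe c w (ψ.G.map (MvPolynomial.map (algebraMap K Ω))) = 0
    rw [pe_map]
    exact hG
  · change eval c (MvPolynomial.map (algebraMap K Ω) ψ.D) ≠ 0
    rw [MvPolynomial.eval_map]
    exact hD

theorem Irr.irr [IsAlgClosed Ω] (hI : Irr f Ω) (hψ : Pk f L ψ) {c : Fin (d + 1) → Ω} {w : Ω}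
    (hG : pe c w ψ.G = 0) (hD : aeval c ψ.D ≠ 0) : Irreducible ψ.G :=
  (hI.prime hψ hG hD).irreducible

/-- `G` is prime over every field `E` between `K` and `Ω`. -/
theorem Irr.prime_map [IsAlgClosed Ω] (hI : Irr f Ω) (hψ : Pk f L ψ) (E : Type) [Field E]
    [Algebra K E] [Algebra E Ω] [IsScalarTower K E Ω] {c : Fin (d + 1) → Ω} {w : Ω}
    (hG : pe c w ψ.G = 0) (hD : aeval c ψ.D ≠ 0) :
    Prime (ψ.G.map (MvPolynomial.map (algebraMap K E))) := by
  have hf : ∀ i, ∃ e, (fo f Ω i).IsHomogeneous e := fun i => by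
    obtain ⟨e, he⟩ := hψ.hom i
    exact ⟨e, he.map _⟩
  have hom : (ψ.om E).om Ω = ψ.om Ω := by
    change (ψ.map (algebraMap K E)).map (algebraMap E Ω) = ψ.map (algebraMap K Ω)
    rw [Prj.map_map, ← IsScalarTower.algebraMap_eq]
  refine irr_prime (ψ := ψ.om E) (f := fo f Ω) (by rw [hom]; exact hψ.ok) hf hI (c := c)
    (w := w) ?_ ?_ (hψ.mon.map _)
  · rw [hom]
    change pe c w (ψ.G.map (MvPolynomial.map (algebraMap K Ω))) = 0
    rw [pe_map]
    exact hG
  · rw [hom]
    change eval c (MvPolynomial.map (algebraMap K Ω) ψ.D) ≠ 0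
    rw [MvPolynomial.eval_map]
    exact hD

end loc

end GX
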