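import Mathlib

/-!
Minors, and the degrees of the factors of a polynomial in two variables.
-/

open Polynomial

namespace GX

/-- A linearly independent family of sequences has a nonzero minor. -/
theorem exists_minor {R : Type} [CommRing R] [IsDomain R] {I : Type} [Fintype I] [DecidableEq I]
    (u : I → ℕ → R) (h : ∀ a : I → R, (∀ l, ∑ q, a q * u q l = 0) → a = 0) :
    ∃ e : I → ℕ, (Matrix.of fun q p => u q (e p)).det ≠ 0 := by
  classical
  let Q := FractionRing R
  have hQ : ∀ a : I → Q, (∀ l, ∑ q, a q * algebraMap R Q (u q l) = 0) → a = 0 := by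
    intro a ha
    obtain ⟨b, hb⟩ := IsLocalization.exist_integer_multiples_of_finite (nonZeroDivisors R) a
    have hb0 : algebraMap R Q b ≠ 0 := IsFractionRing.to_map_ne_zero_of_mem_nonZeroDivisors b.2
    choose a' ha' using hb
    have h1 : a' = 0 := h a' fun l => by
      apply IsFractionRing.injective R Q
      rw [map_sum, map_zero, ← mul_zero (algebraMap R Q b), ← ha l, Finset.mul_sum]
      refine Finset.sum_congr rfl fun q _ => ?_
      rw [map_mul, ha' q, Algebra.smul_def]
      ring
    funext q
    have h2 := ha' q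
    rw [h1, Pi.zero_apply, map_zero, Algebra.smul_def] at h2
    exact (mul_eq_zero.1 h2.symm).resolve_left hb0
  obtain ⟨C, hC⟩ : ∃ C : ℕ → I → Q, C = fun l q => algebraMap R Q (u q l) := ⟨_, rfl⟩
  have hS : Submodule.span Q (Set.range C) = ⊤ := by
    by_contra hne
    obtain ⟨φ, hφ, hle⟩ := Submodule.exists_le_ker_of_lt_top _ (lt_top_iff_ne_top.2 hne)
    refine hφ ?_
    have h1 : (fun q => φ (Pi.single q 1)) = 0 := hQ _ fun l => by
      have h2 : φ (C l) = 0 := hle (Submodule.subset_span ⟨l, rfl⟩)
      rw [← h2, LinearMap.pi_apply_eq_sum_univ φ (C l)]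
      refine Finset.sum_congr rfl fun q _ => ?_
      rw [smul_eq_mul, mul_comm, hC]
      congr 2
      funext q'
      rw [Pi.single_apply]
      simp only [eq_comm]
    refine LinearMap.pi_ext' fun q => LinearMap.ext_ring ?_
    exact congrFun h1 q
  obtain ⟨κ, a, ha, hsp, hli⟩ := exists_linearIndependent' Q C
  have hb : ⊤ ≤ Submodule.span Q (Set.range (C ∘ a)) := by rw [hsp, hS]
  let B : Module.Basis κ Q (I → Q) := Module.Basis.mk hli hb
  have hfin : Finite κ := Module.Finite.finite_basis B
  have hft := Fintype.ofFinite κ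
  have hc : Fintype.card I = Fintype.card κ := by
    rw [← Module.finrank_eq_card_basis B, Module.finrank_fintype_fun_eq_card]
  obtain ⟨E⟩ := Fintype.card_eq.1 hc
  refine ⟨fun p => a (E p), fun h0 => ?_⟩
  have h1 : LinearIndependent Q (fun p => C (a (E p))) := hli.comp _ E.injective
  have h2 : IsUnit (Matrix.of fun q p => algebraMap R Q (u q (a (E p)))) := by
    rw [← Matrix.linearIndependent_cols_iff_isUnit]
    have h3 : (Matrix.of fun q p => algebraMap R Q (u q (a (E p)))).col =
        fun p => C (a (E p)) := by
      funext p q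
      rw [hC]
      rfl
    rw [h3]
    exact h1
  rw [Matrix.isUnit_iff_isUnit_det] at h2
  refine h2.ne_zero ?_
  have h4 : (Matrix.of fun q p => algebraMap R Q (u q (a (E p)))) =
      (algebraMap R Q).mapMatrix (Matrix.of fun q p => u q (a (E p))) := by
    ext q p
    rfl
  rw [h4, ← RingHom.map_det, h0, map_zero]

/-- The coefficients after the change of the variables. -/
theorem coeff_swap {R : Type} [CommRing R] (A : R[X][X]) (i j : ℕ) :
    ((Bivariate.swap A).coeff i).coeff j = (A.coeff j).coeff i := by
  induction A using Polynomial.induction_on' with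
  | add p q hp hq => rw [map_add, coeff_add, coeff_add, hp, hq, coeff_add, coeff_add]
  | monomial n f =>
    induction f using Polynomial.induction_on' with
    | add p q hp hq =>
      rw [map_add, map_add, coeff_add, coeff_add, hp, hq, coeff_add, coeff_add]
    | monomial m r =>
      rw [Bivariate.swap_monomial_monomial, coeff_monomial, coeff_monomial]
      by_cases h1 : m = i
      · by_cases h2 : n = j
        · rw [if_pos h1, if_pos h2, coeff_monomial, coeff_monomial, if_pos h1, if_pos h2]
        · rw [if_pos h1, if_neg h2, coeff_monomial, if_neg h2, coeff_zero]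
      · rw [if_neg h1, coeff_zero]
        by_cases h2 : n = j
        · rw [if_pos h2, coeff_monomial, if_neg h1]
        · rw [if_neg h2, coeff_zero]

/-- The degree of a factor with respect to the inner variable. -/
theorem deg_factor {k : Type} [Field k] {a b g : k[X][X]} (h : g = a * b) (hg : g ≠ 0) {D : ℕ}
    (hD : ∀ j, (g.coeff j).natDegree ≤ D) (j : ℕ) : (a.coeff j).natDegree ≤ D := by
  have h0 : a ≠ 0 ∧ b ≠ 0 := mul_ne_zero_iff.1 (h ▸ hg)
  have hsa : (Bivariate.swap a : k[X][X]) ≠ 0 := (map_ne_zero_iff _ Bivariate.swap.injective).2 h0.1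
  have hsb : (Bivariate.swap b : k[X][X]) ≠ 0 := (map_ne_zero_iff _ Bivariate.swap.injective).2 h0.2
  have h1 : (Bivariate.swap g : k[X][X]).natDegree ≤ D := by
    rw [natDegree_le_iff_coeff_eq_zero]
    intro m hm
    ext j
    rw [coeff_swap, coeff_zero]
    exact coeff_eq_zero_of_natDegree_lt ((hD j).trans_lt hm)
  have h2 : (Bivariate.swap a : k[X][X]).natDegree ≤ D := by
    rw [h, map_mul, natDegree_mul hsa hsb] at h1
    omega
  rw [natDegree_le_iff_coeff_eq_zero]
  intro m hm
  rw [← coeff_swap, coeff_eq_zero_of_natDegree_lt (h2.trans_lt hm), coeff_zero]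

end GX
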