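import Pool.Agent.Lib.MP_f80667_ag.To.La
import Pool.Agent.Lib.MP_f80667_ag.Gm.GpD
import Pool.Agent.Lib.MP_f80667_ag.Gx.Al

/-!
Irreducible lines: `lnp c v G = G(c + s v, Y)`, a polynomial in `s` (inner) and `Y` (outer). If `G` is monic and irreducible and `w` is a
simple root of `G(c, Y)`, then `lnp c v G` is prime for all `v` outside a hypersurface.

Proof: let `W` be the power series in `s` over `R = k[v]` with `W(0) = w`, `G(c + s v, W) = 0`. `G(c + s v, Y)` is irreducible over `R[s]`
(put `s = 1`), so it is the minimal polynomial of `W` over the fraction field of `R[s]`, and the `s ^ i W ^ j`, `i ≤ D`, `j < n`, are linearly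
independent over `R`: they have a nonzero minor `Θ`. For `Θ(v) ≠ 0` the series for this `v` are linearly independent over `k`, but
a factor of `G(c + s v, Y)` with the root `W` would be a relation.
-/

open Polynomial GM

namespace GX

variable {k : Type} [Field k] {d : ℕ}

/-- The polynomial `G(c + s v, Y)`. -/
noncomputable def lnp (c v : Fin (d + 1) → k) (G : Polynomial (MvPolynomial (Fin (d + 1)) k)) :
    k[X][X] :=
  G.map (MvPolynomial.aeval (fun r => C (c r) + C (v r) * X) :
    MvPolynomial (Fin (d + 1)) k →ₐ[k] k[X]).toRingHom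

/-- The polynomial `G(c + s v, Y)`, the `v_r` are variables. -/
noncomputable def lgp (c : Fin (d + 1) → k)
    (G : Polynomial (MvPolynomial (Fin (d + 1)) k)) : (MvPolynomial (Fin (d + 1)) k)[X][X] :=
  G.map (MvPolynomial.aeval (fun r => C (MvPolynomial.C (c r)) + C (MvPolynomial.X r) * X) :
    MvPolynomial (Fin (d + 1)) k →ₐ[k] (MvPolynomial (Fin (d + 1)) k)[X]).toRingHom

theorem up_lgp (c v : Fin (d + 1) → k) (G : Polynomial (MvPolynomial (Fin (d + 1)) k)) :
    up₂ (MvPolynomial.eval v) (lgp c G) = lnp c v G := by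
  unfold up₂ lgp lnp
  rw [coe_mapRingHom, map_map]
  congr 1
  refine MvPolynomial.ringHom_ext (fun a => ?_) fun r => ?_
  · simp [MvPolynomial.algebraMap_eq]
  · simp

theorem ev_lgp (c : Fin (d + 1) → k) (w : k)
    (G : Polynomial (MvPolynomial (Fin (d + 1)) k)) :
    ev₂ (0, MvPolynomial.C w) (lgp c G) = MvPolynomial.C (pe c w G) := by
  have h : (ev₂ ((0 : MvPolynomial (Fin (d + 1)) k), MvPolynomial.C w)).comp
      (mapRingHom (MvPolynomial.aeval (fun r => C (MvPolynomial.C (c r)) +
        C (MvPolynomial.X r) * X) : MvPolynomial (Fin (d + 1)) k →ₐ[k]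
          (MvPolynomial (Fin (d + 1)) k)[X]).toRingHom) =
      (MvPolynomial.C (σ := Fin (d + 1))).comp (pe c w) := by
    refine Polynomial.ringHom_ext' (MvPolynomial.ringHom_ext (fun a => ?_) fun r => ?_) ?_
    · simp [ev₂, pe, MvPolynomial.algebraMap_eq]
    · simp [ev₂, pe]
    · simp [ev₂, pe]
  exact congrArg (fun φ => φ G) h

theorem dy_lgp (c : Fin (d + 1) → k) (G : Polynomial (MvPolynomial (Fin (d + 1)) k)) :
    dY (lgp c G) = lgp c (derivative G) := by
  unfold dY lgp
  rw [derivative_map]

private theorem lgp_irr {G : Polynomial (MvPolynomial (Fin (d + 1)) k)} (hm : G.Monic)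
    (hi : Irreducible G) (c : Fin (d + 1) → k) : Irreducible (lgp c G) := by
  refine Monic.irreducible_of_irreducible_map (evalRingHom (1 : MvPolynomial (Fin (d + 1)) k)) _
    (hm.map _) ?_
  let τ : MvPolynomial (Fin (d + 1)) k ≃ₐ[k] MvPolynomial (Fin (d + 1)) k :=
    AlgEquiv.ofAlgHom (MvPolynomial.aeval fun r => MvPolynomial.C (c r) + MvPolynomial.X r)
      (MvPolynomial.aeval fun r => MvPolynomial.X r - MvPolynomial.C (c r))
      (by
        ext1 r
        simp)
      (by
        ext1 r
        simp)
  have h1 : (lgp c G).map (evalRingHom (1 : MvPolynomial (Fin (d + 1)) k)) =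
      Polynomial.mapEquiv τ.toRingEquiv G := by
    unfold lgp
    rw [map_map]
    change _ = G.map (τ.toRingEquiv : MvPolynomial (Fin (d + 1)) k →+* MvPolynomial (Fin (d + 1)) k)
    congr 1
    refine MvPolynomial.ringHom_ext (fun a => ?_) fun r => ?_
    · simp [τ, MvPolynomial.algebraMap_eq]
    · simp [τ]
  rw [h1, MulEquiv.irreducible_iff]
  exact hi

/-- The powers of the Hensel root are independent. -/
theorem lgp_ind {G : Polynomial (MvPolynomial (Fin (d + 1)) k)} (hm : G.Monic)
    (hi : Irreducible G) {c : Fin (d + 1) → k} {W : PowerSeries (MvPolynomial (Fin (d + 1)) k)}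
    (hW : pse 0 W (lgp c G) = 0) {A : (MvPolynomial (Fin (d + 1)) k)[X][X]}
    (hA : A.natDegree < G.natDegree) (h0 : pse 0 W A = 0) : A = 0 := by
  let R := MvPolynomial (Fin (d + 1)) k
  let Λ := FractionRing (PowerSeries R)
  let Q := FractionRing R[X]
  have hcoe : Function.Injective (Polynomial.coeToPowerSeries.ringHom : R[X] →+* PowerSeries R) :=
    Polynomial.coe_injective R
  have hΛ : Function.Injective (algebraMap (PowerSeries R) Λ) := IsFractionRing.injective _ _
  have hinj : Function.Injective ((algebraMap (PowerSeries R) Λ).comp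
      (Polynomial.coeToPowerSeries.ringHom : R[X] →+* PowerSeries R)) := hΛ.comp hcoe
  let _ : Algebra Q Λ := (IsFractionRing.lift hinj).toAlgebra
  have halg : ∀ x : R[X], algebraMap Q Λ (algebraMap R[X] Q x) =
      algebraMap (PowerSeries R) Λ (x : PowerSeries R) := fun x =>
    IsFractionRing.lift_algebraMap hinj x
  have hev : ∀ B : R[X][X], aeval (algebraMap (PowerSeries R) Λ W) (B.map (algebraMap R[X] Q)) =
      algebraMap (PowerSeries R) Λ (pse 0 W B) := by
    intro B
    have h1 : ((aeval (algebraMap (PowerSeries R) Λ W) : Q[X] →ₐ[Q] Λ) : Q[X] →+* Λ).comp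
        (mapRingHom (algebraMap R[X] Q)) = (algebraMap (PowerSeries R) Λ).comp (pse 0 W) := by
      refine Polynomial.ringHom_ext (fun a => ?_) ?_
      · have h2 : pse 0 W (C a) = (a : PowerSeries R) := by
          have h3 : (pse 0 W).comp C =
              (Polynomial.coeToPowerSeries.ringHom : R[X] →+* PowerSeries R) := by
            refine Polynomial.ringHom_ext (fun b => ?_) ?_
            · rw [RingHom.comp_apply, pse_C]
              simp
            · rw [RingHom.comp_apply, pse_z]
              simp
          exact congrArg (fun φ => φ a) h3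
        rw [RingHom.comp_apply, RingHom.comp_apply, h2, ← halg]
        simp
      · rw [RingHom.comp_apply, RingHom.comp_apply, pse_Y]
        simp
    exact congrArg (fun φ => φ B) h1
  have hmg : (lgp c G).Monic := hm.map _
  have hng : (lgp c G).natDegree = G.natDegree := hm.natDegree_map _
  have hirr : Irreducible ((lgp c G).map (algebraMap R[X] Q)) :=
    (hmg.irreducible_iff_irreducible_map_fraction_map).1 (lgp_irr hm hi c)
  have hmin : (lgp c G).map (algebraMap R[X] Q) =
      minpoly Q (algebraMap (PowerSeries R) Λ W) :=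
    minpoly.eq_of_irreducible_of_monic hirr (by rw [hev, hW, map_zero]) (hmg.map _)
  by_contra hne
  have h1 : minpoly Q (algebraMap (PowerSeries R) Λ W) ∣ A.map (algebraMap R[X] Q) :=
    minpoly.dvd _ _ (by rw [hev, h0, map_zero])
  rw [← hmin] at h1
  have hQi : Function.Injective (algebraMap R[X] Q) := IsFractionRing.injective _ _
  have h2 : A.map (algebraMap R[X] Q) ≠ 0 := (Polynomial.map_ne_zero_iff hQi).2 hne
  have h3 := natDegree_le_of_dvd h1 h2
  rw [hmg.natDegree_map, natDegree_map_eq_of_injective hQi, hng] at h3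
  omega

end GX
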