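import Pool.Agent.Lib.MP_f80667_ag.Ep.Ax4

/-!
The numbers of bounded degree have finitely many classes modulo a number.

* `ld_rep`: representatives of the integers of a finite extension modulo `ε`.
* `ld_deg`: finitely many balls of radius `ε` contain all integral elements of degree `≤ D`.
* `card_deg`: the degree is the number of conjugates.
-/

open ZC BE PE CV IntermediateField

namespace GX

variable {K Ω : Type} [Field K] [Field Ω] [Algebra K Ω] (L : Ld K Ω)

/-- Representatives of the integers of `M` modulo `ε`. -/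
theorem ld_rep (M : IntermediateField K Ω) [FiniteDimensional K M] {ε : ℝ} (hε : 0 < ε) :
    ∃ R : Finset Ω, (∀ c ∈ R, c ∈ M ∧ L.nm c ≤ 1) ∧
      ∀ x ∈ M, L.nm x ≤ 1 → ∃ c ∈ R, L.nm (x - c) ≤ ε := by
  classical
  obtain ⟨π, hπM, h0, h1, hv⟩ := L.unif M inferInstance
  obtain ⟨S, hS, hS'⟩ := L.fin M inferInstance
  have key : ∀ n : ℕ, ∃ R : Finset Ω, (∀ c ∈ R, c ∈ M ∧ L.nm c ≤ 1) ∧
      ∀ x ∈ M, L.nm x ≤ 1 → ∃ c ∈ R, L.nm (x - c) ≤ L.nm π ^ n := by
    intro n
    induction n with
    | zero =>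
      refine ⟨{0}, fun c hc => ?_, fun x _ hx => ⟨0, Finset.mem_singleton_self 0, ?_⟩⟩
      · rw [Finset.mem_singleton.1 hc, L.zero]
        exact ⟨zero_mem M, zero_le_one⟩
      · rw [sub_zero, pow_zero]
        exact hx
    | succ n ih =>
      obtain ⟨R, hR, hR'⟩ := ih
      refine ⟨(S ×ˢ R).image fun y => y.1 + π * y.2, fun c hc => ?_, fun x hxM hx => ?_⟩
      · obtain ⟨⟨s, r⟩, hsr, rfl⟩ := Finset.mem_image.1 hc
        obtain ⟨hs, hr⟩ := Finset.mem_product.1 hsr
        refine ⟨add_mem (hS s hs).1 (mul_mem hπM (hR r hr).1),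
          (L.add _ _).trans (max_le (hS s hs).2 ?_)⟩
        rw [L.mul]
        exact mul_le_one₀ h1.le (L.nonneg _) (hR r hr).2
      · obtain ⟨s, hs, hxs⟩ := hS' x hxM hx
        have hπ0 : π ≠ 0 := L.ne_zero h0
        have hy : L.nm ((x - s) / π) ≤ 1 := by
          rw [L.div, div_le_one h0]
          by_cases hz : x - s = 0
          · rw [hz, L.zero]
            exact h0.le
          · obtain ⟨k, hk⟩ := hv (x - s) (sub_mem hxM (hS s hs).1) hz
            rw [hk] at hxs ⊢
            have hk1 : 1 ≤ k := by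
              by_contra hcon
              exact absurd hxs (not_lt.2 (one_le_zpow_of_nonpos₀ h0 h1.le (by omega)))
            calc L.nm π ^ k ≤ L.nm π ^ (1 : ℤ) := zpow_le_zpow_right_of_le_one₀ h0 h1.le hk1
              _ = L.nm π := zpow_one _
        obtain ⟨r, hr, hxr⟩ := hR' ((x - s) / π)
          (div_mem (sub_mem hxM (hS s hs).1) hπM) hy
        refine ⟨s + π * r, Finset.mem_image.2 ⟨(s, r), Finset.mem_product.2 ⟨hs, hr⟩, rfl⟩, ?_⟩
        have e1 : x - (s + π * r) = π * ((x - s) / π - r) := by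
          field_simp
          ring
        rw [e1, L.mul, pow_succ', mul_comm]
        rw [mul_comm (L.nm π)]
        exact mul_le_mul_of_nonneg_right hxr h0.le
  obtain ⟨n, hn⟩ := exists_pow_lt_of_lt_one hε h1
  obtain ⟨R, hR, hR'⟩ := key n
  exact ⟨R, hR, fun x hx hx1 => by
    obtain ⟨c, hc, hxc⟩ := hR' x hx hx1
    exact ⟨c, hc, hxc.trans hn.le⟩⟩

/-- The coefficients of a product of linear factors. -/
theorem ld_prod (s : Multiset Ω) (hs : ∀ r ∈ s, L.nm r ≤ 1) (i : ℕ) :
    L.nm ((s.map fun r => Polynomial.X - Polynomial.C r).prod.coeff i) ≤ 1 := by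
  induction s using Multiset.induction_on generalizing i with
  | empty =>
    rw [Multiset.map_zero, Multiset.prod_zero, Polynomial.coeff_one]
    split_ifs
    · exact L.one.le
    · rw [L.zero]
      exact zero_le_one
  | cons a s ih =>
    have hs' : ∀ r ∈ s, L.nm r ≤ 1 := fun r hr => hs r (Multiset.mem_cons_of_mem hr)
    rw [Multiset.map_cons, Multiset.prod_cons, sub_mul, Polynomial.coeff_sub,
      Polynomial.coeff_C_mul]
    refine (L.sub _ _).trans (max_le ?_ ?_)
    · rcases i with _ | i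
      · rw [Polynomial.mul_coeff_zero, Polynomial.coeff_X_zero, zero_mul, L.zero]
        exact zero_le_one
      · rw [Polynomial.coeff_X_mul]
        exact ih hs' i
    · rw [L.mul]
      exact mul_le_one₀ (hs a (Multiset.mem_cons_self a s)) (L.nonneg _) (ih hs' i)

/-- The product of the distances to the roots. -/
theorem ld_dist (s : Multiset Ω) (x : Ω) {ε : ℝ} (hε : 0 ≤ ε) (h : ∀ r ∈ s, ε ≤ L.nm (x - r)) :
    ε ^ s.card ≤ L.nm ((s.map fun r => Polynomial.X - Polynomial.C r).prod.eval x) := by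
  induction s using Multiset.induction_on with
  | empty =>
    rw [Multiset.card_zero, pow_zero, Multiset.map_zero, Multiset.prod_zero, Polynomial.eval_one,
      L.one]
  | cons a s ih =>
    rw [Multiset.card_cons, pow_succ', Multiset.map_cons, Multiset.prod_cons, Polynomial.eval_mul,
      Polynomial.eval_sub, Polynomial.eval_X, Polynomial.eval_C, L.mul]
    exact mul_le_mul (h a (Multiset.mem_cons_self a s))
      (ih fun r hr => h r (Multiset.mem_cons_of_mem hr)) (pow_nonneg hε _) (L.nonneg _)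

/-- The coefficients of the minimal polynomial of an integral element are integral. -/
theorem ld_minpoly [IsAlgClosure K Ω] {x : Ω} (hx : L.nm x ≤ 1) (i : ℕ) :
    L.nm (algebraMap K Ω ((minpoly K x).coeff i)) ≤ 1 := by
  have hcl : IsAlgClosed Ω := IsAlgClosure.isAlgClosed K
  have halg : Algebra.IsAlgebraic K Ω := IsAlgClosure.isAlgebraic
  have hnor : Normal K Ω := normal_iff.2 fun y =>
    ⟨(halg.isAlgebraic y).isIntegral, IsAlgClosed.splits _⟩
  have hint : IsIntegral K x := (halg.isAlgebraic x).isIntegral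
  have hsp : ((minpoly K x).map (algebraMap K Ω)).Splits := IsAlgClosed.splits _
  have hm : ((minpoly K x).map (algebraMap K Ω)).Monic := (minpoly.monic hint).map _
  have h1 := hsp.eq_prod_roots_of_monic hm
  rw [← Polynomial.coeff_map, h1]
  refine ld_prod L _ (fun r hr => ?_) i
  have h2 : Polynomial.aeval r (minpoly K x) = 0 := by
    have h3 := (Polynomial.mem_roots hm.ne_zero).1 hr
    rw [Polynomial.IsRoot.def, Polynomial.eval_map] at h3
    rw [Polynomial.aeval_def]
    exact h3
  obtain ⟨γ, hγ⟩ := minpoly.exists_algEquiv_of_root (halg.isAlgebraic x) h2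
  rw [← L.act γ, hγ]
  exact hx

/-- The elements of degree `≤ D` are near finitely many numbers. -/
theorem ld_deg [IsAlgClosure K Ω] (D : ℕ) {ε : ℝ} (hε : 0 < ε) :
    ∃ R : Finset Ω, ∀ x : Ω, L.nm x ≤ 1 → (minpoly K x).natDegree ≤ D →
      ∃ r ∈ R, L.nm (x - r) ≤ ε := by
  classical
  have hcl : IsAlgClosed Ω := IsAlgClosure.isAlgClosed K
  have halg : Algebra.IsAlgebraic K Ω := IsAlgClosure.isAlgebraic
  have hδ : 0 < ε ^ D / 2 := by positivity
  obtain ⟨R₀, -, hR₀⟩ := ld_rep L (⊥ : IntermediateField K Ω) hδ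
  obtain ⟨φ, hφ⟩ : ∃ φ : (Fin D → R₀) → Polynomial Ω, φ = fun g =>
    Polynomial.X ^ D + ∑ i : Fin D, Polynomial.C (g i : Ω) * Polynomial.X ^ (i : ℕ) := ⟨_, rfl⟩
  have hlt : ∀ g : Fin D → R₀, (∑ i : Fin D, Polynomial.C (g i : Ω) *
      Polynomial.X ^ (i : ℕ)).degree < (D : WithBot ℕ) := fun g => Polynomial.degree_sum_fin_lt _
  have hmon : ∀ g, (φ g).Monic := fun g => by
    rw [hφ]
    exact Polynomial.monic_X_pow_add (hlt g)
  have hdeg : ∀ g, (φ g).natDegree = D := fun g => by
    rw [hφ]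
    exact Polynomial.natDegree_eq_of_degree_eq_some (by
      rw [Polynomial.degree_add_eq_left_of_degree_lt, Polynomial.degree_X_pow]
      rw [Polynomial.degree_X_pow]
      exact hlt g)
  refine ⟨Finset.univ.biUnion fun g => (φ g).roots.toFinset, fun x hx hxD => ?_⟩
  -- the polynomial of degree `D` with the root `x`
  have hint : IsIntegral K x := (halg.isAlgebraic x).isIntegral
  obtain ⟨q, hq⟩ : ∃ q : Polynomial K, q = minpoly K x * Polynomial.X ^
    (D - (minpoly K x).natDegree) := ⟨_, rfl⟩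
  have hqm : q.Monic := by
    rw [hq]
    exact (minpoly.monic hint).mul (Polynomial.monic_X_pow _)
  have hqd : q.natDegree = D := by
    rw [hq, (minpoly.monic hint).natDegree_mul (Polynomial.monic_X_pow _),
      Polynomial.natDegree_X_pow]
    omega
  have hq0 : Polynomial.aeval x q = 0 := by
    rw [hq, map_mul, minpoly.aeval, zero_mul]
  have hqi : ∀ i, L.nm (algebraMap K Ω (q.coeff i)) ≤ 1 := by
    intro i
    rw [hq, Polynomial.coeff_mul_X_pow']
    split_ifs
    · exact ld_minpoly L hx _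
    · rw [map_zero, L.zero]
      exact zero_le_one
  have h1 : ∀ i : Fin D, ∃ c : R₀, L.nm (algebraMap K Ω (q.coeff i) - c) ≤ ε ^ D / 2 := by
    intro i
    obtain ⟨c, hc, hcx⟩ := hR₀ (algebraMap K Ω (q.coeff i))
      (IntermediateField.algebraMap_mem _ _) (hqi i)
    exact ⟨⟨c, hc⟩, hcx⟩
  choose g hg using h1
  have e1 : (φ g).eval x = ∑ i : Fin D, ((g i : Ω) - algebraMap K Ω (q.coeff i)) * x ^ (i : ℕ) := by
    have e2 : Polynomial.aeval x q = x ^ D + ∑ i : Fin D,
        algebraMap K Ω (q.coeff i) * x ^ (i : ℕ) := by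
      rw [Polynomial.aeval_eq_sum_range, hqd, Finset.sum_range_succ, ← hqd, hqm.coeff_natDegree,
        hqd, one_smul, add_comm, Finset.sum_range]
      congr 1
      exact Finset.sum_congr rfl fun i _ => Algebra.smul_def _ _
    have e3 : (φ g).eval x = x ^ D + ∑ i : Fin D, (g i : Ω) * x ^ (i : ℕ) := by
      rw [hφ]
      simp only [Polynomial.eval_add, Polynomial.eval_pow, Polynomial.eval_X,
        Polynomial.eval_finsetSum, Polynomial.eval_mul, Polynomial.eval_C]
    rw [hq0] at e2
    rw [e3]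
    simp only [sub_mul, Finset.sum_sub_distrib]
    linear_combination -e2
  have h2 : L.nm ((φ g).eval x) ≤ ε ^ D / 2 := by
    rw [e1]
    refine L.sum_le _ _ hδ.le fun i _ => ?_
    rw [L.mul, L.pow, L.sub_comm]
    calc L.nm (algebraMap K Ω (q.coeff i) - (g i : Ω)) * L.nm x ^ (i : ℕ)
        ≤ ε ^ D / 2 * 1 := mul_le_mul (hg i) (pow_le_one₀ (L.nonneg _) hx)
          (pow_nonneg (L.nonneg _) _) hδ.le
      _ = ε ^ D / 2 := mul_one _
  by_contra hcon
  push Not at hcon
  have hsp : (φ g).Splits := IsAlgClosed.splits _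
  have h3 := hsp.eq_prod_roots_of_monic (hmon g)
  have h4 : (φ g).roots.card = D := by
    rw [← hdeg g]
    exact hsp.natDegree_eq_card_roots.symm
  have h5 := ld_dist L (φ g).roots x hε.le fun r hr =>
    (hcon r (Finset.mem_biUnion.2 ⟨g, Finset.mem_univ g, Multiset.mem_toFinset.2 hr⟩)).le
  rw [← h3, h4] at h5
  have h6 : 0 < ε ^ D := pow_pos hε D
  linarith

variable {L}

/-- The degree is at most the number of conjugates. -/
theorem card_deg [CharZero K] [IsAlgClosure K Ω] {x : Ω} {S : Finset Ω}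
    (hS : ∀ γ : Ω ≃ₐ[K] Ω, γ x ∈ S) : (minpoly K x).natDegree ≤ S.card := by
  classical
  have hcl : IsAlgClosed Ω := IsAlgClosure.isAlgClosed K
  have halg : Algebra.IsAlgebraic K Ω := IsAlgClosure.isAlgebraic
  have hnor : Normal K Ω := normal_iff.2 fun y =>
    ⟨(halg.isAlgebraic y).isIntegral, IsAlgClosed.splits _⟩
  have hint : IsIntegral K x := (halg.isAlgebraic x).isIntegral
  have hsep : (minpoly K x).Separable := (minpoly.irreducible hint).separable
  have hsp : ((minpoly K x).map (algebraMap K Ω)).Splits := IsAlgClosed.splits _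
  rw [← Polynomial.card_rootSet_eq_natDegree hsep hsp]
  rw [← Set.toFinset_card]
  refine Finset.card_le_card fun y hy => ?_
  rw [Set.mem_toFinset, Polynomial.mem_rootSet] at hy
  obtain ⟨γ, hγ⟩ := minpoly.exists_algEquiv_of_root (halg.isAlgebraic x) hy.2
  have h1 := hS γ.symm
  rwa [← hγ, AlgEquiv.symm_apply_apply] at h1

end GX
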